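import Pool.Agent.H76.EHB.Basic

/-!
# EHB Planch: Plancherel for integrable square integrable functions

Route A: Mathlib's `MeasureTheory.Lp.norm_fourier_eq` (`Mathlib/Analysis/Fourier/LpSpace.lean`) plus the identification of
the `L²` Fourier transform with the integral: approximate `G` by Schwartz functions simultaneously in `L¹` and `L²`
(density, `SchwartzMap.toLp_fourier_eq`); the transforms converge uniformly and in `L²`, so the limits agree a.e.
Route B (elementary).  `Ĝ(ξ) = ∫ G(u) e(-uξ) du` is bounded and continuous.  For `ε > 0`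
`∫ |Ĝ(ξ)|^2 exp(-π (ε ξ)^2) dξ = ∫∫ G(u) conj G(v) (1/ε) exp(-π ((u-v)/ε)^2) du dv` (Fubini and the Gaussian transform, `gft2` scaled).
The right side is `∫ c(w) (1/ε) exp(-π (w/ε)^2) dw` with `c(w) = ∫ G(u + w) conj G(u) du`, a bounded continuous function of `w`
(continuity of translation in `L²`), `c(0) = ∫ |G|^2`, so it tends to `∫|G|^2` as `ε → 0` (for example by
`Real.tendsto_integral_gaussian_smul'` or directly).  The left side increases to `∫ |Ĝ|^2` (monotone convergence), which is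
therefore finite.
-/

set_option autoImplicit false

namespace Pool.Agent.H76.EHB

open Finset MeasureTheory
open Pool.Agent.H91.PK (ee)
open scoped FourierTransform ContDiff SchwartzMap

private theorem planch_eq (G : ℝ → ℂ) (ξ : ℝ) :
    ∫ u, G u * ee (-(u * ξ)) = FourierTransform.fourier G ξ := by
  rw [Real.fourier_real_eq_integral_exp_smul]
  apply integral_congr_ae
  filter_upwards with u
  rw [ee, smul_eq_mul, mul_comm]
  congr 2
  push_cast
  ring

private theorem planch_continuous (G : ℝ → ℂ) (h1 : Integrable G) :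
    Continuous (FourierTransform.fourier G : ℝ → ℂ) :=
  VectorFourier.fourierIntegral_continuous Real.continuous_fourierChar
    (by exact continuous_inner) h1

private theorem planch_ae (G : ℝ → ℂ) (h1 : Integrable G) (h2 : MemLp G 2) :
    (FourierTransform.fourier (h2.toLp G) : Lp (α := ℝ) ℂ 2) =ᵐ[volume]
      (FourierTransform.fourier G : ℝ → ℂ) := by
  apply ae_eq_of_integral_contDiff_smul_eq
  · exact (Lp.memLp _).locallyIntegrable one_le_two
  · exact (planch_continuous G h1).locallyIntegrable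
  · intro g g_smooth g_cpt
    have hg₁ : HasCompactSupport (Complex.ofRealCLM ∘ g) := g_cpt.comp_left rfl
    have hg₂ : ContDiff ℝ ∞ (Complex.ofRealCLM ∘ g) := by fun_prop
    set φ : 𝓢(ℝ, ℂ) := hg₁.toSchwartzMap hg₂ with hφ
    have e1 : ∫ x, g x • (FourierTransform.fourier (h2.toLp G) : Lp (α := ℝ) ℂ 2) x
        = Lp.toTemperedDistribution (FourierTransform.fourier (h2.toLp G) : Lp (α := ℝ) ℂ 2) φ := by
      rw [Lp.toTemperedDistribution_apply]
      rfl
    have e2 : Lp.toTemperedDistribution (FourierTransform.fourier (h2.toLp G) : Lp (α := ℝ) ℂ 2) φ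
        = Lp.toTemperedDistribution (h2.toLp G) (FourierTransform.fourier φ) := by
      rw [← Lp.fourier_toTemperedDistribution_eq]
      rfl
    have e3 : Lp.toTemperedDistribution (h2.toLp G) (FourierTransform.fourier φ)
        = ∫ x, (FourierTransform.fourier φ : 𝓢(ℝ, ℂ)) x • G x := by
      rw [Lp.toTemperedDistribution_apply]
      apply integral_congr_ae
      filter_upwards [h2.coeFn_toLp] with x hx
      rw [hx]
    have e4 : ∫ x, (FourierTransform.fourier φ : 𝓢(ℝ, ℂ)) x • G x
        = ∫ x, φ x • (FourierTransform.fourier G : ℝ → ℂ) x := by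
      have h := VectorFourier.integral_fourierIntegral_smul_eq_flip (L := innerₗ ℝ)
        (μ := volume) (ν := volume) (f := (φ : ℝ → ℂ)) (g := G)
        Real.continuous_fourierChar continuous_inner φ.integrable h1
      simpa using! h
    rw [e1, e2, e3, e4]
    rfl

private theorem planch_sq (f : Lp (α := ℝ) ℂ 2) : ‖f‖ ^ 2 = ∫ u, ‖f u‖ ^ 2 := by
  have h : (RCLike.re (inner ℂ f f) : ℝ) = ‖f‖ ^ 2 := by
    rw [inner_self_eq_norm_sq]
  rw [← h, L2.inner_def]
  have h2 : ∫ a, (inner ℂ (f a) (f a) : ℂ) = ((∫ u, ‖f u‖ ^ 2 : ℝ) : ℂ) := by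
    rw [← integral_complex_ofReal]
    apply integral_congr_ae
    filter_upwards with u
    rw [inner_self_eq_norm_sq_to_K]
    push_cast
    rfl
  rw [h2]
  exact Complex.ofReal_re _

theorem planch (G : ℝ → ℂ) (h1 : Integrable G) (h2 : MemLp G 2) :
    Integrable (fun ξ : ℝ => ‖∫ u, G u * ee (-(u * ξ))‖ ^ 2) ∧
      ∫ ξ : ℝ, ‖∫ u, G u * ee (-(u * ξ))‖ ^ 2 = ∫ u, ‖G u‖ ^ 2 := by
  have hae := planch_ae G h1 h2
  have hmem : MemLp (FourierTransform.fourier G : ℝ → ℂ) 2 :=
    (memLp_congr_ae hae).1 (Lp.memLp _)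
  have hfun : (fun ξ : ℝ => ‖∫ u, G u * ee (-(u * ξ))‖ ^ 2)
      = fun ξ : ℝ => ‖(FourierTransform.fourier G : ℝ → ℂ) ξ‖ ^ 2 := by
    funext ξ
    rw [planch_eq]
  rw [hfun]
  refine ⟨hmem.integrable_norm_pow (by norm_num), ?_⟩
  have e1 : ∫ ξ : ℝ, ‖(FourierTransform.fourier G : ℝ → ℂ) ξ‖ ^ 2
      = ∫ ξ : ℝ, ‖(FourierTransform.fourier (h2.toLp G) : Lp (α := ℝ) ℂ 2) ξ‖ ^ 2 := by
    apply integral_congr_ae
    filter_upwards [hae] with ξ hξ
    rw [hξ]
  have e2 : ∫ u, ‖G u‖ ^ 2 = ∫ u, ‖(h2.toLp G) u‖ ^ 2 := by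
    apply integral_congr_ae
    filter_upwards [h2.coeFn_toLp] with u hu
    rw [hu]
  rw [e1, e2, ← planch_sq, ← planch_sq, Lp.norm_fourier_eq]

end Pool.Agent.H76.EHB
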