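import Pool.Agent.H76.EHB.Basic

/-!
# EHB Expand: opening the square

Let `Z` be the integer `(K+1) (N + |a0| + A + 2 Q) + N` (any large enough box).  On `(a0, a0+A]` the weight
`wt A (a - a0)` is `≥ exp(-π)`.  So the left side is at most
`exp(π) ∑_{|a| ≤ Z} ∑_{|q| ≤ Z} wt A (a - a0) (∑_{k ∈ ks K} ft (a + k q))^2`.
Open the square.  For `k1 ≠ k2`, `r = k2 - k1`, the map `(a, q) ↦ (n1, n2) = (a + k1 q, a + k2 q)` is a bijection of
the pairs in the box with `n1, n2 ∈ [1, N]` onto the pairs `(n1, n2) ∈ [1,N]^2` with `r ∣ n1 - n2`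
(inverse `q = (n2 - n1)/r`, `a = n1 - k1 q`, `|q| ≤ N`, `|a| ≤ N + K N ≤ Z`), and `a = (k2 n1 - k1 n2)/r`.  So the pair
`k1 ≠ k2` gives `Soff f N A a0 k1 k2`.  The pair `k1 = k2 = k` gives
`∑_{n ≤ N} f(n)^2 ∑_{|a| ≤ Z, k ∣ n - a, |(n-a)/k| ≤ Z} wt A (a - a0)`, which is at most the sum over all `|a| ≤ Z` with `k ∣ n - a`
(the weights are nonnegative): this is `DD`.
-/

set_option autoImplicit false

namespace Pool.Agent.H76.EHB

open Finset MeasureTheory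

/-- diagonal term with box `[-Z, Z]` -/
noncomputable def DD (f : ℕ → ℝ) (N : ℕ) (A : ℝ) (a0 : ℤ) (Z : ℕ) (k : ℤ) : ℝ :=
  ∑ n ∈ Icc 1 N, f n ^ 2 * ∑ a ∈ (Icc (-(Z : ℤ)) Z).filter (fun a => k ∣ (n : ℤ) - a), wt A ((a : ℝ) - a0)

private lemma exp_ft_nat (f : ℕ → ℝ) (N : ℕ) (n : ℕ) (hn : n ∈ Icc 1 N) : ft f N (n : ℤ) = f n := by
  unfold ft
  rw [Finset.mem_Icc] at hn
  rw [if_pos (by omega), Int.toNat_natCast]

private lemma exp_off (f : ℕ → ℝ) (N K Z : ℕ) (A : ℝ) (a0 k1 k2 : ℤ) (h1 : |k1| ≤ K)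
    (hne : k1 ≠ k2) (hZ : N + K * N ≤ Z) :
    ∑ p ∈ Icc (-(Z : ℤ)) Z ×ˢ Icc (-(Z : ℤ)) Z,
      wt A ((p.2 : ℝ) - a0) * (ft f N (p.2 + k1 * p.1) * ft f N (p.2 + k2 * p.1))
      = Soff f N A a0 k1 k2 := by
  classical
  have hr : k2 - k1 ≠ 0 := sub_ne_zero.2 (Ne.symm hne)
  have hR : ((k2 - k1 : ℤ) : ℝ) ≠ 0 := by exact_mod_cast hr
  unfold Soff
  rw [← Finset.sum_product', ← Finset.sum_filter]
  rw [← Finset.sum_filter_add_sum_filter_not (Icc (-(Z : ℤ)) Z ×ˢ Icc (-(Z : ℤ)) Z)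
    (fun p => (1 ≤ p.2 + k1 * p.1 ∧ p.2 + k1 * p.1 ≤ N) ∧ (1 ≤ p.2 + k2 * p.1 ∧ p.2 + k2 * p.1 ≤ N))]
  have hz : ∑ p ∈ (Icc (-(Z : ℤ)) Z ×ˢ Icc (-(Z : ℤ)) Z).filter
      (fun p => ¬ ((1 ≤ p.2 + k1 * p.1 ∧ p.2 + k1 * p.1 ≤ N) ∧ (1 ≤ p.2 + k2 * p.1 ∧ p.2 + k2 * p.1 ≤ N))),
      wt A ((p.2 : ℝ) - a0) * (ft f N (p.2 + k1 * p.1) * ft f N (p.2 + k2 * p.1)) = 0 := by
    apply Finset.sum_eq_zero
    intro p hp
    have hp' := (Finset.mem_filter.1 hp).2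
    rw [not_and_or] at hp'
    rcases hp' with h | h
    · have : ft f N (p.2 + k1 * p.1) = 0 := by unfold ft; rw [if_neg h]
      rw [this]; ring
    · have : ft f N (p.2 + k2 * p.1) = 0 := by unfold ft; rw [if_neg h]
      rw [this]; ring
  rw [hz, add_zero]
  refine Finset.sum_bij' (fun p _ => ((p.2 + k1 * p.1).toNat, (p.2 + k2 * p.1).toNat))
    (fun n _ => (((n.2 : ℤ) - n.1) / (k2 - k1), (n.1 : ℤ) - k1 * (((n.2 : ℤ) - n.1) / (k2 - k1)))) ?_ ?_ ?_ ?_ ?_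
  · intro p hp
    have hp' := (Finset.mem_filter.1 hp).2
    obtain ⟨⟨b1, b2⟩, c1, c2⟩ := hp'
    rw [Finset.mem_filter, Finset.mem_product, Finset.mem_Icc, Finset.mem_Icc]
    refine ⟨⟨⟨by omega, by omega⟩, by omega, by omega⟩, ?_⟩
    have e1 : ((p.2 + k1 * p.1).toNat : ℤ) = p.2 + k1 * p.1 := Int.toNat_of_nonneg (by omega)
    have e2 : ((p.2 + k2 * p.1).toNat : ℤ) = p.2 + k2 * p.1 := Int.toNat_of_nonneg (by omega)
    simp only [e1, e2]
    exact ⟨-p.1, by ring⟩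
  · intro n hn
    rw [Finset.mem_filter, Finset.mem_product, Finset.mem_Icc, Finset.mem_Icc] at hn
    obtain ⟨⟨⟨b1, b2⟩, c1, c2⟩, hd⟩ := hn
    obtain ⟨m, hm⟩ := hd
    have hq : ((n.2 : ℤ) - n.1) / (k2 - k1) = -m := by
      have : (n.2 : ℤ) - n.1 = (k2 - k1) * (-m) := by linarith
      rw [this, Int.mul_ediv_cancel_left _ hr]
    rw [Finset.mem_filter, Finset.mem_product, Finset.mem_Icc, Finset.mem_Icc]
    simp only [hq]
    have hmN : |m| ≤ N := by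
      have h2 : |(n.1 : ℤ) - n.2| ≤ N := by rw [abs_le]; constructor <;> omega
      rw [hm, abs_mul] at h2
      have h3 : 1 ≤ |k2 - k1| := Int.one_le_abs hr
      nlinarith [abs_nonneg m]
    have hkm : |k1 * (-m)| ≤ K * N := by
      rw [abs_mul, abs_neg]
      exact mul_le_mul h1 hmN (abs_nonneg _) (by positivity)
    rw [abs_le] at hmN hkm
    have hZ' : (N : ℤ) + K * N ≤ Z := by exact_mod_cast hZ
    have hKN : (0 : ℤ) ≤ K * N := by positivity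
    have e1 : (n.1 : ℤ) - k1 * -m + k1 * -m = n.1 := by ring
    have e2 : (n.1 : ℤ) - k1 * -m + k2 * -m = n.2 := by linarith
    rw [e1, e2]
    refine ⟨⟨⟨by omega, by omega⟩, by omega, by omega⟩, ⟨by omega, by omega⟩, by omega, by omega⟩
  · intro p hp
    have hp' := (Finset.mem_filter.1 hp).2
    obtain ⟨⟨b1, b2⟩, c1, c2⟩ := hp'
    have e1 : ((p.2 + k1 * p.1).toNat : ℤ) = p.2 + k1 * p.1 := Int.toNat_of_nonneg (by omega)
    have e2 : ((p.2 + k2 * p.1).toNat : ℤ) = p.2 + k2 * p.1 := Int.toNat_of_nonneg (by omega)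
    simp only [e1, e2]
    have e3 : p.2 + k2 * p.1 - (p.2 + k1 * p.1) = (k2 - k1) * p.1 := by ring
    rw [e3, Int.mul_ediv_cancel_left _ hr]
    exact Prod.ext rfl (by simp only; ring)
  · intro n hn
    rw [Finset.mem_filter, Finset.mem_product, Finset.mem_Icc, Finset.mem_Icc] at hn
    obtain ⟨⟨⟨b1, b2⟩, c1, c2⟩, hd⟩ := hn
    obtain ⟨m, hm⟩ := hd
    have hq : ((n.2 : ℤ) - n.1) / (k2 - k1) = -m := by
      have : (n.2 : ℤ) - n.1 = (k2 - k1) * (-m) := by linarith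
      rw [this, Int.mul_ediv_cancel_left _ hr]
    simp only [hq]
    have e1 : (n.1 : ℤ) - k1 * -m + k1 * -m = n.1 := by ring
    have e2 : (n.1 : ℤ) - k1 * -m + k2 * -m = n.2 := by linarith
    rw [e1, e2, Int.toNat_natCast, Int.toNat_natCast]
  · intro p hp
    have hp' := (Finset.mem_filter.1 hp).2
    obtain ⟨⟨b1, b2⟩, c1, c2⟩ := hp'
    have e1 : ((p.2 + k1 * p.1).toNat : ℤ) = p.2 + k1 * p.1 := Int.toNat_of_nonneg (by omega)
    have e2 : ((p.2 + k2 * p.1).toNat : ℤ) = p.2 + k2 * p.1 := Int.toNat_of_nonneg (by omega)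
    simp only [e1, e2]
    have hft1 : ft f N (p.2 + k1 * p.1) = f (p.2 + k1 * p.1).toNat := by
      unfold ft; rw [if_pos ⟨b1, b2⟩]
    have hft2 : ft f N (p.2 + k2 * p.1) = f (p.2 + k2 * p.1).toNat := by
      unfold ft; rw [if_pos ⟨c1, c2⟩]
    rw [hft1, hft2]
    have e4 : k2 * (p.2 + k1 * p.1) - k1 * (p.2 + k2 * p.1) = p.2 * (k2 - k1) := by ring
    rw [e4, Int.cast_mul, mul_div_assoc, div_self hR, mul_one]
    ring

private lemma exp_diag (f : ℕ → ℝ) (N Z : ℕ) (A : ℝ) (a0 k : ℤ) (hk : k ≠ 0) :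
    ∑ p ∈ Icc (-(Z : ℤ)) Z ×ˢ Icc (-(Z : ℤ)) Z,
      wt A ((p.2 : ℝ) - a0) * (ft f N (p.2 + k * p.1) * ft f N (p.2 + k * p.1))
      ≤ DD f N A a0 Z k := by
  classical
  rw [← Finset.sum_filter_add_sum_filter_not (Icc (-(Z : ℤ)) Z ×ˢ Icc (-(Z : ℤ)) Z)
    (fun p => 1 ≤ p.2 + k * p.1 ∧ p.2 + k * p.1 ≤ N)]
  have hz : ∑ p ∈ (Icc (-(Z : ℤ)) Z ×ˢ Icc (-(Z : ℤ)) Z).filter
      (fun p => ¬ (1 ≤ p.2 + k * p.1 ∧ p.2 + k * p.1 ≤ N)),
      wt A ((p.2 : ℝ) - a0) * (ft f N (p.2 + k * p.1) * ft f N (p.2 + k * p.1)) = 0 := by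
    apply Finset.sum_eq_zero
    intro p hp
    have hp' := (Finset.mem_filter.1 hp).2
    have : ft f N (p.2 + k * p.1) = 0 := by unfold ft; rw [if_neg hp']
    rw [this]; ring
  rw [hz, add_zero]
  unfold DD
  have h1 : ∑ n ∈ Icc 1 N, f n ^ 2 * ∑ a ∈ (Icc (-(Z : ℤ)) Z).filter (fun a => k ∣ (n : ℤ) - a), wt A ((a : ℝ) - a0)
      = ∑ u ∈ (Icc 1 N ×ˢ Icc (-(Z : ℤ)) Z).filter (fun u => k ∣ (u.1 : ℤ) - u.2),
          f u.1 ^ 2 * wt A ((u.2 : ℝ) - a0) := by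
    rw [Finset.sum_filter, Finset.sum_product]
    refine Finset.sum_congr rfl fun n _ => ?_
    rw [Finset.mul_sum, Finset.sum_filter]
  rw [h1]
  set S := (Icc (-(Z : ℤ)) Z ×ˢ Icc (-(Z : ℤ)) Z).filter
      (fun p => 1 ≤ p.2 + k * p.1 ∧ p.2 + k * p.1 ≤ N) with hS
  set g : ℤ × ℤ → ℕ × ℤ := fun p => ((p.2 + k * p.1).toNat, p.2) with hg
  have hinj : Set.InjOn g S := by
    intro p hp p' hp' hpp
    have b := (Finset.mem_filter.1 hp).2
    have b' := (Finset.mem_filter.1 hp').2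
    simp only [hg, Prod.mk.injEq] at hpp
    obtain ⟨e1, e2⟩ := hpp
    have e3 : p.2 + k * p.1 = p'.2 + k * p'.1 := by omega
    rw [e2] at e3
    have e4 : k * p.1 = k * p'.1 := by linarith
    exact Prod.ext (mul_left_cancel₀ hk e4) e2
  have h2 : ∑ p ∈ S, wt A ((p.2 : ℝ) - a0) * (ft f N (p.2 + k * p.1) * ft f N (p.2 + k * p.1))
      = ∑ u ∈ S.image g, f u.1 ^ 2 * wt A ((u.2 : ℝ) - a0) := by
    rw [Finset.sum_image hinj]
    refine Finset.sum_congr rfl fun p hp => ?_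
    have b := (Finset.mem_filter.1 hp).2
    have hft : ft f N (p.2 + k * p.1) = f (p.2 + k * p.1).toNat := by
      unfold ft; rw [if_pos b]
    rw [hft]
    simp only [hg]
    ring
  rw [h2]
  refine Finset.sum_le_sum_of_subset_of_nonneg ?_ fun u _ _ => ?_
  · intro u hu
    rw [Finset.mem_image] at hu
    obtain ⟨p, hp, rfl⟩ := hu
    rw [hS, Finset.mem_filter, Finset.mem_product] at hp
    obtain ⟨⟨p1, p2⟩, b1, b2⟩ := hp
    rw [Finset.mem_filter, Finset.mem_product, Finset.mem_Icc]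
    simp only [hg]
    refine ⟨⟨⟨by omega, by omega⟩, p2⟩, ?_⟩
    rw [Int.toNat_of_nonneg (by omega)]
    exact ⟨p.1, by ring⟩
  · exact mul_nonneg (sq_nonneg _) (Real.exp_pos _).le

theorem expand (f : ℕ → ℝ) (N K A Q : ℕ) (a0 : ℤ) (hA : 1 ≤ A) :
    ∃ Z : ℕ, ∑ q ∈ Ioc Q (2 * Q), ∑ a ∈ Ioc a0 (a0 + A), (∑ k ∈ ks K, ft f N (a + k * q)) ^ 2
      ≤ Real.exp Real.pi * (∑ k ∈ ks K, DD f N A a0 Z k
          + ∑ k1 ∈ ks K, ∑ k2 ∈ (ks K).erase k1, Soff f N A a0 k1 k2) := by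
  classical
  set Z : ℕ := N + K * N + a0.natAbs + A + 2 * Q with hZ
  refine ⟨Z, ?_⟩
  set Bx := Icc (-(Z : ℤ)) Z with hBx
  have hA0 : (0 : ℝ) < A := by exact_mod_cast hA
  set T : ℤ → ℤ → ℝ := fun q a => (∑ k ∈ ks K, ft f N (a + k * q)) ^ 2 with hT
  have hT0 : ∀ q a, 0 ≤ T q a := fun q a => sq_nonneg _
  -- step 1
  have s1 : ∑ q ∈ Ioc Q (2 * Q), ∑ a ∈ Ioc a0 (a0 + A), (∑ k ∈ ks K, ft f N (a + k * q)) ^ 2
      ≤ ∑ q ∈ Bx, ∑ a ∈ Bx, Real.exp Real.pi * (wt A ((a : ℝ) - a0) * T q a) := by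
    have s2 : ∑ q ∈ Ioc Q (2 * Q), ∑ a ∈ Ioc a0 (a0 + A), (∑ k ∈ ks K, ft f N (a + k * q)) ^ 2
        = ∑ q ∈ (Ioc Q (2 * Q)).image (fun n : ℕ => (n : ℤ)), ∑ a ∈ Ioc a0 (a0 + A), T q a := by
      rw [Finset.sum_image (fun x _ y _ h => by simpa using h)]
    rw [s2]
    have s3 : ∀ q : ℤ, ∑ a ∈ Ioc a0 (a0 + A), T q a
        ≤ ∑ a ∈ Bx, Real.exp Real.pi * (wt A ((a : ℝ) - a0) * T q a) := by
      intro q
      refine le_trans (Finset.sum_le_sum (g := fun a : ℤ => Real.exp Real.pi * (wt A ((a : ℝ) - a0) * T q a)) ?_)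
        (Finset.sum_le_sum_of_subset_of_nonneg ?_ ?_)
      · intro a ha
        rw [Finset.mem_Ioc] at ha
        have hw : Real.exp (-Real.pi) ≤ wt A ((a : ℝ) - a0) := by
          unfold wt
          apply Real.exp_le_exp.mpr
          have h1 : (0 : ℝ) < (a : ℝ) - a0 := by
            have : (a0 : ℝ) < a := by exact_mod_cast ha.1
            linarith
          have h2 : (a : ℝ) - a0 ≤ A := by
            have : (a : ℝ) ≤ a0 + A := by exact_mod_cast ha.2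
            linarith
          have h3 : ((a : ℝ) - a0) / A ≤ 1 := by rw [div_le_one hA0]; exact h2
          have h4 : 0 ≤ ((a : ℝ) - a0) / A := div_nonneg h1.le hA0.le
          have h5 : (((a : ℝ) - a0) / A) ^ 2 ≤ 1 := by nlinarith
          nlinarith [Real.pi_pos]
        have h6 : 1 ≤ Real.exp Real.pi * wt A ((a : ℝ) - a0) := by
          have := mul_le_mul_of_nonneg_left hw (Real.exp_pos Real.pi).le
          rwa [← Real.exp_add, add_neg_cancel, Real.exp_zero] at this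
        calc T q a = 1 * T q a := (one_mul _).symm
          _ ≤ (Real.exp Real.pi * wt A ((a : ℝ) - a0)) * T q a :=
              mul_le_mul_of_nonneg_right h6 (hT0 q a)
          _ = _ := by ring
      · intro a ha
        rw [Finset.mem_Ioc] at ha
        rw [hBx, Finset.mem_Icc]
        omega
      · intro a _ _
        exact mul_nonneg (Real.exp_pos _).le (mul_nonneg (Real.exp_pos _).le (hT0 q a))
    refine (Finset.sum_le_sum fun q _ => s3 q).trans ?_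
    refine Finset.sum_le_sum_of_subset_of_nonneg ?_ ?_
    · intro q hq
      rw [Finset.mem_image] at hq
      obtain ⟨n, hn, rfl⟩ := hq
      rw [Finset.mem_Ioc] at hn
      rw [hBx, Finset.mem_Icc]
      omega
    · intro q _ _
      exact Finset.sum_nonneg fun a _ => mul_nonneg (Real.exp_pos _).le (mul_nonneg (Real.exp_pos _).le (hT0 q a))
  refine s1.trans ?_
  have s4 : ∑ q ∈ Bx, ∑ a ∈ Bx, Real.exp Real.pi * (wt A ((a : ℝ) - a0) * T q a)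
      = Real.exp Real.pi * ∑ k1 ∈ ks K, ∑ k2 ∈ ks K, ∑ p ∈ Bx ×ˢ Bx,
          wt A ((p.2 : ℝ) - a0) * (ft f N (p.2 + k1 * p.1) * ft f N (p.2 + k2 * p.1)) := by
    rw [← Finset.sum_product' (f := fun q a : ℤ => Real.exp Real.pi * (wt A ((a : ℝ) - a0) * T q a)),
      ← Finset.mul_sum]
    congr 1
    have s5 : ∀ p : ℤ × ℤ, wt A ((p.2 : ℝ) - a0) * T p.1 p.2
        = ∑ k1 ∈ ks K, ∑ k2 ∈ ks K,
          wt A ((p.2 : ℝ) - a0) * (ft f N (p.2 + k1 * p.1) * ft f N (p.2 + k2 * p.1)) := by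
      intro p
      simp only [hT]
      rw [sq, Finset.sum_mul_sum, Finset.mul_sum]
      refine Finset.sum_congr rfl fun k1 _ => ?_
      rw [Finset.mul_sum]
    rw [Finset.sum_congr rfl fun p _ => s5 p, Finset.sum_comm]
    refine Finset.sum_congr rfl fun k1 _ => ?_
    rw [Finset.sum_comm]
  rw [s4]
  refine mul_le_mul_of_nonneg_left ?_ (Real.exp_pos _).le
  have s6 : ∀ k1 ∈ ks K, ∑ k2 ∈ ks K, ∑ p ∈ Bx ×ˢ Bx,
          wt A ((p.2 : ℝ) - a0) * (ft f N (p.2 + k1 * p.1) * ft f N (p.2 + k2 * p.1))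
      ≤ DD f N A a0 Z k1 + ∑ k2 ∈ (ks K).erase k1, Soff f N A a0 k1 k2 := by
    intro k1 hk1
    rw [← Finset.add_sum_erase _ _ hk1]
    rw [mem_ks] at hk1
    refine add_le_add (exp_diag f N Z A a0 k1 hk1.1) (le_of_eq ?_)
    refine Finset.sum_congr rfl fun k2 hk2 => ?_
    exact exp_off f N K Z A a0 k1 k2 hk1.2 (Ne.symm (Finset.ne_of_mem_erase hk2)) (by omega)
  refine (Finset.sum_le_sum s6).trans ?_
  rw [Finset.sum_add_distrib]

end Pool.Agent.H76.EHB
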