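import Pool.Agent.H76.EHB.Jred

/-!
# EHB MelT: the Mellin transform for large `t`

On `(0, Θ]`, `Θ ≤ 1`, `g(θ) = p(θ) = FF(α+sθ) e(-a s θ)` with `|p| ≤ F1 = ∑|f|`, `|p'| ≤ 2π (N + |a|) F1`.  Integrate by parts
`∫_0^Θ p θ^{-1/2-it} = [p θ^{1/2-it}/(1/2-it)]_0^Θ - ∫ p' θ^{1/2-it}/(1/2-it)`, `|1/2 - it| ≥ |t|`.
(If `Θ ≤ 0` everything is 0.)
-/

set_option autoImplicit false

namespace Pool.Agent.H76.EHB

open Finset MeasureTheory
open Pool.Agent.H91.PK (ee)

/-- one frequency: integrability and the bound, by one integration by parts -/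
private theorem melT_term (β Θ t : ℝ) (h0 : 0 ≤ Θ) (h1 : Θ ≤ 1) (ht : t ≠ 0) :
    IntervalIntegrable (fun θ : ℝ => ee (β * θ) * (θ : ℂ) ^ (-(1 / 2 : ℂ) - t * Complex.I))
      volume 0 Θ ∧
    ‖∫ θ in (0 : ℝ)..Θ, ee (β * θ) * (θ : ℂ) ^ (-(1 / 2 : ℂ) - t * Complex.I)‖
      ≤ (1 + 2 * Real.pi * |β|) / |t| := by
  set r : ℂ := -(1 / 2 : ℂ) - t * Complex.I with hr
  have hre : r.re = -(1 / 2) := by
    rw [hr]
    simp
  have hre1 : (r + 1).re = 1 / 2 := by
    rw [Complex.add_re, hre]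
    norm_num
  have him1 : (r + 1).im = -t := by
    rw [hr]
    simp
  have hr1 : r ≠ -1 := by
    intro h
    rw [h] at hre
    norm_num at hre
  have hr2 : r + 1 ≠ 0 := by
    intro h
    rw [h] at hre1
    norm_num at hre1
  have hnr : |t| ≤ ‖r + 1‖ := by
    have := Complex.abs_im_le_norm (r + 1)
    rwa [him1, abs_neg] at this
  have ht0 : 0 < |t| := abs_pos.2 ht
  have hcont : Continuous (fun θ : ℝ => ee (β * θ)) :=
    continuous_iff_continuousAt.2 fun θ => (Pool.Agent.H91.PK.LSa_hasDeriv β θ).continuousAt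
  have hint : IntervalIntegrable (fun θ : ℝ => (θ : ℂ) ^ r) volume 0 Θ := by
    apply intervalIntegral.intervalIntegrable_cpow'
    rw [hre]
    norm_num
  have hvc : Continuous (fun θ : ℝ => (θ : ℂ) ^ (r + 1) / (r + 1)) :=
    (Complex.continuous_ofReal_cpow_const (by rw [hre1]; norm_num)).div_const _
  have hv : ∀ θ : ℝ, 0 ≤ θ → θ ≤ 1 → ‖(θ : ℂ) ^ (r + 1) / (r + 1)‖ ≤ 1 / |t| := by
    intro θ hθ0 hθ1
    rw [norm_div]
    have h2 : ‖(θ : ℂ) ^ (r + 1)‖ ≤ 1 := by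
      rcases hθ0.eq_or_lt with h | h
      · rw [← h, Complex.ofReal_zero, Complex.zero_cpow hr2, norm_zero]
        norm_num
      · rw [Complex.norm_cpow_eq_rpow_re_of_pos h, hre1]
        exact Real.rpow_le_one hθ0 hθ1 (by norm_num)
    gcongr
  refine ⟨hint.continuousOn_mul hcont.continuousOn, ?_⟩
  have hibp := intervalIntegral.integral_mul_deriv_eq_deriv_mul_of_hasDerivAt
    (a := 0) (b := Θ) (u := fun θ : ℝ => ee (β * θ))
    (u' := fun θ : ℝ => (2 * Real.pi * β * Complex.I) * ee (β * θ))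
    (v := fun θ : ℝ => (θ : ℂ) ^ (r + 1) / (r + 1)) (v' := fun θ : ℝ => (θ : ℂ) ^ r)
    hcont.continuousOn hvc.continuousOn
    (fun x _ => Pool.Agent.H91.PK.LSa_hasDeriv β x)
    (fun x hx => by
      rw [min_eq_left h0] at hx
      exact hasDerivAt_ofReal_cpow_const' hx.1.ne' hr1)
    (Continuous.intervalIntegrable (by fun_prop) 0 Θ) hint
  rw [hibp]
  have hz : ee (β * 0) * (((0 : ℝ) : ℂ) ^ (r + 1) / (r + 1)) = 0 := by
    rw [Complex.ofReal_zero, Complex.zero_cpow hr2, zero_div, mul_zero]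
  rw [hz, sub_zero]
  have hb1 : ‖ee (β * Θ) * ((Θ : ℂ) ^ (r + 1) / (r + 1))‖ ≤ 1 / |t| := by
    rw [norm_mul, Pool.Agent.H91.PK.LSa_norm_ee, one_mul]
    exact hv Θ h0 h1
  have hb2 : ‖∫ θ in (0 : ℝ)..Θ, (2 * Real.pi * β * Complex.I) * ee (β * θ) *
      ((θ : ℂ) ^ (r + 1) / (r + 1))‖ ≤ (2 * Real.pi * |β| * (1 / |t|)) * |Θ - 0| := by
    apply intervalIntegral.norm_integral_le_of_norm_le_const
    intro θ hθ
    rw [Set.uIoc_of_le h0] at hθ
    have hn : ‖(2 * Real.pi * β * Complex.I : ℂ)‖ = 2 * Real.pi * |β| := by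
      rw [norm_mul, Complex.norm_I, mul_one, norm_mul, norm_mul, Complex.norm_real,
        Complex.norm_real, Real.norm_eq_abs, Real.norm_eq_abs, abs_of_pos Real.pi_pos]
      norm_num
    rw [norm_mul, norm_mul, hn, Pool.Agent.H91.PK.LSa_norm_ee, mul_one]
    have := hv θ hθ.1.le (hθ.2.trans h1)
    have hpi := Real.pi_pos
    gcongr
  calc ‖ee (β * Θ) * ((Θ : ℂ) ^ (r + 1) / (r + 1)) -
        ∫ θ in (0 : ℝ)..Θ, (2 * Real.pi * β * Complex.I) * ee (β * θ) *
          ((θ : ℂ) ^ (r + 1) / (r + 1))‖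
      ≤ 1 / |t| + (2 * Real.pi * |β| * (1 / |t|)) * |Θ - 0| :=
        (norm_sub_le _ _).trans (add_le_add hb1 hb2)
    _ ≤ 1 / |t| + (2 * Real.pi * |β| * (1 / |t|)) * 1 := by
        have hpi := Real.pi_pos
        have : |Θ - 0| ≤ 1 := by
          rw [sub_zero, abs_of_nonneg h0]
          exact h1
        gcongr
    _ = (1 + 2 * Real.pi * |β|) / |t| := by ring

theorem mel_tail (f : ℕ → ℝ) (N : ℕ) (α a Θ s t : ℝ) (hs : s = 1 ∨ s = -1) (hΘ : Θ ≤ 1) (ht : t ≠ 0) :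
    ‖Mel (gg f N α a Θ s) t‖ ≤ 7 * (N + |a| + 1) * (∑ n ∈ Icc 1 N, |f n|) / |t| := by
  have ht0 : 0 < |t| := abs_pos.2 ht
  have hF : 0 ≤ ∑ n ∈ Icc 1 N, |f n| := Finset.sum_nonneg fun _ _ => abs_nonneg _
  rcases lt_or_ge Θ 0 with h0 | h0
  · have hg : gg f N α a Θ s = fun _ => 0 := by
      funext θ
      unfold gg
      rw [if_neg]
      rintro ⟨h2, h3⟩
      linarith
    rw [hg]
    unfold Mel mellin
    simp only [smul_zero, integral_zero, norm_zero]
    positivity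
  · have hkey : Mel (gg f N α a Θ s) t = ∑ n ∈ Icc 1 N, ((f n : ℂ) * ee (n * α)) *
        ∫ θ in (0 : ℝ)..Θ, ee ((s * ((n : ℝ) - a)) * θ) * (θ : ℂ) ^ (-(1 / 2 : ℂ) - t * Complex.I) := by
      unfold Mel mellin
      have hexp : ((1 / 2 : ℂ) - t * Complex.I - 1) = -(1 / 2 : ℂ) - t * Complex.I := by ring
      rw [hexp]
      have hE : ∫ θ in Set.Ioi (0 : ℝ), (θ : ℂ) ^ (-(1 / 2 : ℂ) - t * Complex.I) • gg f N α a Θ s θ
          = ∫ θ in Set.Ioc (0 : ℝ) Θ,
            (θ : ℂ) ^ (-(1 / 2 : ℂ) - t * Complex.I) • gg f N α a Θ s θ := by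
        have hsub : Set.Ioc (0 : ℝ) Θ ⊆ Set.Ioi 0 := fun θ hθ => hθ.1
        apply MeasureTheory.setIntegral_eq_of_subset_of_forall_sdiff_eq_zero measurableSet_Ioi hsub
        intro θ hθ
        have : ¬ (0 < θ ∧ θ ≤ Θ) := fun h => hθ.2 ⟨h.1, h.2⟩
        unfold gg
        rw [if_neg this, smul_zero]
      rw [hE, ← intervalIntegral.integral_of_le h0]
      simp only [← intervalIntegral.integral_const_mul]
      rw [← intervalIntegral.integral_finsetSum]
      · apply intervalIntegral.integral_congr_ae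
        refine Filter.Eventually.of_forall fun θ hθ => ?_
        rw [Set.uIoc_of_le h0] at hθ
        unfold gg FF
        rw [if_pos ⟨hθ.1, hθ.2⟩, smul_eq_mul, Finset.sum_mul, Finset.mul_sum]
        refine Finset.sum_congr rfl fun n _ => ?_
        have h2 : ee ((n : ℝ) * (α + s * θ)) * ee (-(a * s * θ)) =
            ee (n * α) * ee ((s * ((n : ℝ) - a)) * θ) := by
          rw [← Pool.Agent.H91.PK.LSa_ee_add, ← Pool.Agent.H91.PK.LSa_ee_add]
          congr 1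
          ring
        calc (θ : ℂ) ^ (-(1 / 2 : ℂ) - t * Complex.I) *
              ((f n : ℂ) * ee ((n : ℝ) * (α + s * θ)) * ee (-(a * s * θ)))
            = (θ : ℂ) ^ (-(1 / 2 : ℂ) - t * Complex.I) * (f n : ℂ) *
              (ee ((n : ℝ) * (α + s * θ)) * ee (-(a * s * θ))) := by ring
          _ = _ := by rw [h2]; ring
      · intro n _
        exact (melT_term (s * ((n : ℝ) - a)) Θ t h0 hΘ ht).1.const_mul _
    rw [hkey]
    have habs : |s| = 1 := by
      rcases hs with h | h <;> rw [h] <;> norm_num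
    calc ‖∑ n ∈ Icc 1 N, ((f n : ℂ) * ee (n * α)) *
        ∫ θ in (0 : ℝ)..Θ, ee ((s * ((n : ℝ) - a)) * θ) *
          (θ : ℂ) ^ (-(1 / 2 : ℂ) - t * Complex.I)‖
        ≤ ∑ n ∈ Icc 1 N, |f n| * (7 * (N + |a| + 1) / |t|) := by
          refine (norm_sum_le _ _).trans (Finset.sum_le_sum fun n hn => ?_)
          rw [norm_mul, norm_mul, Pool.Agent.H91.PK.LSa_norm_ee, mul_one, Complex.norm_real,
            Real.norm_eq_abs]
          gcongr
          refine (melT_term (s * ((n : ℝ) - a)) Θ t h0 hΘ ht).2.trans ?_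
          have hn2 : (n : ℝ) ≤ N := by exact_mod_cast (mem_Icc.1 hn).2
          have hb : |s * ((n : ℝ) - a)| ≤ N + |a| := by
            rw [abs_mul, habs, one_mul]
            refine (abs_sub _ _).trans ?_
            rw [Nat.abs_cast]
            linarith
          have hpi : Real.pi ≤ 3.15 := Real.pi_lt_d2.le
          have hpi0 := Real.pi_pos
          have hna : (0 : ℝ) ≤ N + |a| := by positivity
          gcongr
          calc 1 + 2 * Real.pi * |s * ((n : ℝ) - a)| ≤ 1 + 2 * 3.15 * (N + |a|) := by gcongr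
            _ ≤ 7 * (N + |a| + 1) := by linarith
      _ = 7 * (N + |a| + 1) * (∑ n ∈ Icc 1 N, |f n|) / |t| := by
          rw [← Finset.sum_mul]
          ring

end Pool.Agent.H76.EHB
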