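import Pool.Agent.H76.EHB.MelB
import Pool.Agent.H76.EHB.MelT

/-!
# EHB JB: the bound for `II`

`int_sum_sq`; `‖ZZ S t‖ ≤ ∑_{k ≤ K} k^{-1/2} ≤ 2 √K` for `S ⊆ Icc 1 K`.  Split the `t`-integral of `‖ZZ‖²‖Mel‖²` into `|t| ≤ T0`
(`≤ 4K * 2 T0 * MB²`), `T0 < |t| ≤ T1` (`≤ ZB * ∫‖Mel‖² ≤ ZB * 2π S2`, `mel_planch`, `gg_L2`), `|t| > T1`
(`≤ 4K * 2 * (7 (N+|a|+1) F1)²/T1`, `mel_tail`, `∫_{T1}^∞ dt/t² = 1/T1`).  Divide by `2π`.
-/

set_option autoImplicit false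

namespace Pool.Agent.H76.EHB

open Finset MeasureTheory
open Pool.Agent.H91.PK (ee)

theorem jb_sum (K : ℕ) : ∑ k ∈ Icc 1 K, 1 / Real.sqrt (k : ℝ) ≤ 2 * Real.sqrt K := by
  induction K with
  | zero => simp
  | succ n ih =>
    rw [Finset.sum_Icc_succ_top (by omega)]
    have h0 : (0 : ℝ) ≤ n := Nat.cast_nonneg n
    have h1 : (0 : ℝ) < ((n + 1 : ℕ) : ℝ) := by positivity
    have hb : 0 < Real.sqrt ((n + 1 : ℕ) : ℝ) := Real.sqrt_pos.2 h1
    have ha : 0 ≤ Real.sqrt (n : ℝ) := Real.sqrt_nonneg _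
    have hb2 : Real.sqrt ((n + 1 : ℕ) : ℝ) ^ 2 = (n : ℝ) + 1 := by
      rw [Real.sq_sqrt h1.le]; push_cast; ring
    have ha2 : Real.sqrt (n : ℝ) ^ 2 = (n : ℝ) := Real.sq_sqrt h0
    have key : 1 / Real.sqrt ((n + 1 : ℕ) : ℝ)
        ≤ 2 * Real.sqrt ((n + 1 : ℕ) : ℝ) - 2 * Real.sqrt (n : ℝ) := by
      rw [div_le_iff₀ hb]
      nlinarith [sq_nonneg (Real.sqrt ((n + 1 : ℕ) : ℝ) - Real.sqrt (n : ℝ))]
    linarith

theorem jb_norm_term (k : ℕ) (hk : 1 ≤ k) (t : ℝ) :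
    ‖(k : ℂ) ^ (-(1 / 2 : ℂ) + t * Complex.I)‖ = 1 / Real.sqrt (k : ℝ) := by
  rw [Complex.norm_natCast_cpow_of_pos (by omega)]
  have h : (-(1 / 2 : ℂ) + t * Complex.I).re = -(1 / 2 : ℝ) := by
    simp
  rw [h, Real.rpow_neg (Nat.cast_nonneg k), ← Real.sqrt_eq_rpow, one_div]

theorem norm_ZZ_sq_le (K : ℕ) (S : Finset ℕ) (hS : S ⊆ Icc 1 K) (t : ℝ) : ‖ZZ S t‖ ^ 2 ≤ 4 * K := by
  have h1 : ‖ZZ S t‖ ≤ 2 * Real.sqrt K := by
    unfold ZZ
    refine (norm_sum_le _ _).trans ?_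
    have h2 : ∑ k ∈ S, ‖(k : ℂ) ^ (-(1 / 2 : ℂ) + t * Complex.I)‖
        = ∑ k ∈ S, 1 / Real.sqrt (k : ℝ) :=
      Finset.sum_congr rfl fun k hk => jb_norm_term k (Finset.mem_Icc.1 (hS hk)).1 t
    rw [h2]
    refine (Finset.sum_le_sum_of_subset_of_nonneg hS ?_).trans (jb_sum K)
    intro i _ _
    positivity
  have h3 : (2 * Real.sqrt K) ^ 2 = 4 * (K : ℝ) := by
    rw [mul_pow, Real.sq_sqrt (Nat.cast_nonneg K)]; norm_num
  rw [← h3]
  exact pow_le_pow_left₀ (norm_nonneg _) h1 2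

/-- the tail function -/
noncomputable def jbh (T1 C t : ℝ) : ℝ := (Set.Ioi T1).indicator (fun t => C * t ^ (-2 : ℝ)) t

theorem jbh_nonneg (T1 C t : ℝ) (hT1 : 1 ≤ T1) (hC : 0 ≤ C) : 0 ≤ jbh T1 C t := by
  unfold jbh
  refine Set.indicator_nonneg ?_ t
  intro x hx
  have : 0 < x := by have := Set.mem_Ioi.1 hx; linarith
  positivity

theorem jbh_integrable (T1 C : ℝ) (hT1 : 1 ≤ T1) : Integrable (jbh T1 C) := by
  have h : IntegrableOn (fun t : ℝ => C * t ^ (-2 : ℝ)) (Set.Ioi T1) :=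
    (integrableOn_Ioi_rpow_of_lt (by norm_num) (by linarith)).const_mul C
  have h2 := (integrable_indicator_iff (measurableSet_Ioi (a := T1))).2 h
  exact h2

theorem jbh_integral (T1 C : ℝ) (hT1 : 1 ≤ T1) : ∫ t, jbh T1 C t = C / T1 := by
  unfold jbh
  have h0 : 0 < T1 := by linarith
  rw [integral_indicator measurableSet_Ioi, integral_const_mul,
    integral_Ioi_rpow_of_lt (by norm_num) h0]
  have h1 : T1 ^ ((-2 : ℝ) + 1) = T1⁻¹ := by
    rw [show (-2 : ℝ) + 1 = -1 by norm_num, Real.rpow_neg_one]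
  rw [h1]
  field_simp
  norm_num

theorem jb_box_integrable (T0 C : ℝ) :
    Integrable ((Set.Icc (-T0) T0).indicator (fun _ : ℝ => C)) := by
  rw [integrable_indicator_iff measurableSet_Icc]
  exact integrableOn_const (by simp [Real.volume_Icc])

theorem jb_box_integral (T0 C : ℝ) (hT0 : 0 ≤ T0) :
    ∫ t, (Set.Icc (-T0) T0).indicator (fun _ : ℝ => C) t = 2 * T0 * C := by
  rw [integral_indicator measurableSet_Icc, setIntegral_const]
  rw [Measure.real, Real.volume_Icc, ENNReal.toReal_ofReal (by linarith), smul_eq_mul]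
  ring

theorem II_le (f : ℕ → ℝ) (N K : ℕ) (α a Θ s T0 T1 MB ZB : ℝ) (S : Finset ℕ) (hS : S ⊆ Icc 1 K)
    (hs : s = 1 ∨ s = -1) (hΘ : Θ ≤ 1) (hT0 : 0 ≤ T0) (hT1 : 1 ≤ T1) (hMB : 0 ≤ MB) (hZB : 0 ≤ ZB)
    (hM : ∀ t, |t| ≤ T0 → ‖Mel (gg f N α a Θ s) t‖ ≤ MB)
    (hZ : ∀ t, T0 ≤ |t| → |t| ≤ T1 → ‖ZZ S t‖ ^ 2 ≤ ZB) :
    II S (gg f N α a Θ s)
      ≤ 2 * K * T0 * MB ^ 2 + ZB * S2 f N
        + 100 * K * ((N + |a| + 1) * ∑ n ∈ Icc 1 N, |f n|) ^ 2 / T1 := by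
  classical
  have hK0 : (0 : ℝ) ≤ K := Nat.cast_nonneg K
  have hS1 : ∀ k ∈ S, 1 ≤ k := fun k hk => (Finset.mem_Icc.1 (hS hk)).1
  have hmeas := gg_measurable f N α a Θ s
  have hbd := norm_gg_le f N α a Θ s
  have hz : ∀ θ, Θ < θ → gg f N α a Θ s θ = 0 := by
    intro θ hθ
    unfold gg
    rw [if_neg]
    rintro ⟨_, h2⟩
    linarith
  obtain ⟨hint, heq⟩ := int_sum_sq S hS1 (gg f N α a Θ s) hmeas _ Θ hbd hz
  obtain ⟨hMint, hMeq⟩ := mel_planch (gg f N α a Θ s) hmeas _ Θ hbd hz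
  have hL2 := gg_L2 f N α a Θ s hΘ hs
  set F1 : ℝ := ∑ n ∈ Icc 1 N, |f n| with hF1
  set W : ℝ := (N + |a| + 1) * F1 with hW
  have hunf : II S (gg f N α a Θ s)
      = 1 / (2 * Real.pi) * ∫ t, ‖ZZ S t‖ ^ 2 * ‖Mel (gg f N α a Θ s) t‖ ^ 2 := heq
  rw [hunf]
  set C : ℝ := 4 * K * (49 * W ^ 2) with hC
  have hC0 : 0 ≤ C := by positivity
  have hT1p : 0 < T1 := by linarith
  -- the majorant
  have hb1 := jb_box_integrable T0 (4 * K * MB ^ 2)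
  have hb2 : Integrable (fun t => ZB * ‖Mel (gg f N α a Θ s) t‖ ^ 2) := hMint.const_mul ZB
  have hb3 := jbh_integrable T1 C hT1
  have hb4 : Integrable (fun t => jbh T1 C (-t)) := hb3.comp_neg
  have hpt : ∀ t, ‖ZZ S t‖ ^ 2 * ‖Mel (gg f N α a Θ s) t‖ ^ 2
      ≤ (((Set.Icc (-T0) T0).indicator (fun _ : ℝ => 4 * K * MB ^ 2) t
          + ZB * ‖Mel (gg f N α a Θ s) t‖ ^ 2) + jbh T1 C t) + jbh T1 C (-t) := by
    intro t
    have hZ4 := norm_ZZ_sq_le K S hS t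
    have hp1 : 0 ≤ (Set.Icc (-T0) T0).indicator (fun _ : ℝ => 4 * (K : ℝ) * MB ^ 2) t :=
      Set.indicator_nonneg (fun _ _ => by positivity) t
    have hp2 : 0 ≤ ZB * ‖Mel (gg f N α a Θ s) t‖ ^ 2 := by positivity
    have hp3 := jbh_nonneg T1 C t hT1 hC0
    have hp4 := jbh_nonneg T1 C (-t) hT1 hC0
    by_cases h1 : |t| ≤ T0
    · have hin : t ∈ Set.Icc (-T0) T0 := Set.mem_Icc.2 (abs_le.1 h1)
      rw [Set.indicator_of_mem hin]
      have hm : ‖Mel (gg f N α a Θ s) t‖ ^ 2 ≤ MB ^ 2 :=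
        pow_le_pow_left₀ (norm_nonneg _) (hM t h1) 2
      have : ‖ZZ S t‖ ^ 2 * ‖Mel (gg f N α a Θ s) t‖ ^ 2 ≤ 4 * K * MB ^ 2 :=
        mul_le_mul hZ4 hm (by positivity) (by positivity)
      linarith
    · by_cases h2 : |t| ≤ T1
      · have hz2 := hZ t (not_le.1 h1).le h2
        have : ‖ZZ S t‖ ^ 2 * ‖Mel (gg f N α a Θ s) t‖ ^ 2
            ≤ ZB * ‖Mel (gg f N α a Θ s) t‖ ^ 2 :=
          mul_le_mul_of_nonneg_right hz2 (by positivity)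
        linarith
      · have h3 : T1 < |t| := not_le.1 h2
        have htp : 0 < |t| := by linarith
        have ht0 : t ≠ 0 := abs_pos.1 htp
        have hml := mel_tail f N α a Θ s t hs hΘ ht0
        have hmm : ‖Mel (gg f N α a Θ s) t‖ ^ 2 ≤ 49 * W ^ 2 / t ^ 2 := by
          have h5 := pow_le_pow_left₀ (norm_nonneg _) hml 2
          refine h5.trans (le_of_eq ?_)
          rw [div_pow, sq_abs, hW]
          ring
        have hmain : ‖ZZ S t‖ ^ 2 * ‖Mel (gg f N α a Θ s) t‖ ^ 2 ≤ C / t ^ 2 := by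
          have h6 : ‖ZZ S t‖ ^ 2 * ‖Mel (gg f N α a Θ s) t‖ ^ 2
              ≤ 4 * K * (49 * W ^ 2 / t ^ 2) :=
            mul_le_mul hZ4 hmm (by positivity) (by positivity)
          refine h6.trans (le_of_eq ?_)
          rw [hC]
          ring
        have hval : C / t ^ 2 = C * |t| ^ (-2 : ℝ) := by
          rw [Real.rpow_neg (abs_nonneg t)]
          have : |t| ^ (2 : ℝ) = t ^ 2 := by
            rw [show (2 : ℝ) = ((2 : ℕ) : ℝ) by norm_num, Real.rpow_natCast, sq_abs]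
          rw [this]
          ring
        rcases le_or_gt 0 t with h7 | h7
        · have habs : |t| = t := abs_of_nonneg h7
          have hj : jbh T1 C t = C * |t| ^ (-2 : ℝ) := by
            unfold jbh
            have hin : t ∈ Set.Ioi T1 := by rw [Set.mem_Ioi, ← habs]; exact h3
            rw [Set.indicator_of_mem hin, habs]
          linarith
        · have habs : |t| = -t := abs_of_neg h7
          have hj : jbh T1 C (-t) = C * |t| ^ (-2 : ℝ) := by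
            unfold jbh
            have hin : -t ∈ Set.Ioi T1 := by rw [Set.mem_Ioi, ← habs]; exact h3
            rw [Set.indicator_of_mem hin, habs]
          linarith
  have hb12 : Integrable (fun t => (Set.Icc (-T0) T0).indicator (fun _ : ℝ => 4 * (K : ℝ) * MB ^ 2) t
      + ZB * ‖Mel (gg f N α a Θ s) t‖ ^ 2) := hb1.add hb2
  have hb123 : Integrable (fun t => ((Set.Icc (-T0) T0).indicator
      (fun _ : ℝ => 4 * (K : ℝ) * MB ^ 2) t + ZB * ‖Mel (gg f N α a Θ s) t‖ ^ 2) + jbh T1 C t) :=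
    hb12.add hb3
  have hb1234 : Integrable (fun t => (((Set.Icc (-T0) T0).indicator
      (fun _ : ℝ => 4 * (K : ℝ) * MB ^ 2) t + ZB * ‖Mel (gg f N α a Θ s) t‖ ^ 2) + jbh T1 C t)
        + jbh T1 C (-t)) := hb123.add hb4
  have hI := integral_mono hint hb1234 hpt
  have hcalc : ∫ t, ((((Set.Icc (-T0) T0).indicator (fun _ : ℝ => 4 * K * MB ^ 2) t
          + ZB * ‖Mel (gg f N α a Θ s) t‖ ^ 2) + jbh T1 C t) + jbh T1 C (-t))
      = 2 * T0 * (4 * K * MB ^ 2) + ZB * (2 * Real.pi *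
          ∫ θ in Set.Ioi (0 : ℝ), ‖gg f N α a Θ s θ‖ ^ 2) + C / T1 + C / T1 := by
    rw [integral_add hb123 hb4, integral_add hb12 hb3, integral_add hb1 hb2, jb_box_integral T0 _ hT0, integral_const_mul, hMeq,
      integral_neg_eq_self (jbh T1 C) volume, jbh_integral T1 C hT1]
  have hI2 : ∫ t, ‖ZZ S t‖ ^ 2 * ‖Mel (gg f N α a Θ s) t‖ ^ 2
      ≤ 2 * T0 * (4 * K * MB ^ 2) + ZB * (2 * Real.pi * S2 f N) + C / T1 + C / T1 := by
    have hI3 : ∫ t, ‖ZZ S t‖ ^ 2 * ‖Mel (gg f N α a Θ s) t‖ ^ 2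
        ≤ 2 * T0 * (4 * K * MB ^ 2) + ZB * (2 * Real.pi *
          ∫ θ in Set.Ioi (0 : ℝ), ‖gg f N α a Θ s θ‖ ^ 2) + C / T1 + C / T1 := by
      rw [← hcalc]
      exact hI
    have : ZB * (2 * Real.pi * ∫ θ in Set.Ioi (0 : ℝ), ‖gg f N α a Θ s θ‖ ^ 2)
        ≤ ZB * (2 * Real.pi * S2 f N) := by
      refine mul_le_mul_of_nonneg_left ?_ hZB
      exact mul_le_mul_of_nonneg_left hL2 (by positivity)
    linarith
  have hpi3 : 3.14 < Real.pi := Real.pi_gt_d2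
  have hpi0 : 0 < 2 * Real.pi := by positivity
  rw [one_div, inv_mul_le_iff₀ hpi0]
  refine hI2.trans ?_
  have e1 : 2 * T0 * (4 * K * MB ^ 2) ≤ 2 * Real.pi * (2 * K * T0 * MB ^ 2) := by
    have : 0 ≤ K * T0 * MB ^ 2 := by positivity
    nlinarith
  have e2 : C / T1 + C / T1 ≤ 2 * Real.pi * (100 * K * W ^ 2 / T1) := by
    have h8 : C / T1 + C / T1 = 392 * (K * W ^ 2 / T1) := by rw [hC]; ring
    have h9 : 2 * Real.pi * (100 * K * W ^ 2 / T1) = 200 * Real.pi * (K * W ^ 2 / T1) := by ring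
    rw [h8, h9]
    have : 0 ≤ K * W ^ 2 / T1 := by positivity
    nlinarith
  have e3 : ZB * (2 * Real.pi * S2 f N) = 2 * Real.pi * (ZB * S2 f N) := by ring
  rw [e3]
  nlinarith

end Pool.Agent.H76.EHB
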