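import Pool.Agent.H76.EHB.Basic

/-!
# EHB Osc: an oscillatory integral

`I = ∫_a^b e(v θ) θ^{-1/2 - i t} dθ`, `0 < a ≤ b ≤ 1`.
(i) trivially `|I| ≤ ∫_0^b θ^{-1/2} = 2 √b ≤ 2`.
(ii) `v ≠ 0`: integrate by parts, `e(vθ)/(2πi v)` is a primitive: `|I| ≤ (1/(2π|v|)) (2 a^{-1/2} + (1/2+|t|) ∫_a^b θ^{-3/2})
   ≤ (1/(2π|v|)) (2 + 2 (1/2 + |t|)) a^{-1/2} ≤ (1+|t|)/(|v| √a)`.
(iii) `v ≠ 0`: split at `θ = 1/|v|` (if it lies in `(a,b)`): `∫_a^{1/|v|} θ^{-1/2} ≤ 2/√|v|` and (ii) on `[1/|v|, b]`; if `1/|v| ≥ b`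
   use (i) `≤ 2√b ≤ 2/√|v|`; if `1/|v| ≤ a` use (ii): `(1+|t|)/(|v|√a) ≤ (1+|t|)/√|v|`.
`osc_sum`: the majorant `bb P v` is `2` for `|v| < 1`, `3/√|v|` for `1 ≤ |v| ≤ P`, `√P/|v|` for `|v| > P`; the points `n - a'` are spaced by one,
so the sum over `n ≤ N` is `≤ 2*2 + 2 ∑_{1 ≤ j ≤ P} 3/√j + 2 √P (1/P + log((P+N)/P)) ≤ 20 √P (1 + log N)` (each side of `a'` separately: the
`j`-th point on one side with `|v| ≥ 1` has `|v| ≥ j`).
-/

set_option autoImplicit false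

namespace Pool.Agent.H76.EHB

open Finset MeasureTheory
open Pool.Agent.H91.PK (ee)

private theorem osc_norm (t θ : ℝ) (h : 0 < θ) :
    ‖(θ : ℂ) ^ (-(1 / 2 : ℂ) - t * Complex.I)‖ = θ ^ (-(1 / 2) : ℝ) := by
  rw [Complex.norm_cpow_eq_rpow_re_of_pos h]
  congr 1
  simp

private theorem osc_ee_norm (x : ℝ) : ‖ee x‖ = 1 := by
  unfold Pool.Agent.H91.PK.ee
  rw [show (2 * Real.pi * x * Complex.I : ℂ) = ((2 * Real.pi * x : ℝ) : ℂ) * Complex.I by push_cast; ring]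
  exact Complex.norm_exp_ofReal_mul_I _

private theorem osc_ee_deriv (v θ : ℝ) :
    HasDerivAt (fun x : ℝ => ee (v * x)) (2 * Real.pi * v * Complex.I * ee (v * θ)) θ := by
  unfold Pool.Agent.H91.PK.ee
  have h1 : HasDerivAt (fun x : ℝ => (2 * Real.pi * ((v * x : ℝ) : ℂ) * Complex.I : ℂ))
      (2 * Real.pi * v * Complex.I) θ := by
    have h2 : HasDerivAt (fun x : ℝ => ((v * x : ℝ) : ℂ)) ((v : ℝ) : ℂ) θ := by
      have := ((hasDerivAt_id θ).const_mul v).ofReal_comp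
      simpa using this
    have h3 := (h2.const_mul (2 * Real.pi : ℂ)).mul_const Complex.I
    simpa using h3
  have h4 := h1.cexp
  rw [mul_comm (Complex.exp _)] at h4
  exact h4

private theorem osc_pow_deriv (s : ℂ) (θ : ℝ) (h : 0 < θ) :
    HasDerivAt (fun x : ℝ => (x : ℂ) ^ s) (s * (θ : ℂ) ^ (s - 1)) θ := by
  have h1 : HasDerivAt (fun z : ℂ => z ^ s) (s * (θ : ℂ) ^ (s - 1)) (θ : ℂ) := by
    have := (hasDerivAt_id (θ : ℂ)).cpow_const (c := s)
      (Complex.ofReal_mem_slitPlane.2 h)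
    simpa using this
  exact h1.comp_ofReal

private theorem osc_cont (v t a b : ℝ) (ha : 0 < a) (hab : a ≤ b) :
    ContinuousOn (fun θ : ℝ => ee (v * θ) * (θ : ℂ) ^ (-(1 / 2 : ℂ) - t * Complex.I))
      (Set.uIcc a b) := by
  intro θ hθ
  rw [Set.uIcc_of_le hab] at hθ
  have h0 : 0 < θ := lt_of_lt_of_le ha hθ.1
  exact ((osc_ee_deriv v θ).continuousAt.mul (osc_pow_deriv _ θ h0).continuousAt).continuousWithinAt

private theorem osc_triv (v t a b : ℝ) (ha : 0 < a) (hab : a ≤ b) :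
    ‖∫ θ in a..b, ee (v * θ) * (θ : ℂ) ^ (-(1 / 2 : ℂ) - t * Complex.I)‖ ≤ 2 * Real.sqrt b := by
  have hint : IntervalIntegrable (fun θ : ℝ => θ ^ (-(1 / 2) : ℝ)) volume a b :=
    intervalIntegral.intervalIntegrable_rpow' (by norm_num)
  have h1 : ‖∫ θ in a..b, ee (v * θ) * (θ : ℂ) ^ (-(1 / 2 : ℂ) - t * Complex.I)‖ ≤
      ∫ θ in a..b, θ ^ (-(1 / 2) : ℝ) := by
    apply intervalIntegral.norm_integral_le_of_norm_le hab _ hint
    refine Filter.Eventually.of_forall ?_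
    intro θ hθ
    have h0 : 0 < θ := lt_of_lt_of_le ha hθ.1.le
    rw [norm_mul, osc_ee_norm, osc_norm t θ h0, one_mul]
  rw [integral_rpow (Or.inl (by norm_num))] at h1
  have e1 : (-(1 / 2) + 1 : ℝ) = 1 / 2 := by norm_num
  rw [e1, ← Real.sqrt_eq_rpow, ← Real.sqrt_eq_rpow] at h1
  have h2 : 0 ≤ Real.sqrt a := Real.sqrt_nonneg a
  have h3 : (Real.sqrt b - Real.sqrt a) / (1 / 2) = 2 * Real.sqrt b - 2 * Real.sqrt a := by ring
  rw [h3] at h1
  linarith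

theorem osc1 (v t a b : ℝ) (ha : 0 < a) (hab : a ≤ b) (hb : b ≤ 1) :
    ‖∫ θ in a..b, ee (v * θ) * (θ : ℂ) ^ (-(1 / 2 : ℂ) - t * Complex.I)‖ ≤ 2 := by
  have h1 := osc_triv v t a b ha hab
  have h2 : Real.sqrt b ≤ 1 := by
    rw [show (1 : ℝ) = Real.sqrt 1 from Real.sqrt_one.symm]
    exact Real.sqrt_le_sqrt hb
  linarith

theorem osc2 (v t a b : ℝ) (ha : 0 < a) (hab : a ≤ b) (hb : b ≤ 1) (hv : v ≠ 0) :
    ‖∫ θ in a..b, ee (v * θ) * (θ : ℂ) ^ (-(1 / 2 : ℂ) - t * Complex.I)‖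
      ≤ (1 + |t|) / (|v| * Real.sqrt a) := by
  set s : ℂ := -(1 / 2 : ℂ) - t * Complex.I with hs
  have hb0 : 0 < b := lt_of_lt_of_le ha hab
  have hv0 : 0 < |v| := abs_pos.2 hv
  have hpi : 0 < Real.pi := Real.pi_pos
  set c : ℂ := (2 * Real.pi * v * Complex.I)⁻¹ with hc
  have hc0 : (2 * Real.pi * v * Complex.I : ℂ) ≠ 0 := by
    have : (v : ℂ) ≠ 0 := by exact_mod_cast hv
    have : (Real.pi : ℂ) ≠ 0 := by exact_mod_cast hpi.ne'
    simp [*, Complex.I_ne_zero]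
  have hcn : ‖c‖ = 1 / (2 * Real.pi * |v|) := by
    rw [hc, norm_inv, norm_mul, norm_mul, norm_mul, Complex.norm_I, Complex.norm_real,
      Complex.norm_real, Real.norm_eq_abs, Real.norm_eq_abs, abs_of_pos hpi]
    norm_num
  have hsn : ‖s‖ ≤ 1 / 2 + |t| := by
    rw [hs]
    refine (norm_sub_le _ _).trans ?_
    rw [norm_neg, norm_mul, Complex.norm_I, Complex.norm_real, Real.norm_eq_abs, mul_one]
    norm_num
  have hcont' : ContinuousOn (fun θ : ℝ => s * (θ : ℂ) ^ (s - 1)) (Set.uIcc a b) := by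
    intro θ hθ
    rw [Set.uIcc_of_le hab] at hθ
    have h0 : 0 < θ := lt_of_lt_of_le ha hθ.1
    exact (continuousAt_const.mul (osc_pow_deriv (s - 1) θ h0).continuousAt).continuousWithinAt
  have hconte : Continuous (fun θ : ℝ => ee (v * θ)) :=
    continuous_iff_continuousAt.2 fun θ => (osc_ee_deriv v θ).continuousAt
  have hibp := intervalIntegral.integral_mul_deriv_eq_deriv_mul
    (u := fun θ : ℝ => (θ : ℂ) ^ s) (v := fun θ : ℝ => c * ee (v * θ))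
    (u' := fun θ : ℝ => s * (θ : ℂ) ^ (s - 1)) (v' := fun θ : ℝ => ee (v * θ)) (a := a) (b := b)
    (by
      intro θ hθ
      rw [Set.uIcc_of_le hab] at hθ
      exact osc_pow_deriv s θ (lt_of_lt_of_le ha hθ.1))
    (by
      intro θ _
      have h1 := (osc_ee_deriv v θ).const_mul c
      have h2 : c * (2 * Real.pi * v * Complex.I * ee (v * θ)) = ee (v * θ) := by
        rw [← mul_assoc, hc, inv_mul_cancel₀ hc0, one_mul]
      rw [h2] at h1
      exact h1)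
    hcont'.intervalIntegrable
    (hconte.intervalIntegrable _ _)
  have hcomm : ∫ θ in a..b, ee (v * θ) * (θ : ℂ) ^ s = ∫ θ in a..b, (θ : ℂ) ^ s * ee (v * θ) := by
    apply intervalIntegral.integral_congr
    intro θ _
    exact mul_comm _ _
  rw [hcomm, hibp]
  have hint : IntervalIntegrable (fun θ : ℝ => ‖s‖ * ‖c‖ * θ ^ (-(3 / 2) : ℝ)) volume a b := by
    apply ContinuousOn.intervalIntegrable
    intro θ hθ
    rw [Set.uIcc_of_le hab] at hθ
    have h0 : θ ≠ 0 := (lt_of_lt_of_le ha hθ.1).ne'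
    exact (continuousAt_const.mul (Real.continuousAt_rpow_const _ _ (Or.inl h0))).continuousWithinAt
  have h3 : ‖∫ θ in a..b, s * (θ : ℂ) ^ (s - 1) * (c * ee (v * θ))‖ ≤
      ∫ θ in a..b, ‖s‖ * ‖c‖ * θ ^ (-(3 / 2) : ℝ) := by
    apply intervalIntegral.norm_integral_le_of_norm_le hab _ hint
    refine Filter.Eventually.of_forall ?_
    intro θ hθ
    have h0 : 0 < θ := lt_of_lt_of_le ha hθ.1.le
    rw [norm_mul, norm_mul, norm_mul, osc_ee_norm, Complex.norm_cpow_eq_rpow_re_of_pos h0]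
    have e : (s - 1).re = -(3 / 2) := by
      rw [hs]
      simp
      norm_num
    rw [e]
    apply le_of_eq
    ring
  have h4 : ∫ θ in a..b, ‖s‖ * ‖c‖ * θ ^ (-(3 / 2) : ℝ) =
      ‖s‖ * ‖c‖ * (2 * (a ^ (-(1 / 2) : ℝ) - b ^ (-(1 / 2) : ℝ))) := by
    rw [intervalIntegral.integral_const_mul, integral_rpow]
    · have e1 : (-(3 / 2) + 1 : ℝ) = -(1 / 2) := by norm_num
      rw [e1]
      ring
    · right
      refine ⟨by norm_num, ?_⟩
      rw [Set.uIcc_of_le hab]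
      intro h
      exact absurd h.1 (not_le.2 ha)
  rw [h4] at h3
  have hA : a ^ (-(1 / 2) : ℝ) = 1 / Real.sqrt a := by
    rw [Real.rpow_neg ha.le, ← Real.sqrt_eq_rpow, one_div]
  have hBA : b ^ (-(1 / 2) : ℝ) ≤ a ^ (-(1 / 2) : ℝ) :=
    Real.rpow_le_rpow_of_nonpos ha hab (by norm_num)
  have hB0 : 0 ≤ b ^ (-(1 / 2) : ℝ) := by positivity
  have h5 : ‖(b : ℂ) ^ s * (c * ee (v * b))‖ = b ^ (-(1 / 2) : ℝ) * ‖c‖ := by
    rw [norm_mul, norm_mul, osc_ee_norm, osc_norm t b hb0, mul_one]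
  have h6 : ‖(a : ℂ) ^ s * (c * ee (v * a))‖ = a ^ (-(1 / 2) : ℝ) * ‖c‖ := by
    rw [norm_mul, norm_mul, osc_ee_norm, osc_norm t a ha, mul_one]
  set A := a ^ (-(1 / 2) : ℝ) with hAdef
  set B := b ^ (-(1 / 2) : ℝ) with hBdef
  have h7 : ‖(b : ℂ) ^ s * (c * ee (v * b)) - (a : ℂ) ^ s * (c * ee (v * a)) -
      ∫ θ in a..b, s * (θ : ℂ) ^ (s - 1) * (c * ee (v * θ))‖ ≤
      B * ‖c‖ + A * ‖c‖ + ‖s‖ * ‖c‖ * (2 * (A - B)) := by
    refine (norm_sub_le _ _).trans ?_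
    refine add_le_add ((norm_sub_le _ _).trans (le_of_eq ?_)) h3
    rw [h5, h6]
  refine h7.trans ?_
  have hc0' : 0 ≤ ‖c‖ := norm_nonneg c
  have ht0 : 0 ≤ |t| := abs_nonneg t
  have h8 : ‖s‖ * ‖c‖ * (2 * (A - B)) ≤ (1 / 2 + |t|) * ‖c‖ * (2 * (A - B)) := by
    apply mul_le_mul_of_nonneg_right
    · exact mul_le_mul_of_nonneg_right hsn hc0'
    · linarith
  have h9 : B * ‖c‖ + A * ‖c‖ + (1 / 2 + |t|) * ‖c‖ * (2 * (A - B)) ≤
      2 * (1 + |t|) * A * ‖c‖ := by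
    have : 0 ≤ |t| * B * ‖c‖ := by positivity
    nlinarith
  have hA0 : 0 < A := by rw [hAdef]; positivity
  calc B * ‖c‖ + A * ‖c‖ + ‖s‖ * ‖c‖ * (2 * (A - B)) ≤ 2 * (1 + |t|) * A * ‖c‖ := by linarith
    _ = (1 + |t|) * A / |v| * (1 / Real.pi) := by
        rw [hcn]
        field_simp
    _ ≤ (1 + |t|) * A / |v| * 1 := by
        apply mul_le_mul_of_nonneg_left _ (by positivity)
        rw [div_le_one hpi]
        linarith [Real.pi_gt_three]
    _ = (1 + |t|) / (|v| * Real.sqrt a) := by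
        rw [hA]
        have : Real.sqrt a ≠ 0 := (Real.sqrt_pos.2 ha).ne'
        field_simp

theorem osc3 (v t a b : ℝ) (ha : 0 < a) (hab : a ≤ b) (hb : b ≤ 1) (hv : v ≠ 0) :
    ‖∫ θ in a..b, ee (v * θ) * (θ : ℂ) ^ (-(1 / 2 : ℂ) - t * Complex.I)‖
      ≤ 3 * (1 + |t|) / Real.sqrt |v| := by
  have hv0 : 0 < |v| := abs_pos.2 hv
  have hsv : 0 < Real.sqrt |v| := Real.sqrt_pos.2 hv0
  have ht0 : 0 ≤ |t| := abs_nonneg t
  have hsq : Real.sqrt |v| * Real.sqrt |v| = |v| := Real.mul_self_sqrt hv0.le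
  have hc : Real.sqrt (1 / |v|) = 1 / Real.sqrt |v| := by
    rw [Real.sqrt_div zero_le_one, Real.sqrt_one]
  -- the bound coming from osc2 when the lower end is at least `1/|v|`
  have key : ∀ x : ℝ, 1 / |v| ≤ x → (1 + |t|) / (|v| * Real.sqrt x) ≤ (1 + |t|) / Real.sqrt |v| := by
    intro x hx
    apply div_le_div_of_nonneg_left (by positivity) hsv
    have h1 : 1 / Real.sqrt |v| ≤ Real.sqrt x := by
      rw [← hc]; exact Real.sqrt_le_sqrt hx
    calc Real.sqrt |v| = |v| * (1 / Real.sqrt |v|) := by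
          field_simp
          nlinarith [hsq]
      _ ≤ |v| * Real.sqrt x := mul_le_mul_of_nonneg_left h1 hv0.le
  by_cases h1 : b ≤ 1 / |v|
  · have h2 := osc_triv v t a b ha hab
    have h3 : Real.sqrt b ≤ 1 / Real.sqrt |v| := by
      rw [← hc]; exact Real.sqrt_le_sqrt h1
    calc _ ≤ 2 * Real.sqrt b := h2
      _ ≤ 2 * (1 / Real.sqrt |v|) := by linarith
      _ = 2 / Real.sqrt |v| := by ring
      _ ≤ 3 * (1 + |t|) / Real.sqrt |v| := by
          apply div_le_div_of_nonneg_right _ hsv.le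
          linarith
  · rw [not_le] at h1
    by_cases h2 : 1 / |v| ≤ a
    · have h3 := osc2 v t a b ha hab hb hv
      refine h3.trans ((key a h2).trans ?_)
      apply div_le_div_of_nonneg_right _ hsv.le
      linarith
    · rw [not_le] at h2
      have hc0 : 0 < 1 / |v| := by positivity
      have h4 := osc_triv v t a (1 / |v|) ha h2.le
      have h5 := osc2 v t (1 / |v|) b hc0 h1.le hb hv
      have h6 := key (1 / |v|) le_rfl
      have h7 : ∫ θ in a..b, ee (v * θ) * (θ : ℂ) ^ (-(1 / 2 : ℂ) - t * Complex.I) =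
          (∫ θ in a..(1 / |v|), ee (v * θ) * (θ : ℂ) ^ (-(1 / 2 : ℂ) - t * Complex.I)) +
          ∫ θ in (1 / |v|)..b, ee (v * θ) * (θ : ℂ) ^ (-(1 / 2 : ℂ) - t * Complex.I) := by
        rw [intervalIntegral.integral_add_adjacent_intervals]
        · exact (osc_cont v t a (1 / |v|) ha h2.le).intervalIntegrable
        · exact (osc_cont v t (1 / |v|) b hc0 h1.le).intervalIntegrable
      rw [h7]
      refine (norm_add_le _ _).trans ?_
      rw [hc] at h4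
      calc _ ≤ 2 * (1 / Real.sqrt |v|) + (1 + |t|) / Real.sqrt |v| := add_le_add h4 (h5.trans h6)
        _ = (2 + (1 + |t|)) / Real.sqrt |v| := by ring
        _ ≤ 3 * (1 + |t|) / Real.sqrt |v| := by
            apply div_le_div_of_nonneg_right _ hsv.le
            linarith

end Pool.Agent.H76.EHB
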