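import Pool.Agent.H76.EHB.Basic

/-!
# EHB OscSum

See the header of `Osc`: `bb P v` is `2` for `|v| < 1`, `3/√|v|` for `1 ≤ |v| ≤ P`, `√P/|v|` for `|v| > P`.
For each of the two sides of `a'` order the `n` by distance: the `j`-th (`j = 0, 1, ...`) has `|n - a'| ≥ j`; at most one `n` per side has
`|n-a'| < 1`.  One side gives at most `2 + ∑_{1 ≤ j ≤ P} 3/√j + 3/√P... ` — all together `≤ 20 √P (1 + log N)`:
points with `1 ≤ |v| ≤ P`: `≤ ∑_{1≤j≤P+1} 3/√j ≤ 6 √(P+1)`... ; points with `|v| > P`: `≤ √P ∑_{i=0}^{N} 1/(P+i) ≤ √P (1/P + log(1+N/P))`.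
(The constant 20 is generous; if needed message helper76.)

Here: `bb P v ≤ 6 √P / (1 + |v|)`, and each side of `a` gives at most `6 √P H_{N+1}`.
-/

set_option autoImplicit false

namespace Pool.Agent.H76.EHB

open Finset

noncomputable def bb (P v : ℝ) : ℝ :=
  if |v| < 1 then 2 else if |v| ≤ P then 3 / Real.sqrt |v| else Real.sqrt P / |v|

private theorem OscSum_bb_le {P v : ℝ} (hP : 1 ≤ P) (i : ℕ) (hi : (i : ℝ) ≤ |v|) :
    bb P v ≤ 6 * Real.sqrt P * (1 / ((i : ℝ) + 1)) := by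
  have hsP : 1 ≤ Real.sqrt P := Real.one_le_sqrt.2 hP
  have h1 : bb P v ≤ 6 * Real.sqrt P * (1 / (|v| + 1)) := by
    have hv : 0 ≤ |v| := abs_nonneg v
    rw [mul_one_div, le_div_iff₀ (by linarith)]
    unfold bb
    split_ifs with h2 h3
    · nlinarith
    · rw [not_lt] at h2
      have hv1 : 1 ≤ Real.sqrt |v| := Real.one_le_sqrt.2 h2
      have h4 : Real.sqrt |v| ≤ Real.sqrt P := Real.sqrt_le_sqrt h3
      have h5 : Real.sqrt |v| * Real.sqrt |v| = |v| := Real.mul_self_sqrt hv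
      have h6 : 3 / Real.sqrt |v| * (|v| + 1) ≤ 3 / Real.sqrt |v| * (2 * |v|) := by
        gcongr
        linarith
      refine h6.trans ?_
      have h7 : 3 / Real.sqrt |v| * (2 * |v|) = 6 * Real.sqrt |v| := by
        rw [div_mul_eq_mul_div, div_eq_iff (by linarith)]
        nlinarith
      rw [h7]
      linarith
    · rw [not_lt] at h2
      rw [div_mul_eq_mul_div, div_le_iff₀ (by linarith)]
      nlinarith
  refine h1.trans ?_
  gcongr

private theorem OscSum_harm (N : ℕ) (hN : 1 ≤ N) :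
    ∑ i ∈ range (N + 1), 1 / ((i : ℝ) + 1) ≤ 2 * (1 + Real.log N) := by
  have h := harmonic_le_one_add_log (N + 1)
  unfold harmonic at h
  push_cast at h
  have hN0 : (0 : ℝ) < N := by exact_mod_cast hN
  have h1 : Real.log ((N : ℝ) + 1) ≤ 1 + Real.log N := by
    have h2 : Real.log ((N : ℝ) + 1) ≤ Real.log (2 * N) := by
      apply Real.log_le_log (by positivity)
      have : (1 : ℝ) ≤ N := by exact_mod_cast hN
      linarith
    rw [Real.log_mul (by norm_num) hN0.ne'] at h2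
    have := Real.log_two_lt_d9
    linarith
  have h3 : 0 ≤ Real.log N := Real.log_natCast_nonneg N
  simp only [one_div]
  linarith

/-- One side of `a`. -/
private theorem OscSum_side (N : ℕ) (P a : ℝ) (hN : 1 ≤ N) (hP : 1 ≤ P) (s : Finset ℕ)
    (g : ℕ → ℕ) (hg : Set.InjOn g s) (hgN : ∀ n ∈ s, g n ≤ N)
    (hgv : ∀ n ∈ s, ((g n : ℕ) : ℝ) ≤ |(n : ℝ) - a|) :
    ∑ n ∈ s, bb P (n - a) ≤ 12 * Real.sqrt P * (1 + Real.log N) := by
  have hsP : 0 ≤ Real.sqrt P := Real.sqrt_nonneg P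
  calc ∑ n ∈ s, bb P (n - a) ≤ ∑ n ∈ s, 6 * Real.sqrt P * (1 / ((g n : ℝ) + 1)) :=
        sum_le_sum fun n hn => OscSum_bb_le hP (g n) (hgv n hn)
    _ = ∑ i ∈ s.image g, 6 * Real.sqrt P * (1 / ((i : ℝ) + 1)) := by
        rw [sum_image hg]
    _ ≤ ∑ i ∈ range (N + 1), 6 * Real.sqrt P * (1 / ((i : ℝ) + 1)) := by
        refine sum_le_sum_of_subset_of_nonneg ?_ fun i _ _ => by positivity
        intro i hi
        obtain ⟨n, hn, rfl⟩ := mem_image.1 hi
        exact mem_range.2 (Nat.lt_succ_of_le (hgN n hn))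
    _ = 6 * Real.sqrt P * ∑ i ∈ range (N + 1), 1 / ((i : ℝ) + 1) := by rw [mul_sum]
    _ ≤ 6 * Real.sqrt P * (2 * (1 + Real.log N)) := by
        gcongr
        exact OscSum_harm N hN
    _ = _ := by ring

theorem bb_sum (N : ℕ) (P a : ℝ) (hN : 1 ≤ N) (hP : 1 ≤ P) :
    ∑ n ∈ Icc 1 N, bb P (n - a) ≤ 30 * Real.sqrt P * (1 + Real.log N) := by
  classical
  have hlog : 0 ≤ Real.log N := Real.log_natCast_nonneg N
  have hsP : 0 ≤ Real.sqrt P := Real.sqrt_nonneg P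
  rw [← sum_filter_add_sum_filter_not (Icc 1 N) (fun n : ℕ => a ≤ (n : ℝ))]
  have h1 : ∑ n ∈ (Icc 1 N).filter (fun n : ℕ => a ≤ (n : ℝ)), bb P (n - a) ≤
      12 * Real.sqrt P * (1 + Real.log N) := by
    refine OscSum_side N P a hN hP _ (fun n => n - ⌈a⌉₊) ?_ ?_ ?_
    · intro n hn n' hn' he
      rw [mem_coe, mem_filter] at hn hn'
      have h2 : ⌈a⌉₊ ≤ n := Nat.ceil_le.2 hn.2
      have h3 : ⌈a⌉₊ ≤ n' := Nat.ceil_le.2 hn'.2
      have h4 : n - ⌈a⌉₊ = n' - ⌈a⌉₊ := he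
      omega
    · intro n hn
      rw [mem_filter, mem_Icc] at hn
      show n - ⌈a⌉₊ ≤ N
      omega
    · intro n hn
      rw [mem_filter, mem_Icc] at hn
      have h2 : ⌈a⌉₊ ≤ n := Nat.ceil_le.2 hn.2
      rw [Nat.cast_sub h2]
      have h3 := Nat.le_ceil a
      have h4 := le_abs_self ((n : ℝ) - a)
      linarith
  have h2 : ∑ n ∈ (Icc 1 N).filter (fun n : ℕ => ¬ a ≤ (n : ℝ)), bb P (n - a) ≤
      12 * Real.sqrt P * (1 + Real.log N) := by
    refine OscSum_side N P a hN hP _ (fun n => min ⌊a⌋₊ N - n) ?_ ?_ ?_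
    · intro n hn n' hn' he
      rw [mem_coe, mem_filter, mem_Icc, not_le] at hn hn'
      have h2 : n ≤ ⌊a⌋₊ := Nat.le_floor hn.2.le
      have h3 : n' ≤ ⌊a⌋₊ := Nat.le_floor hn'.2.le
      have h4 : min ⌊a⌋₊ N - n = min ⌊a⌋₊ N - n' := he
      omega
    · intro n hn
      show min ⌊a⌋₊ N - n ≤ N
      omega
    · intro n hn
      rw [mem_filter, mem_Icc, not_le] at hn
      have h2 : n ≤ ⌊a⌋₊ := Nat.le_floor hn.2.le
      have h5 : n ≤ min ⌊a⌋₊ N := by omega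
      rw [Nat.cast_sub h5]
      have hn0 : (0 : ℝ) ≤ n := Nat.cast_nonneg n
      have h3 : ((⌊a⌋₊ : ℕ) : ℝ) ≤ a := Nat.floor_le (by linarith [hn.2])
      have h6 : ((min ⌊a⌋₊ N : ℕ) : ℝ) ≤ (⌊a⌋₊ : ℝ) := by exact_mod_cast min_le_left _ _
      have h4 := neg_abs_le ((n : ℝ) - a)
      linarith
  calc _ ≤ 12 * Real.sqrt P * (1 + Real.log N) + 12 * Real.sqrt P * (1 + Real.log N) :=
        add_le_add h1 h2
    _ ≤ 30 * Real.sqrt P * (1 + Real.log N) := by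
        have : 0 ≤ Real.sqrt P * (1 + Real.log N) := by positivity
        nlinarith

end Pool.Agent.H76.EHB
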