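import Pool.Agent.H76.EHB.Jred
import Pool.Agent.H76.EHB.Osc
import Pool.Agent.H76.EHB.OscSum

/-!
# EHB MelB: the Mellin transform for small `t`

`FF_near`: Abel summation: `FF(α+θ) = ∑ f(n) e(nα) e(nθ)`, `|e((n+1)θ) - e(nθ)| ≤ 2π|θ|`, so `|FF(α+θ)| ≤ (1 + 2π|θ| N) E` if all truncated
sums `∑_{n ≤ u} f(n) e(nα)`, `u ≤ N`, are at most `E` in absolute value.
`mel_small`: `Mel g t = ∫_0^Θ g(θ) θ^{-1/2-it} dθ`, `g = gg`, `s = ±1`.  Let `θ0 = 1/P`.  The part `θ ≤ θ0` is at most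
`∫_0^{θ0} (1 + 7 θ N) E θ^{-1/2} ≤ 2 √θ0 (1 + 7 θ0 N) E`.  If `Θ > θ0` the rest is
`∑_n f(n) e(nα) ∫_{θ0}^Θ e(s (n - a) θ) θ^{-1/2-it} dθ`, at most `Fm ∑_n (1+|t|) bb P (n - a)` by `osc1` (for `|n-a| < 1`), `osc3`
(for `1 ≤ |n-a| ≤ P`), `osc2` (`|n-a| > P`, `1/√θ0 = √P`), and `bb_sum`.
-/

set_option autoImplicit false

namespace Pool.Agent.H76.EHB

open Finset MeasureTheory
open Pool.Agent.H91.PK (ee)

theorem melB_ee_sub (x θ : ℝ) : ‖ee (x + θ) - ee x‖ ≤ 7 * |θ| := by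
  have h1 : ee (x + θ) - ee x = ee x * (ee θ - 1) := by
    rw [Pool.Agent.H91.PK.LSa_ee_add]; ring
  rw [h1, norm_mul, Pool.Agent.H91.PK.LSa_norm_ee, one_mul]
  have h2 : ee θ = Complex.exp (Complex.I * ((2 * Real.pi * θ : ℝ) : ℂ)) := by
    unfold Pool.Agent.H91.PK.ee
    congr 1
    push_cast
    ring
  rw [h2]
  refine (Real.norm_exp_I_mul_ofReal_sub_one_le).trans ?_
  rw [Real.norm_eq_abs, abs_mul, abs_of_pos (by positivity : (0 : ℝ) < 2 * Real.pi)]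
  have h3 := Real.pi_lt_d2
  have h4 := abs_nonneg θ
  nlinarith

theorem melB_abel (f : ℕ → ℝ) (N : ℕ) (α θ : ℝ) :
    FF f N (α + θ) = (∑ n ∈ Icc 1 N, (f n : ℂ) * ee (n * α)) * ee (N * θ)
      - ∑ n ∈ range N, (∑ m ∈ Icc 1 n, (f m : ℂ) * ee (m * α)) *
          (ee (n * θ + θ) - ee (n * θ)) := by
  induction N with
  | zero => simp [FF]
  | succ N ih =>
    have h1 : FF f (N + 1) (α + θ) = FF f N (α + θ)
        + (f (N + 1) : ℂ) * ee (((N + 1 : ℕ) : ℝ) * (α + θ)) := by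
      unfold FF
      rw [Finset.sum_Icc_succ_top (by omega)]
    have h2 : (((N + 1 : ℕ) : ℝ)) * (α + θ) = ((N + 1 : ℕ) : ℝ) * α + ((N + 1 : ℕ) : ℝ) * θ := by
      ring
    have h3 : ((N + 1 : ℕ) : ℝ) * θ = N * θ + θ := by push_cast; ring
    rw [h1, ih, Finset.sum_Icc_succ_top (by omega), sum_range_succ, h2,
      Pool.Agent.H91.PK.LSa_ee_add, h3]
    ring

theorem FF_near (f : ℕ → ℝ) (N : ℕ) (α θ E : ℝ) (hE : 0 ≤ E)
    (h : ∀ u, u ≤ N → ‖∑ n ∈ Icc 1 u, (f n : ℂ) * ee (n * α)‖ ≤ E) :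
    ‖FF f N (α + θ)‖ ≤ (1 + 7 * |θ| * N) * E := by
  rw [melB_abel]
  refine (norm_sub_le _ _).trans ?_
  have h1 : ‖(∑ n ∈ Icc 1 N, (f n : ℂ) * ee (n * α)) * ee (N * θ)‖ ≤ E := by
    rw [norm_mul, Pool.Agent.H91.PK.LSa_norm_ee, mul_one]
    exact h N le_rfl
  have h2 : ‖∑ n ∈ range N, (∑ m ∈ Icc 1 n, (f m : ℂ) * ee (m * α)) *
          (ee (n * θ + θ) - ee (n * θ))‖ ≤ ∑ n ∈ range N, E * (7 * |θ|) := by
    refine (norm_sum_le _ _).trans (sum_le_sum fun n hn => ?_)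
    rw [norm_mul]
    exact mul_le_mul (h n (mem_range.mp hn).le) (melB_ee_sub _ _) (norm_nonneg _) hE
  rw [sum_const, card_range, nsmul_eq_mul] at h2
  linarith

/-- the Mellin transform as an integral over `(0, Θ]` -/
theorem melB_mel (f : ℕ → ℝ) (N : ℕ) (α a Θ s t : ℝ) :
    Mel (gg f N α a Θ s) t = ∫ θ in Set.Ioc 0 Θ,
      (θ : ℂ) ^ (-(1 / 2 : ℂ) - t * Complex.I) * (FF f N (α + s * θ) * ee (-(a * s * θ))) := by
  unfold Mel mellin
  have h1 : (1 / 2 - t * Complex.I - 1 : ℂ) = -(1 / 2 : ℂ) - t * Complex.I := by ring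
  rw [h1]
  have h2 : (fun θ : ℝ => (θ : ℂ) ^ (-(1 / 2 : ℂ) - t * Complex.I) • gg f N α a Θ s θ)
      = (Set.Ioc 0 Θ).indicator (fun θ : ℝ => (θ : ℂ) ^ (-(1 / 2 : ℂ) - t * Complex.I) *
        (FF f N (α + s * θ) * ee (-(a * s * θ)))) := by
    funext θ
    unfold gg
    by_cases h : 0 < θ ∧ θ ≤ Θ
    · rw [if_pos h, Set.indicator_of_mem (Set.mem_Ioc.mpr h), smul_eq_mul]
    · rw [if_neg h, Set.indicator_of_notMem (fun h' => h (Set.mem_Ioc.mp h')), smul_zero]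
  rw [h2, setIntegral_indicator measurableSet_Ioc]
  congr 2
  ext θ
  simp only [Set.mem_inter_iff, Set.mem_Ioi, Set.mem_Ioc]
  tauto

theorem melB_norm_cpow (t : ℝ) {θ : ℝ} (hθ : 0 < θ) :
    ‖(θ : ℂ) ^ (-(1 / 2 : ℂ) - t * Complex.I)‖ = θ ^ (-(1 / 2) : ℝ) := by
  rw [Complex.norm_cpow_eq_rpow_re_of_pos hθ]
  congr 1
  simp

theorem melB_intble (t u v : ℝ) (G : ℝ → ℂ) (hG : Continuous G) :
    IntervalIntegrable (fun θ : ℝ => (θ : ℂ) ^ (-(1 / 2 : ℂ) - t * Complex.I) * G θ) volume u v := by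
  refine IntervalIntegrable.mul_continuousOn ?_ hG.continuousOn
  refine intervalIntegral.intervalIntegrable_cpow' ?_
  simp
  norm_num

theorem melB_cont (f : ℕ → ℝ) (N : ℕ) (α a s : ℝ) :
    Continuous (fun θ : ℝ => FF f N (α + s * θ) * ee (-(a * s * θ))) := by
  refine Continuous.mul ?_ ?_
  · exact (FF_continuous f N).comp (by fun_prop)
  · exact continuous_ee.comp (by fun_prop)

/-- the part near zero -/
theorem melB_near (f : ℕ → ℝ) (N : ℕ) (α a s t E P m : ℝ) (hs : s = 1 ∨ s = -1)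
    (hE : 0 ≤ E) (hP : 1 ≤ P) (hm0 : 0 ≤ m) (hm : m ≤ 1 / P)
    (h : ∀ u, u ≤ N → ‖∑ n ∈ Icc 1 u, (f n : ℂ) * ee (n * α)‖ ≤ E) :
    ‖∫ θ in (0 : ℝ)..m, (θ : ℂ) ^ (-(1 / 2 : ℂ) - t * Complex.I) *
        (FF f N (α + s * θ) * ee (-(a * s * θ)))‖
      ≤ 2 * (1 + 7 * (1 / P) * N) * E / Real.sqrt P := by
  have hP0 : 0 < P := by linarith
  set M : ℝ := (1 + 7 * (1 / P) * N) * E with hM
  have hM0 : 0 ≤ M := by positivity
  have h1 : ‖∫ θ in (0 : ℝ)..m, (θ : ℂ) ^ (-(1 / 2 : ℂ) - t * Complex.I) *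
        (FF f N (α + s * θ) * ee (-(a * s * θ)))‖
      ≤ ∫ θ in (0 : ℝ)..m, θ ^ (-(1 / 2) : ℝ) * M := by
    refine intervalIntegral.norm_integral_le_of_norm_le hm0 ?_ ?_
    · refine Filter.Eventually.of_forall fun θ hθ => ?_
      rw [norm_mul, norm_mul, melB_norm_cpow t hθ.1, Pool.Agent.H91.PK.LSa_norm_ee, mul_one]
      refine mul_le_mul_of_nonneg_left ?_ (Real.rpow_nonneg hθ.1.le _)
      refine (FF_near f N α (s * θ) E hE h).trans ?_
      rw [hM]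
      refine mul_le_mul_of_nonneg_right ?_ hE
      have h2 : |s * θ| = θ := by
        rcases hs with rfl | rfl
        · rw [one_mul, abs_of_pos hθ.1]
        · rw [neg_one_mul, abs_neg, abs_of_pos hθ.1]
      rw [h2]
      have h3 : θ ≤ 1 / P := hθ.2.trans hm
      have h4 : (0 : ℝ) ≤ N := Nat.cast_nonneg N
      nlinarith [mul_le_mul_of_nonneg_right h3 h4]
    · refine IntervalIntegrable.mul_const ?_ _
      exact intervalIntegral.intervalIntegrable_rpow' (by norm_num)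
  have h5 : ∫ θ in (0 : ℝ)..m, θ ^ (-(1 / 2) : ℝ) * M = 2 * Real.sqrt m * M := by
    rw [intervalIntegral.integral_mul_const, integral_rpow (Or.inl (by norm_num))]
    have e1 : (-(1 / 2) + 1 : ℝ) = 1 / 2 := by norm_num
    rw [e1, Real.zero_rpow (by norm_num), ← Real.sqrt_eq_rpow]
    ring
  rw [h5] at h1
  refine h1.trans ?_
  have h6 : Real.sqrt m ≤ 1 / Real.sqrt P := by
    have e : Real.sqrt (1 / P) = 1 / Real.sqrt P := by
      rw [Real.sqrt_div (by norm_num : (0 : ℝ) ≤ 1), Real.sqrt_one]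
    rw [← e]
    exact Real.sqrt_le_sqrt hm
  calc 2 * Real.sqrt m * M ≤ 2 * (1 / Real.sqrt P) * M :=
        mul_le_mul_of_nonneg_right (by linarith) hM0
    _ = 2 * (1 + 7 * (1 / P) * N) * E / Real.sqrt P := by rw [hM]; ring

/-- one oscillatory integral -/
theorem melB_osc (t P Θ v : ℝ) (hP : 1 ≤ P) (hΘ0 : 1 / P ≤ Θ) (hΘ : Θ ≤ 1) :
    ‖∫ θ in (1 / P)..Θ, ee (v * θ) * (θ : ℂ) ^ (-(1 / 2 : ℂ) - t * Complex.I)‖
      ≤ (1 + |t|) * bb P v := by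
  have hP0 : 0 < P := by linarith
  have h0 : 0 < 1 / P := by positivity
  have ht : 0 ≤ |t| := abs_nonneg t
  unfold bb
  by_cases h1 : |v| < 1
  · rw [if_pos h1]
    refine (osc1 v t (1 / P) Θ h0 hΘ0 hΘ).trans ?_
    linarith
  · rw [if_neg h1]
    rw [not_lt] at h1
    have hv : v ≠ 0 := by
      rintro rfl
      rw [abs_zero] at h1
      linarith
    by_cases h2 : |v| ≤ P
    · rw [if_pos h2]
      refine (osc3 v t (1 / P) Θ h0 hΘ0 hΘ hv).trans (le_of_eq ?_)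
      ring
    · rw [if_neg h2]
      refine (osc2 v t (1 / P) Θ h0 hΘ0 hΘ hv).trans (le_of_eq ?_)
      have hsq : Real.sqrt (1 / P) = 1 / Real.sqrt P := by
        rw [Real.sqrt_div (by norm_num : (0 : ℝ) ≤ 1), Real.sqrt_one]
      have hsP : Real.sqrt P ≠ 0 := (Real.sqrt_pos.mpr hP0).ne'
      have hv' : |v| ≠ 0 := abs_ne_zero.mpr hv
      rw [hsq]
      field_simp

/-- the part away from zero -/
theorem melB_far (f : ℕ → ℝ) (N : ℕ) (α a Θ s t Fm P : ℝ) (hN : 1 ≤ N) (hs : s = 1 ∨ s = -1)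
    (hΘ0 : 1 / P ≤ Θ) (hΘ : Θ ≤ 1) (hP : 1 ≤ P) (hF : ∀ n ∈ Icc 1 N, |f n| ≤ Fm) :
    ‖∫ θ in (1 / P)..Θ, (θ : ℂ) ^ (-(1 / 2 : ℂ) - t * Complex.I) *
        (FF f N (α + s * θ) * ee (-(a * s * θ)))‖
      ≤ 30 * Fm * (1 + |t|) * Real.sqrt P * (1 + Real.log N) := by
  have hP0 : 0 < P := by linarith
  have ht : 0 ≤ |t| := abs_nonneg t
  have hFm : 0 ≤ Fm := (abs_nonneg _).trans (hF 1 (mem_Icc.mpr ⟨le_rfl, hN⟩))
  have h1 : (∫ θ in (1 / P)..Θ, (θ : ℂ) ^ (-(1 / 2 : ℂ) - t * Complex.I) *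
        (FF f N (α + s * θ) * ee (-(a * s * θ))))
      = ∑ n ∈ Icc 1 N, ((f n : ℂ) * ee (n * α)) *
        ∫ θ in (1 / P)..Θ, ee ((s * (n - a)) * θ) * (θ : ℂ) ^ (-(1 / 2 : ℂ) - t * Complex.I) := by
    have h2 : ∀ θ : ℝ, (θ : ℂ) ^ (-(1 / 2 : ℂ) - t * Complex.I) *
        (FF f N (α + s * θ) * ee (-(a * s * θ)))
        = ∑ n ∈ Icc 1 N, ((f n : ℂ) * ee (n * α)) *
          (ee ((s * (n - a)) * θ) * (θ : ℂ) ^ (-(1 / 2 : ℂ) - t * Complex.I)) := by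
      intro θ
      unfold FF
      rw [sum_mul, mul_sum]
      refine sum_congr rfl fun n _ => ?_
      have e1 : (n : ℝ) * (α + s * θ) = n * α + n * (s * θ) := by ring
      have e2 : s * ((n : ℝ) - a) * θ = n * (s * θ) + -(a * s * θ) := by ring
      rw [e1, e2, Pool.Agent.H91.PK.LSa_ee_add, Pool.Agent.H91.PK.LSa_ee_add]
      ring
    simp only [h2]
    rw [intervalIntegral.integral_finsetSum]
    · refine sum_congr rfl fun n _ => ?_
      rw [intervalIntegral.integral_const_mul]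
    · intro n _
      refine IntervalIntegrable.const_mul ?_ _
      have := melB_intble t (1 / P) Θ (fun θ => ee (s * (n - a) * θ))
        (continuous_ee.comp (by fun_prop))
      refine this.congr ?_
      intro θ _
      exact mul_comm _ _
  rw [h1]
  refine (norm_sum_le _ _).trans ?_
  have h3 : ∀ n ∈ Icc 1 N, ‖((f n : ℂ) * ee (n * α)) *
        ∫ θ in (1 / P)..Θ, ee ((s * (n - a)) * θ) * (θ : ℂ) ^ (-(1 / 2 : ℂ) - t * Complex.I)‖
      ≤ Fm * (1 + |t|) * bb P (n - a) := by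
    intro n hn
    rw [norm_mul, norm_mul, Pool.Agent.H91.PK.LSa_norm_ee, mul_one, Complex.norm_real,
      Real.norm_eq_abs]
    have h4 := melB_osc t P Θ (s * (n - a)) hP hΘ0 hΘ
    have h5 : bb P (s * (n - a)) = bb P (n - a) := by
      have h6 : |s * ((n : ℝ) - a)| = |(n : ℝ) - a| := by
        rcases hs with rfl | rfl
        · rw [one_mul]
        · rw [neg_one_mul, abs_neg]
      unfold bb
      rw [h6]
    rw [h5] at h4
    rw [mul_assoc]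
    exact mul_le_mul (hF n hn) h4 (norm_nonneg _) hFm
  refine (sum_le_sum h3).trans ?_
  rw [← mul_sum]
  have h7 := bb_sum N P a hN hP
  calc Fm * (1 + |t|) * ∑ n ∈ Icc 1 N, bb P (n - a)
      ≤ Fm * (1 + |t|) * (30 * Real.sqrt P * (1 + Real.log N)) :=
        mul_le_mul_of_nonneg_left h7 (by positivity)
    _ = 30 * Fm * (1 + |t|) * Real.sqrt P * (1 + Real.log N) := by ring

theorem mel_small (f : ℕ → ℝ) (N : ℕ) (α a Θ s t E Fm P : ℝ) (hN : 1 ≤ N) (hs : s = 1 ∨ s = -1)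
    (hΘ : Θ ≤ 1) (hE : 0 ≤ E) (hP : 1 ≤ P) (hF : ∀ n ∈ Icc 1 N, |f n| ≤ Fm)
    (h : ∀ u, u ≤ N → ‖∑ n ∈ Icc 1 u, (f n : ℂ) * ee (n * α)‖ ≤ E) :
    ‖Mel (gg f N α a Θ s) t‖
      ≤ 2 * (1 + 7 * (1 / P) * N) * E / Real.sqrt P
        + 30 * Fm * (1 + |t|) * Real.sqrt P * (1 + Real.log N) := by
  have hP0 : 0 < P := by linarith
  have ht : 0 ≤ |t| := abs_nonneg t
  have hFm : 0 ≤ Fm := (abs_nonneg _).trans (hF 1 (mem_Icc.mpr ⟨le_rfl, hN⟩))
  have hlog : 0 ≤ Real.log N := Real.log_natCast_nonneg N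
  have hA : 0 ≤ 2 * (1 + 7 * (1 / P) * N) * E / Real.sqrt P := by positivity
  have hB : 0 ≤ 30 * Fm * (1 + |t|) * Real.sqrt P * (1 + Real.log N) := by positivity
  rw [melB_mel]
  rcases le_or_gt Θ 0 with h0 | h0
  · rw [Set.Ioc_eq_empty (by simpa using h0), Measure.restrict_empty, integral_zero_measure,
      norm_zero]
    linarith
  rw [← intervalIntegral.integral_of_le h0.le]
  rcases le_or_gt Θ (1 / P) with h1 | h1
  · have h2 := melB_near f N α a s t E P Θ hs hE hP h0.le h1 h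
    linarith
  · rw [← intervalIntegral.integral_add_adjacent_intervals (b := 1 / P)
      (melB_intble t 0 (1 / P) _ (melB_cont f N α a s))
      (melB_intble t (1 / P) Θ _ (melB_cont f N α a s))]
    refine (norm_add_le _ _).trans (add_le_add ?_ ?_)
    · exact melB_near f N α a s t E P (1 / P) hs hE hP (by positivity) le_rfl h
    · exact melB_far f N α a Θ s t Fm P hN hs h1.le hΘ hP hF

end Pool.Agent.H76.EHB
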