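import Pool.Agent.H76.EHB.Mell

/-!
# EHB Jred: from `JJ` to Mellin transforms

`gg f N α a Θ s` (`s = 1` or `-1`) is `FF(α + s θ) e(-a s θ)` on `(0, Θ]`, zero elsewhere.
For `0 < y ≤ Y` (`K Y ≤ Θ`) the inner sum of `JJ` is `∑_{k ∈ S+} gg_{+}(k y) + ∑_{k ∈ S-} gg_{-}(k y)` with
`S+ = {1 ≤ k ≤ K : d ∣ k - l}`, `S- = {1 ≤ k ≤ K : d ∣ -k - l}` (from `k < 0`); for `y = -z < 0` it is
`∑_{S+} gg_{-}(k z) + ∑_{S-} gg_{+}(k z)`.  Use `|u+v|^2 ≤ 2|u|^2 + 2|v|^2` and enlarge `(0, Y]` to `(0, ∞)`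
(integrable, since the functions are bounded with bounded support).
-/

set_option autoImplicit false

namespace Pool.Agent.H76.EHB

open Finset MeasureTheory
open Pool.Agent.H91.PK (ee)

noncomputable def gg (f : ℕ → ℝ) (N : ℕ) (α a Θ s θ : ℝ) : ℂ :=
  if 0 < θ ∧ θ ≤ Θ then FF f N (α + s * θ) * ee (-(a * s * θ)) else 0

/-- the positive `k ≤ K` with `k ≡ l mod d` -/
def Sp (K d : ℕ) (l : ℤ) : Finset ℕ := (Icc 1 K).filter (fun k => (d : ℤ) ∣ (k : ℤ) - l)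

/-- `∫_0^∞ |∑_{k ∈ S} g(k y)|^2 dy` -/
noncomputable def II (S : Finset ℕ) (g : ℝ → ℂ) : ℝ :=
  ∫ y in Set.Ioi (0 : ℝ), ‖∑ k ∈ S, g (k * y)‖ ^ 2

theorem gg_measurable (f : ℕ → ℝ) (N : ℕ) (α a Θ s : ℝ) : Measurable (gg f N α a Θ s) := by
  unfold gg
  refine Measurable.ite (measurableSet_Ioc (a := (0 : ℝ)) (b := Θ)) ?_ measurable_const
  have h1 : Continuous (fun θ : ℝ => FF f N (α + s * θ)) :=
    (FF_continuous f N).comp (by fun_prop)
  have h2 : Continuous (fun θ : ℝ => ee (-(a * s * θ))) := continuous_ee.comp (by fun_prop)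
  exact (h1.mul h2).measurable

private theorem Jred_norm_ee (t : ℝ) : ‖ee t‖ = 1 := Pool.Agent.H91.PK.LSa_norm_ee t

theorem norm_gg_le (f : ℕ → ℝ) (N : ℕ) (α a Θ s θ : ℝ) :
    ‖gg f N α a Θ s θ‖ ≤ ∑ n ∈ Icc 1 N, |f n| := by
  unfold gg
  split_ifs
  · rw [norm_mul, Jred_norm_ee, mul_one]
    exact norm_FF_le f N _
  · rw [norm_zero]
    exact Finset.sum_nonneg fun _ _ => abs_nonneg _

private theorem Jred_period (f : ℕ → ℝ) (N : ℕ) (α s : ℝ) (hs : s = 1 ∨ s = -1) :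
    ∫ θ in Set.Ioc (0 : ℝ) 1, ‖FF f N (α + s * θ)‖ ^ 2 = S2 f N := by
  rw [← intervalIntegral.integral_of_le zero_le_one]
  rcases hs with rfl | rfl
  · have h := intervalIntegral.integral_comp_add_left (a := 0) (b := 1)
      (fun t => ‖FF f N t‖ ^ 2) α
    simp only [one_mul]
    rw [h, add_zero]
    exact FF_parseval f N α
  · have h := intervalIntegral.integral_comp_sub_left (a := 0) (b := 1)
      (fun t => ‖FF f N t‖ ^ 2) α
    have e : ∀ θ : ℝ, α + -1 * θ = α - θ := fun θ => by ring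
    simp only [e]
    rw [h, sub_zero]
    have h2 := FF_parseval f N (α - 1)
    rwa [sub_add_cancel] at h2

theorem gg_L2 (f : ℕ → ℝ) (N : ℕ) (α a Θ s : ℝ) (hΘ : Θ ≤ 1) (hs : s = 1 ∨ s = -1) :
    ∫ θ in Set.Ioi (0 : ℝ), ‖gg f N α a Θ s θ‖ ^ 2 ≤ S2 f N := by
  rw [← Jred_period f N α s hs]
  have hc : Continuous (fun θ : ℝ => ‖FF f N (α + s * θ)‖ ^ 2) :=
    (((FF_continuous f N).comp (by fun_prop : Continuous fun θ : ℝ => α + s * θ)).norm).pow 2
  have hint : IntegrableOn (fun θ : ℝ => ‖FF f N (α + s * θ)‖ ^ 2) (Set.Ioc (0 : ℝ) 1) :=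
    (hc.integrableOn_Icc (a := 0) (b := 1)).mono_set Set.Ioc_subset_Icc_self
  have hinter : Set.Ioi (0 : ℝ) ∩ Set.Ioc 0 1 = Set.Ioc 0 1 := by
    ext x
    simp only [Set.mem_inter_iff, Set.mem_Ioi, Set.mem_Ioc]
    constructor
    · rintro ⟨_, h⟩
      exact h
    · intro h
      exact ⟨h.1, h⟩
  calc ∫ θ in Set.Ioi (0 : ℝ), ‖gg f N α a Θ s θ‖ ^ 2
      ≤ ∫ θ in Set.Ioi (0 : ℝ),
          (Set.Ioc (0 : ℝ) 1).indicator (fun θ => ‖FF f N (α + s * θ)‖ ^ 2) θ := by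
        apply integral_mono_of_nonneg
        · exact Filter.Eventually.of_forall fun θ => sq_nonneg _
        · rw [integrable_indicator_iff measurableSet_Ioc]
          exact hint.mono_measure Measure.restrict_le_self
        · refine Filter.Eventually.of_forall fun θ => ?_
          simp only
          unfold gg
          split_ifs with h
          · rw [Set.indicator_of_mem (show θ ∈ Set.Ioc (0 : ℝ) 1 from ⟨h.1, h.2.trans hΘ⟩),
              norm_mul, Jred_norm_ee, mul_one]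
          · rw [norm_zero]
            have : 0 ≤ (Set.Ioc (0 : ℝ) 1).indicator
              (fun θ => ‖FF f N (α + s * θ)‖ ^ 2) θ :=
              Set.indicator_nonneg (fun _ _ => sq_nonneg _) θ
            simpa using this
    _ = ∫ θ in Set.Ioc (0 : ℝ) 1, ‖FF f N (α + s * θ)‖ ^ 2 := by
        rw [setIntegral_indicator measurableSet_Ioc, hinter]

private theorem Jred_split (K d : ℕ) (l : ℤ) (F : ℤ → ℂ) :
    ∑ k ∈ (ks K).filter (fun k => (d : ℤ) ∣ k - l), F k =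
      ∑ k ∈ Sp K d l, F (k : ℤ) + ∑ k ∈ Sp K d (-l), F (-(k : ℤ)) := by
  rw [← Finset.sum_filter_add_sum_filter_not _ (fun k : ℤ => 0 < k)]
  congr 1
  · symm
    refine Finset.sum_bij' (fun (k : ℕ) _ => (k : ℤ)) (fun (k : ℤ) _ => k.toNat) ?_ ?_ ?_ ?_ ?_
    · intro k hk
      unfold Sp at hk
      rw [mem_filter, mem_Icc] at hk
      rw [mem_filter, mem_filter, mem_ks]
      refine ⟨⟨⟨by omega, ?_⟩, hk.2⟩, by omega⟩
      rw [abs_of_nonneg (by omega)]
      exact_mod_cast hk.1.2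
    · intro k hk
      rw [mem_filter, mem_filter, mem_ks] at hk
      obtain ⟨⟨⟨h1, h2⟩, h3⟩, h4⟩ := hk
      rw [abs_of_pos h4] at h2
      unfold Sp
      rw [mem_filter, mem_Icc, Int.toNat_of_nonneg h4.le]
      exact ⟨⟨by omega, by omega⟩, h3⟩
    · intro k _
      simp
    · intro k hk
      rw [mem_filter] at hk
      exact Int.toNat_of_nonneg hk.2.le
    · intro k _
      rfl
  · symm
    refine Finset.sum_bij' (fun (k : ℕ) _ => -(k : ℤ)) (fun (k : ℤ) _ => (-k).toNat)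
      ?_ ?_ ?_ ?_ ?_
    · intro k hk
      unfold Sp at hk
      rw [mem_filter, mem_Icc] at hk
      rw [mem_filter, mem_filter, mem_ks]
      refine ⟨⟨⟨by omega, ?_⟩, ?_⟩, by omega⟩
      · rw [abs_neg, abs_of_nonneg (by omega)]
        exact_mod_cast hk.1.2
      · have h := (dvd_neg (α := ℤ)).2 hk.2
        have e : -((k : ℤ) - -l) = -(k : ℤ) - l := by ring
        rwa [e] at h
    · intro k hk
      rw [mem_filter, mem_filter, mem_ks] at hk
      obtain ⟨⟨⟨h1, h2⟩, h3⟩, h4⟩ := hk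
      have h5 : k < 0 := by omega
      rw [abs_of_neg h5] at h2
      unfold Sp
      rw [mem_filter, mem_Icc, Int.toNat_of_nonneg (by omega)]
      refine ⟨⟨by omega, by omega⟩, ?_⟩
      have h := (dvd_neg (α := ℤ)).2 h3
      have e : -(k - l) = -k - -l := by ring
      rwa [e] at h
    · intro k _
      simp
    · intro k hk
      rw [mem_filter, mem_filter, mem_ks] at hk
      have h5 : k < 0 := by omega
      rw [Int.toNat_of_nonneg (by omega)]
      ring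
    · intro k _
      rfl

private theorem Jred_gg_eq (f : ℕ → ℝ) (N K : ℕ) (α a Y Θ s y : ℝ) (hΘ : K * Y ≤ Θ)
    (hy0 : 0 < y) (hyY : y ≤ Y) {k : ℕ} (hk1 : 1 ≤ k) (hkK : k ≤ K) :
    gg f N α a Θ s (k * y) = FF f N (α + s * (k * y)) * ee (-(a * s * (k * y))) := by
  unfold gg
  have hk : (1 : ℝ) ≤ k := by exact_mod_cast hk1
  have hk' : (k : ℝ) ≤ K := by exact_mod_cast hkK
  rw [if_pos]
  constructor
  · positivity
  · calc (k : ℝ) * y ≤ K * Y := mul_le_mul hk' hyY hy0.le (by positivity)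
      _ ≤ Θ := hΘ

private theorem Jred_integrable (S : Finset ℕ) (hS : ∀ k ∈ S, 1 ≤ k) (g : ℝ → ℂ)
    (hg : Measurable g) (B Θ : ℝ) (hB : ∀ θ, ‖g θ‖ ≤ B) (hs : ∀ θ, Θ < θ → g θ = 0) :
    IntegrableOn (fun y => ‖∑ k ∈ S, g (k * y)‖ ^ 2) (Set.Ioi (0 : ℝ)) := by
  have hmeas : Measurable (fun y => ‖∑ k ∈ S, g (k * y)‖ ^ 2) := by
    refine (Measurable.norm (Finset.measurable_sum S fun k _ => ?_)).pow_const 2
    exact hg.comp (measurable_const.mul measurable_id)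
  have h1 : IntegrableOn (fun y => ‖∑ k ∈ S, g (k * y)‖ ^ 2) (Set.Ioc (0 : ℝ) Θ) := by
    refine Measure.integrableOn_of_bounded (M := (∑ _k ∈ S, B) ^ 2) ?_
      hmeas.aestronglyMeasurable ?_
    · rw [Real.volume_Ioc]
      exact ENNReal.ofReal_ne_top
    · refine Filter.Eventually.of_forall fun y => ?_
      rw [Real.norm_eq_abs, abs_of_nonneg (sq_nonneg _)]
      refine pow_le_pow_left₀ (norm_nonneg _) ?_ 2
      exact (norm_sum_le _ _).trans (Finset.sum_le_sum fun k _ => hB _)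
  refine h1.of_forall_sdiff_eq_zero measurableSet_Ioi ?_
  rintro y ⟨hy1, hy2⟩
  have hy1' : 0 < y := hy1
  have hy3 : Θ < y := by
    by_contra hcon
    exact hy2 ⟨hy1', not_lt.1 hcon⟩
  have h0 : ∑ k ∈ S, g (k * y) = 0 := by
    refine Finset.sum_eq_zero fun k hk => hs _ ?_
    have hk' : (1 : ℝ) ≤ k := by exact_mod_cast hS k hk
    nlinarith
  rw [h0, norm_zero]
  norm_num

private theorem Jred_half (S T : Finset ℕ) (hS : ∀ k ∈ S, 1 ≤ k) (hT : ∀ k ∈ T, 1 ≤ k)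
    (g h : ℝ → ℂ) (hg : Measurable g) (hh : Measurable h) (B Θ Y : ℝ) (hB : ∀ θ, ‖g θ‖ ≤ B)
    (hB' : ∀ θ, ‖h θ‖ ≤ B) (hs : ∀ θ, Θ < θ → g θ = 0) (hs' : ∀ θ, Θ < θ → h θ = 0)
    (H : ℝ → ℂ) (hH : ∀ y, 0 < y → y ≤ Y → H y = ∑ k ∈ S, g (k * y) + ∑ k ∈ T, h (k * y)) :
    ∫ y in Set.Ioc (0 : ℝ) Y, ‖H y‖ ^ 2 ≤ 2 * (II S g + II T h) := by
  have i1 := Jred_integrable S hS g hg B Θ hB hs
  have i2 := Jred_integrable T hT h hh B Θ hB' hs'
  have hsub : Set.Ioc (0 : ℝ) Y ⊆ Set.Ioi 0 := fun y hy => hy.1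
  have j1 := i1.mono_set hsub
  have j2 := i2.mono_set hsub
  have m1 : ∫ y in Set.Ioc (0 : ℝ) Y, ‖∑ k ∈ S, g (k * y)‖ ^ 2 ≤ II S g :=
    setIntegral_mono_set i1 (Filter.Eventually.of_forall fun y => sq_nonneg _)
      (HasSubset.Subset.eventuallyLE hsub)
  have m2 : ∫ y in Set.Ioc (0 : ℝ) Y, ‖∑ k ∈ T, h (k * y)‖ ^ 2 ≤ II T h :=
    setIntegral_mono_set i2 (Filter.Eventually.of_forall fun y => sq_nonneg _)
      (HasSubset.Subset.eventuallyLE hsub)
  calc ∫ y in Set.Ioc (0 : ℝ) Y, ‖H y‖ ^ 2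
      ≤ ∫ y in Set.Ioc (0 : ℝ) Y, (2 * ‖∑ k ∈ S, g (k * y)‖ ^ 2 +
          2 * ‖∑ k ∈ T, h (k * y)‖ ^ 2) := by
        apply integral_mono_of_nonneg
        · exact Filter.Eventually.of_forall fun y => sq_nonneg _
        · exact (j1.const_mul 2).add (j2.const_mul 2)
        · refine (ae_restrict_iff' measurableSet_Ioc).2 (Filter.Eventually.of_forall ?_)
          intro y hy
          simp only
          rw [hH y hy.1 hy.2]
          have h1 := norm_add_le (∑ k ∈ S, g (k * y)) (∑ k ∈ T, h (k * y))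
          have h2 := norm_nonneg (∑ k ∈ S, g (k * y) + ∑ k ∈ T, h (k * y))
          nlinarith [sq_nonneg (‖∑ k ∈ S, g (k * y)‖ - ‖∑ k ∈ T, h (k * y)‖),
            norm_nonneg (∑ k ∈ S, g (k * y)), norm_nonneg (∑ k ∈ T, h (k * y))]
    _ = 2 * (∫ y in Set.Ioc (0 : ℝ) Y, ‖∑ k ∈ S, g (k * y)‖ ^ 2) +
          2 * ∫ y in Set.Ioc (0 : ℝ) Y, ‖∑ k ∈ T, h (k * y)‖ ^ 2 := by
        rw [integral_add (j1.const_mul 2) (j2.const_mul 2), integral_const_mul,
          integral_const_mul]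
    _ ≤ 2 * (II S g + II T h) := by linarith

theorem JJ_le (f : ℕ → ℝ) (N K d : ℕ) (l : ℤ) (α a Y Θ : ℝ) (hY : 0 ≤ Y) (hΘ : K * Y ≤ Θ) :
    JJ f N K d l α a Y
      ≤ 2 * (II (Sp K d l) (gg f N α a Θ 1) + II (Sp K d (-l)) (gg f N α a Θ (-1))
          + II (Sp K d l) (gg f N α a Θ (-1)) + II (Sp K d (-l)) (gg f N α a Θ 1)) := by
  obtain ⟨H, hH⟩ : ∃ H : ℝ → ℂ, H = fun y => ∑ k ∈ (ks K).filter (fun k => (d : ℤ) ∣ k - l),
      FF f N (α + k * y) * ee (-(a * k * y)) := ⟨_, rfl⟩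
  have hHc : Continuous H := by
    rw [hH]
    refine continuous_finsetSum _ fun k _ => ?_
    have h1 : Continuous (fun y : ℝ => FF f N (α + k * y)) :=
      (FF_continuous f N).comp (by fun_prop)
    have h2 : Continuous (fun y : ℝ => ee (-(a * k * y))) := continuous_ee.comp (by fun_prop)
    exact h1.mul h2
  have hJJ : JJ f N K d l α a Y = (∫ y in Set.Ioc (0 : ℝ) Y, ‖H y‖ ^ 2) +
      ∫ y in Set.Ioc (0 : ℝ) Y, ‖H (-y)‖ ^ 2 := by
    have h1 : JJ f N K d l α a Y = ∫ y in (-Y)..Y, ‖H y‖ ^ 2 := by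
      rw [intervalIntegral.integral_of_le (by linarith), ← integral_Icc_eq_integral_Ioc, hH]
      rfl
    have hi : ∀ u v : ℝ, IntervalIntegrable (fun y => ‖H y‖ ^ 2) volume u v := fun u v =>
      (hHc.norm.pow 2).intervalIntegrable u v
    rw [h1, ← intervalIntegral.integral_add_adjacent_intervals (hi (-Y) 0) (hi 0 Y),
      ← intervalIntegral.integral_of_le hY, ← intervalIntegral.integral_of_le hY,
      intervalIntegral.integral_comp_neg (fun y => ‖H y‖ ^ 2), neg_zero, add_comm]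
  have hSp : ∀ (l' : ℤ), ∀ k ∈ Sp K d l', 1 ≤ k ∧ k ≤ K := by
    intro l' k hk
    unfold Sp at hk
    rw [mem_filter, mem_Icc] at hk
    exact hk.1
  have hz : ∀ s θ : ℝ, Θ < θ → gg f N α a Θ s θ = 0 := by
    intro s θ hθ
    unfold gg
    rw [if_neg]
    rintro ⟨_, h⟩
    linarith
  have e1 := Jred_half (Sp K d l) (Sp K d (-l)) (fun k hk => (hSp _ k hk).1)
    (fun k hk => (hSp _ k hk).1) (gg f N α a Θ 1) (gg f N α a Θ (-1)) (gg_measurable _ _ _ _ _ _)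
    (gg_measurable _ _ _ _ _ _) (∑ n ∈ Icc 1 N, |f n|) Θ Y (norm_gg_le f N α a Θ 1)
    (norm_gg_le f N α a Θ (-1)) (hz 1) (hz (-1)) H (by
      intro y hy0 hyY
      rw [hH]
      simp only
      rw [Jred_split K d l (fun k => FF f N (α + k * y) * ee (-(a * k * y)))]
      congr 1
      · refine Finset.sum_congr rfl fun k hk => ?_
        rw [Jred_gg_eq f N K α a Y Θ 1 y hΘ hy0 hyY (hSp _ k hk).1 (hSp _ k hk).2]
        push_cast
        congr 2 <;> ring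
      · refine Finset.sum_congr rfl fun k hk => ?_
        rw [Jred_gg_eq f N K α a Y Θ (-1) y hΘ hy0 hyY (hSp _ k hk).1 (hSp _ k hk).2]
        push_cast
        congr 2 <;> ring)
  have e2 := Jred_half (Sp K d l) (Sp K d (-l)) (fun k hk => (hSp _ k hk).1)
    (fun k hk => (hSp _ k hk).1) (gg f N α a Θ (-1)) (gg f N α a Θ 1) (gg_measurable _ _ _ _ _ _)
    (gg_measurable _ _ _ _ _ _) (∑ n ∈ Icc 1 N, |f n|) Θ Y (norm_gg_le f N α a Θ (-1))
    (norm_gg_le f N α a Θ 1) (hz (-1)) (hz 1) (fun y => H (-y)) (by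
      intro y hy0 hyY
      rw [hH]
      simp only
      rw [Jred_split K d l (fun k => FF f N (α + k * -y) * ee (-(a * k * -y)))]
      congr 1
      · refine Finset.sum_congr rfl fun k hk => ?_
        rw [Jred_gg_eq f N K α a Y Θ (-1) y hΘ hy0 hyY (hSp _ k hk).1 (hSp _ k hk).2]
        push_cast
        congr 2 <;> ring
      · refine Finset.sum_congr rfl fun k hk => ?_
        rw [Jred_gg_eq f N K α a Y Θ 1 y hΘ hy0 hyY (hSp _ k hk).1 (hSp _ k hk).2]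
        push_cast
        congr 2 <;> ring)
  rw [hJJ]
  linarith

end Pool.Agent.H76.EHB
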