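import Pool.Agent.H76.EHB.IpB

/-!
# EHB SmallA: pairs with small difference; tails

Fix a real `α` and `d ≥ 1`.
`near_pairs`: pairs `k1, k2 ∈ ks K`, `0 < |k2 - k1| < r0`, `d ∣ k2 - k1`, any measurable `S`:
 each `‖IpS‖ ≤ (Wk + Wk)/2 ≤ 2 A (1/|k1| + 1/|k2|) S2` (`IpS_le`, `Wk_le`; `|k| ≤ K ≤ A ≤ A |r|`), for given `k` there are at most
 `2 r0/d` integers `k'` with `d ∣ k' - k`, `0 < |k' - k| < r0`; so the sum is `≤ 4 A S2 (2 r0/d) ∑_k 1/|k| ≤ 16 A (1 + log K) (r0/d) S2`.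
`equal_pairs`: pairs `k1 = k2 = k`, `S = Icc (-Y) Y`, `K Y ≤ 1/2`: `IpS` is `∫_{|y| ≤ Y} A |FF(α + k y)|^2 dy = (A/|k|) ∫_{|θ| ≤ |k| Y} |FF(α+θ)|^2`
 `≤ (A/|k|) S2` (an interval of length ≤ 1, `FF_parseval`).
-/

set_option autoImplicit false

namespace Pool.Agent.H76.EHB

open Finset MeasureTheory

theorem SmallA_card (K d r0 : ℕ) (hd : 1 ≤ d) (k1 : ℤ) :
    (((ks K).filter (fun k2 => k2 ≠ k1 ∧ (d : ℤ) ∣ k2 - k1 ∧ |k2 - k1| < r0)).card : ℝ)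
      ≤ 2 * ((r0 : ℝ) / d) := by
  have hd0 : (0 : ℤ) < d := by exact_mod_cast hd
  have h1 : ((ks K).filter (fun k2 => k2 ≠ k1 ∧ (d : ℤ) ∣ k2 - k1 ∧ |k2 - k1| < r0)).card ≤
      (ks (r0 / d)).card := by
    apply Finset.card_le_card_of_injOn (fun k2 => (k2 - k1) / (d : ℤ))
    · intro k2 hk2
      obtain ⟨_, h2, ⟨j, hj⟩, h4⟩ := Finset.mem_filter.mp (Finset.mem_coe.mp hk2)
      rw [Finset.mem_coe, mem_ks]
      show (k2 - k1) / (d : ℤ) ≠ 0 ∧ |(k2 - k1) / (d : ℤ)| ≤ ((r0 / d : ℕ) : ℤ)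
      rw [hj, Int.mul_ediv_cancel_left _ hd0.ne']
      refine ⟨?_, ?_⟩
      · rintro rfl
        apply h2
        rw [mul_zero] at hj
        omega
      · rw [hj, abs_mul, abs_of_pos hd0] at h4
        push_cast
        rw [Int.le_ediv_iff_mul_le hd0, mul_comm]
        exact h4.le
    · intro a ha b hb hab
      obtain ⟨_, _, ⟨j, hj⟩, _⟩ := Finset.mem_filter.mp (Finset.mem_coe.mp ha)
      obtain ⟨_, _, ⟨i, hi⟩, _⟩ := Finset.mem_filter.mp (Finset.mem_coe.mp hb)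
      have hab' : (a - k1) / (d : ℤ) = (b - k1) / (d : ℤ) := hab
      rw [hj, hi, Int.mul_ediv_cancel_left _ hd0.ne', Int.mul_ediv_cancel_left _ hd0.ne'] at hab'
      rw [hab'] at hj
      omega
  rw [card_ks] at h1
  calc (((ks K).filter (fun k2 => k2 ≠ k1 ∧ (d : ℤ) ∣ k2 - k1 ∧ |k2 - k1| < r0)).card : ℝ)
      ≤ ((2 * (r0 / d) : ℕ) : ℝ) := by exact_mod_cast h1
    _ = 2 * ((r0 / d : ℕ) : ℝ) := by push_cast; ring
    _ ≤ 2 * ((r0 : ℝ) / d) := by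
        have := @Nat.cast_div_le ℝ _ _ _ r0 d
        linarith

theorem near_pairs (f : ℕ → ℝ) (N K d r0 : ℕ) (A α : ℝ) (a0 : ℤ) (hK : 1 ≤ K) (hKA : (K : ℝ) ≤ A)
    (hd : 1 ≤ d) (S : Set ℝ) (hS : MeasurableSet S) :
    ∑ k1 ∈ ks K, ∑ k2 ∈ (ks K).filter (fun k2 => k2 ≠ k1 ∧ (d : ℤ) ∣ k2 - k1 ∧ |k2 - k1| < r0),
      ‖IpS f N A a0 α k1 k2 S‖ ≤ 16 * A * (1 + Real.log K) * ((r0 : ℝ) / d) * S2 f N := by
  have hK1 : (1 : ℝ) ≤ K := by exact_mod_cast hK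
  have hA : 0 < A := by linarith
  have hS2 := S2_nonneg f N
  set T : ℤ → Finset ℤ := fun k1 =>
    (ks K).filter (fun k2 => k2 ≠ k1 ∧ (d : ℤ) ∣ k2 - k1 ∧ |k2 - k1| < r0) with hT
  have hb : ∀ k1 ∈ ks K, ∀ k2 ∈ T k1, ‖IpS f N A a0 α k1 k2 S‖ ≤
      (2 * A * S2 f N) * (1 / |(k1 : ℝ)|) + (2 * A * S2 f N) * (1 / |(k2 : ℝ)|) := by
    intro k1 hk1 k2 hk2
    obtain ⟨hk2', hne, _, _⟩ := Finset.mem_filter.mp hk2
    have h1 := IpS_le f N A α hA a0 k1 k2 (Ne.symm hne) S hS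
    have hr : (1 : ℝ) ≤ |((k2 - k1 : ℤ) : ℝ)| := by
      have h2 : (1 : ℤ) ≤ |k2 - k1| := Int.one_le_abs (sub_ne_zero.mpr hne)
      exact_mod_cast h2
    have hW : ∀ k ∈ ks K, Wk f N A α k ((k2 - k1 : ℤ) : ℝ) S ≤ 4 * (A / |(k : ℝ)|) * S2 f N := by
      intro k hk
      obtain ⟨hk0, hkK⟩ := mem_ks.mp hk
      apply Wk_le f N A α k _ hA (by exact_mod_cast hk0) _ S hS
      have h3 : |(k : ℝ)| ≤ K := by exact_mod_cast hkK
      nlinarith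
    have h4 := hW k1 hk1
    have h5 := hW k2 hk2'
    have e1 : 4 * (A / |(k1 : ℝ)|) * S2 f N = 2 * ((2 * A * S2 f N) * (1 / |(k1 : ℝ)|)) := by ring
    have e2 : 4 * (A / |(k2 : ℝ)|) * S2 f N = 2 * ((2 * A * S2 f N) * (1 / |(k2 : ℝ)|)) := by ring
    linarith
  have h1 : ∑ k1 ∈ ks K, ∑ k2 ∈ T k1, ‖IpS f N A a0 α k1 k2 S‖ ≤
      ∑ k1 ∈ ks K, ∑ k2 ∈ T k1,
        ((2 * A * S2 f N) * (1 / |(k1 : ℝ)|) + (2 * A * S2 f N) * (1 / |(k2 : ℝ)|)) :=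
    Finset.sum_le_sum fun k1 hk1 => Finset.sum_le_sum fun k2 hk2 => hb k1 hk1 k2 hk2
  have h2 : ∑ k1 ∈ ks K, ∑ k2 ∈ T k1, (2 * A * S2 f N) * (1 / |(k2 : ℝ)|) =
      ∑ k2 ∈ ks K, ∑ k1 ∈ T k2, (2 * A * S2 f N) * (1 / |(k2 : ℝ)|) := by
    apply Finset.sum_comm'
    intro x y
    simp only [hT, Finset.mem_filter]
    constructor
    · rintro ⟨hx, hy, h3, h4, h5⟩
      refine ⟨⟨hx, fun h => h3 h.symm, ?_, ?_⟩, hy⟩
      · rw [← neg_sub]; exact (dvd_neg).mpr h4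
      · rw [abs_sub_comm]; exact h5
    · rintro ⟨⟨hx, h3, h4, h5⟩, hy⟩
      refine ⟨hx, hy, fun h => h3 h.symm, ?_, ?_⟩
      · rw [← neg_sub]; exact (dvd_neg).mpr h4
      · rw [abs_sub_comm]; exact h5
  have h3 : ∑ k1 ∈ ks K, ∑ k2 ∈ T k1,
        ((2 * A * S2 f N) * (1 / |(k1 : ℝ)|) + (2 * A * S2 f N) * (1 / |(k2 : ℝ)|)) =
      2 * ∑ k1 ∈ ks K, ((T k1).card : ℝ) * ((2 * A * S2 f N) * (1 / |(k1 : ℝ)|)) := by
    simp_rw [Finset.sum_add_distrib]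
    rw [h2]
    simp_rw [Finset.sum_const, nsmul_eq_mul]
    ring
  have h4 : ∑ k1 ∈ ks K, ((T k1).card : ℝ) * ((2 * A * S2 f N) * (1 / |(k1 : ℝ)|)) ≤
      ∑ k1 ∈ ks K, (2 * ((r0 : ℝ) / d)) * ((2 * A * S2 f N) * (1 / |(k1 : ℝ)|)) := by
    apply Finset.sum_le_sum
    intro k1 _
    apply mul_le_mul_of_nonneg_right (SmallA_card K d r0 hd k1)
    positivity
  have h5 : ∑ k1 ∈ ks K, (2 * ((r0 : ℝ) / d)) * ((2 * A * S2 f N) * (1 / |(k1 : ℝ)|)) =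
      (4 * A * S2 f N * ((r0 : ℝ) / d)) * ∑ k1 ∈ ks K, 1 / |(k1 : ℝ)| := by
    rw [Finset.mul_sum]
    refine Finset.sum_congr rfl fun k1 _ => ?_
    ring
  have h6 : (4 * A * S2 f N * ((r0 : ℝ) / d)) * ∑ k1 ∈ ks K, 1 / |(k1 : ℝ)| ≤
      (4 * A * S2 f N * ((r0 : ℝ) / d)) * (2 * (1 + Real.log K)) := by
    apply mul_le_mul_of_nonneg_left (sum_inv_ks K hK)
    positivity
  calc ∑ k1 ∈ ks K, ∑ k2 ∈ T k1, ‖IpS f N A a0 α k1 k2 S‖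
      ≤ 2 * ((4 * A * S2 f N * ((r0 : ℝ) / d)) * (2 * (1 + Real.log K))) := by linarith
    _ = 16 * A * (1 + Real.log K) * ((r0 : ℝ) / d) * S2 f N := by ring

theorem SmallA_window (f : ℕ → ℝ) (N : ℕ) (u v : ℝ) (huv : u ≤ v) (hv : v ≤ u + 1) :
    ∫ t in u..v, ‖FF f N t‖ ^ 2 ≤ S2 f N := by
  rw [← FF_parseval f N u]
  apply intervalIntegral.integral_mono_interval le_rfl huv hv
  · exact Filter.Eventually.of_forall fun t => by positivity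
  · exact (((FF_continuous f N).norm).pow 2).intervalIntegrable _ _

theorem SmallA_scale (f : ℕ → ℝ) (N : ℕ) (α c Y : ℝ) (hc : c ≠ 0) (hY : 0 ≤ Y)
    (hcY : |c| * Y ≤ 1 / 2) :
    ∫ y in (-Y)..Y, ‖FF f N (α + c * y)‖ ^ 2 ≤ (1 / |c|) * S2 f N := by
  have h1 := intervalIntegral.integral_comp_add_mul (a := -Y) (b := Y)
    (fun t => ‖FF f N t‖ ^ 2) hc α
  rw [h1, smul_eq_mul]
  rcases lt_or_gt_of_ne hc with h | h
  · rw [abs_of_neg h] at hcY ⊢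
    rw [intervalIntegral.integral_symm]
    have h2 := SmallA_window f N (α + c * Y) (α + c * -Y) (by nlinarith) (by nlinarith)
    have h3 : (0 : ℝ) < 1 / -c := one_div_pos.mpr (by linarith)
    have e : c⁻¹ * -(∫ t in (α + c * Y)..(α + c * -Y), ‖FF f N t‖ ^ 2) =
        (1 / -c) * ∫ t in (α + c * Y)..(α + c * -Y), ‖FF f N t‖ ^ 2 := by
      rw [one_div, inv_neg]; ring
    rw [e]
    exact mul_le_mul_of_nonneg_left h2 h3.le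
  · rw [abs_of_pos h] at hcY ⊢
    have h2 := SmallA_window f N (α + c * -Y) (α + c * Y) (by nlinarith) (by nlinarith)
    rw [one_div]
    exact mul_le_mul_of_nonneg_left h2 (inv_nonneg.mpr h.le)

theorem equal_pairs (f : ℕ → ℝ) (N K : ℕ) (A α Y : ℝ) (a0 : ℤ) (hK : 1 ≤ K) (hA : 0 < A)
    (hY : 0 ≤ Y) (hKY : K * Y ≤ 1 / 2) :
    ∑ k ∈ ks K, ‖IpS f N A a0 α k k (Set.Icc (-Y) Y)‖ ≤ 2 * A * (1 + Real.log K) * S2 f N := by
  have hS2 := S2_nonneg f N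
  have h1 : ∀ k ∈ ks K, ‖IpS f N A a0 α k k (Set.Icc (-Y) Y)‖ ≤ (A * S2 f N) * (1 / |(k : ℝ)|) := by
    intro k hk
    obtain ⟨hk0, hkK⟩ := mem_ks.mp hk
    have hk0' : (k : ℝ) ≠ 0 := by exact_mod_cast hk0
    have hkK' : |(k : ℝ)| ≤ K := by exact_mod_cast hkK
    unfold IpS
    refine (norm_integral_le_integral_norm _).trans ?_
    have h2 : ∀ y : ℝ, ‖((A * Real.exp (-Real.pi * (A * ((k - k : ℤ) : ℝ) * y) ^ 2) : ℝ) : ℂ)
        * Pool.Agent.H91.PK.ee (-((a0 : ℝ) * ((k - k : ℤ) : ℝ) * y))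
        * (FF f N (α + k * y) * (starRingEnd ℂ) (FF f N (α + k * y)))‖ =
        A * ‖FF f N (α + k * y)‖ ^ 2 := by
      intro y
      rw [norm_mul, norm_mul, norm_mul, Pool.Agent.H91.PK.LSa_norm_ee, Complex.norm_real,
        RCLike.norm_conj, sub_self]
      simp [abs_of_pos hA, pow_two]
    simp_rw [h2]
    rw [MeasureTheory.integral_Icc_eq_integral_Ioc, ← intervalIntegral.integral_of_le (by linarith),
      intervalIntegral.integral_const_mul]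
    have h3 := SmallA_scale f N α k Y hk0' hY (by nlinarith)
    calc A * ∫ y in (-Y)..Y, ‖FF f N (α + k * y)‖ ^ 2 ≤ A * ((1 / |(k : ℝ)|) * S2 f N) :=
          mul_le_mul_of_nonneg_left h3 hA.le
      _ = (A * S2 f N) * (1 / |(k : ℝ)|) := by ring
  refine (Finset.sum_le_sum h1).trans ?_
  rw [← Finset.mul_sum]
  calc (A * S2 f N) * ∑ k ∈ ks K, 1 / |(k : ℝ)| ≤ (A * S2 f N) * (2 * (1 + Real.log K)) :=
        mul_le_mul_of_nonneg_left (sum_inv_ks K hK) (by positivity)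
    _ = 2 * A * (1 + Real.log K) * S2 f N := by ring

end Pool.Agent.H76.EHB
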