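import Pool.Agent.H76.EHB.Planch

/-!
# EHB Mell: Mellin transform on the line 1/2

`Mel g t = ∫_0^∞ g(θ) θ^{-1/2 - i t} dθ` (Mathlib's `mellin g (1/2 - t i)`).
`mel_planch`: with `G(u) = exp(-u/2) g(exp(-u))`, Mathlib's `mellin_eq_fourier` gives
`mellin g (1/2 - i t) = Ĝ(-t/(2π))`.  `g` bounded by `B`, zero outside `(0, Θ]`: `G` is integrable and square integrable,
`∫ |G|^2 du = ∫_0^∞ |g|^2 dθ` (substitution `θ = exp(-u)`), so `planch` and the substitution `ξ = -t/(2π)` give the claim.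
`mel_sum`: `mellin_comp_mul_left`.  `int_sum_sq`: combine (the function `∑ g(k ·)` is again bounded with bounded support).
-/

set_option autoImplicit false

namespace Pool.Agent.H76.EHB

open Finset MeasureTheory
open Pool.Agent.H91.PK (ee)

/-- Mellin transform at `1/2 - i t` -/
noncomputable def Mel (g : ℝ → ℂ) (t : ℝ) : ℂ := mellin g (1 / 2 - t * Complex.I)

/-- `∑_{k ∈ S} k^{-1/2 + i t}` -/
noncomputable def ZZ (S : Finset ℕ) (t : ℝ) : ℂ := ∑ k ∈ S, (k : ℂ) ^ (-(1 / 2 : ℂ) + t * Complex.I)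

private theorem mell_integrable {E : Type*} [NormedAddCommGroup E] {f : ℝ → E}
    (hf : AEStronglyMeasurable f) {b C a : ℝ} (hb : 0 < b) (h1 : ∀ u, ‖f u‖ ≤ C * Real.exp (-b * u))
    (h2 : ∀ u, u ≤ a → f u = 0) : Integrable f := by
  have hI : Integrable (Set.indicator (Set.Ioi a) (fun u => C * Real.exp (-b * u))) :=
    (integrable_indicator_iff measurableSet_Ioi).2 ((exp_neg_integrableOn_Ioi a hb).const_mul C)
  refine hI.mono' hf (Filter.Eventually.of_forall fun u => ?_)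
  by_cases hu : u ≤ a
  · rw [h2 u hu, norm_zero, Set.indicator_of_notMem (by simpa using hu)]
  · rw [Set.indicator_of_mem (by simpa using lt_of_not_ge hu)]
    exact h1 u

private theorem mell_subst (h : ℝ → ℝ) :
    ∫ θ in Set.Ioi (0 : ℝ), h θ = ∫ u, Real.exp (-u) * h (Real.exp (-u)) := by
  have him : (Real.exp ∘ Neg.neg) '' (Set.univ : Set ℝ) = Set.Ioi 0 := by
    rw [Set.image_comp, Set.image_univ_of_surjective neg_surjective, Set.image_univ, Real.range_exp]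
  have hder : ∀ x ∈ (Set.univ : Set ℝ),
      HasDerivWithinAt (Real.exp ∘ Neg.neg) (-Real.exp (-x)) Set.univ x := fun x _ =>
    mul_neg_one (Real.exp (-x)) ▸
      ((Real.hasDerivAt_exp (-x)).comp x (hasDerivAt_neg x)).hasDerivWithinAt
  have hinj : Set.InjOn (Real.exp ∘ Neg.neg) (Set.univ : Set ℝ) :=
    (Real.exp_injective.comp neg_injective).injOn
  rw [← him, integral_image_eq_integral_abs_deriv_smul MeasurableSet.univ hder hinj]
  simp

/-- the function `exp(-u/2) g(exp(-u))` -/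
private noncomputable def GG (g : ℝ → ℂ) (u : ℝ) : ℂ :=
  (Real.exp (-(1 / 2) * u) : ℝ) • g (Real.exp (-u))

private theorem GG_measurable (g : ℝ → ℂ) (hg : Measurable g) : Measurable (GG g) := by
  unfold GG
  exact (by fun_prop : Measurable fun u : ℝ => (Real.exp (-(1 / 2) * u) : ℝ)).smul
    (hg.comp (by fun_prop))

private theorem GG_norm (g : ℝ → ℂ) (u : ℝ) :
    ‖GG g u‖ = Real.exp (-(1 / 2) * u) * ‖g (Real.exp (-u))‖ := by
  unfold GG
  rw [norm_smul, Real.norm_of_nonneg (Real.exp_pos _).le]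

private theorem GG_norm_sq (g : ℝ → ℂ) (u : ℝ) :
    ‖GG g u‖ ^ 2 = Real.exp (-u) * ‖g (Real.exp (-u))‖ ^ 2 := by
  rw [GG_norm, mul_pow, ← Real.exp_nat_mul]
  congr 2
  push_cast
  ring

private theorem GG_zero (g : ℝ → ℂ) (Θ : ℝ) (hs : ∀ θ, Θ < θ → g θ = 0) (u : ℝ)
    (hu : u ≤ -Real.log (max Θ 1) - 1) : GG g u = 0 := by
  unfold GG
  rw [hs, smul_zero]
  have h1 : Real.log (max Θ 1) < -u := by linarith
  have h2 : (0 : ℝ) < max Θ 1 := lt_of_lt_of_le one_pos (le_max_right _ _)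
  exact lt_of_le_of_lt (le_max_left _ _) ((Real.log_lt_iff_lt_exp h2).1 h1)

private theorem GG_integrable (g : ℝ → ℂ) (hg : Measurable g) (B Θ : ℝ) (hB : ∀ θ, ‖g θ‖ ≤ B)
    (hs : ∀ θ, Θ < θ → g θ = 0) : Integrable (GG g) := by
  refine mell_integrable (GG_measurable g hg).aestronglyMeasurable (b := 1 / 2) (C := B)
    (a := -Real.log (max Θ 1) - 1) (by norm_num) (fun u => ?_) (GG_zero g Θ hs)
  rw [GG_norm, mul_comm]
  exact mul_le_mul_of_nonneg_right (hB _) (Real.exp_pos _).le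

private theorem GG_memLp (g : ℝ → ℂ) (hg : Measurable g) (B Θ : ℝ) (hB : ∀ θ, ‖g θ‖ ≤ B)
    (hs : ∀ θ, Θ < θ → g θ = 0) : MemLp (GG g) 2 := by
  rw [memLp_two_iff_integrable_sq_norm (GG_measurable g hg).aestronglyMeasurable]
  refine mell_integrable ((GG_measurable g hg).norm.pow_const 2).aestronglyMeasurable
    (b := 1) (C := B ^ 2) (a := -Real.log (max Θ 1) - 1) one_pos (fun u => ?_) (fun u hu => ?_)
  · rw [Real.norm_of_nonneg (sq_nonneg _), GG_norm_sq, mul_comm, neg_one_mul]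
    refine mul_le_mul_of_nonneg_right ?_ (Real.exp_pos _).le
    exact pow_le_pow_left₀ (norm_nonneg _) (hB _) 2
  · rw [GG_zero g Θ hs u hu, norm_zero]
    norm_num

private theorem Mel_eq (g : ℝ → ℂ) (t : ℝ) :
    Mel g t = ∫ u, GG g u * ee (-(u * (-(1 / (2 * Real.pi)) * t))) := by
  unfold Mel
  rw [mellin_eq_fourier, Real.fourier_real_eq_integral_exp_smul]
  refine integral_congr_ae (Filter.Eventually.of_forall fun u => ?_)
  have hre : ((1 / 2 : ℂ) - t * Complex.I).re = 1 / 2 := by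
    simp
  have him : ((1 / 2 : ℂ) - t * Complex.I).im = -t := by
    simp
  simp only [hre, him]
  rw [smul_eq_mul, mul_comm]
  unfold GG ee
  congr 2
  push_cast
  ring

theorem mel_planch (g : ℝ → ℂ) (hg : Measurable g) (B Θ : ℝ) (hB : ∀ θ, ‖g θ‖ ≤ B)
    (hs : ∀ θ, Θ < θ → g θ = 0) :
    Integrable (fun t => ‖Mel g t‖ ^ 2) ∧
      ∫ t, ‖Mel g t‖ ^ 2 = 2 * Real.pi * ∫ θ in Set.Ioi (0 : ℝ), ‖g θ‖ ^ 2 := by
  obtain ⟨h1, h2⟩ := planch (GG g) (GG_integrable g hg B Θ hB hs) (GG_memLp g hg B Θ hB hs)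
  have hpi : (0 : ℝ) < 2 * Real.pi := by positivity
  have ha : -(1 / (2 * Real.pi)) ≠ 0 := neg_ne_zero.2 (by positivity)
  have hfun : (fun t => ‖Mel g t‖ ^ 2) =
      fun t => (fun ξ : ℝ => ‖∫ u, GG g u * ee (-(u * ξ))‖ ^ 2) (-(1 / (2 * Real.pi)) * t) := by
    funext t
    rw [Mel_eq]
  rw [hfun]
  refine ⟨h1.comp_mul_left' ha, ?_⟩
  rw [Measure.integral_comp_mul_left
    (fun ξ : ℝ => ‖∫ u, GG g u * ee (-(u * ξ))‖ ^ 2) (-(1 / (2 * Real.pi))), h2, smul_eq_mul]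
  congr 1
  · rw [inv_neg, one_div, inv_inv, abs_neg, abs_of_pos hpi]
  · rw [mell_subst (fun θ => ‖g θ‖ ^ 2)]
    exact integral_congr_ae (Filter.Eventually.of_forall fun u => GG_norm_sq g u)

private theorem mell_conv (g : ℝ → ℂ) (hg : Measurable g) (B Θ : ℝ) (hB : ∀ θ, ‖g θ‖ ≤ B)
    (hs : ∀ θ, Θ < θ → g θ = 0) (t : ℝ) : MellinConvergent g (1 / 2 - t * Complex.I) := by
  unfold MellinConvergent
  have hmeas : AEStronglyMeasurable
      (fun θ : ℝ => (θ : ℂ) ^ ((1 / 2 : ℂ) - t * Complex.I - 1) • g θ)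
      (volume.restrict (Set.Ioi 0)) := by
    have hc : AEStronglyMeasurable (fun θ : ℝ => (θ : ℂ) ^ ((1 / 2 : ℂ) - t * Complex.I - 1))
        (volume.restrict (Set.Ioi 0)) := ?_
    · exact hc.smul hg.aestronglyMeasurable
    refine ContinuousOn.aestronglyMeasurable ?_ measurableSet_Ioi
    intro θ hθ
    exact (Complex.continuousAt_ofReal_cpow_const θ _ (Or.inr (ne_of_gt hθ))).continuousWithinAt
  have hB0 : 0 ≤ B := (norm_nonneg _).trans (hB 0)
  have hI : IntegrableOn (Set.indicator (Set.Ioc 0 (max Θ 1)) (fun θ : ℝ => θ ^ (-(1 / 2) : ℝ) * B))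
      (Set.Ioi 0) := by
    refine Integrable.integrableOn ?_
    rw [integrable_indicator_iff measurableSet_Ioc]
    have h0 : (0 : ℝ) ≤ max Θ 1 := le_trans zero_le_one (le_max_right _ _)
    have := (intervalIntegrable_iff_integrableOn_Ioc_of_le h0).1
      (intervalIntegral.intervalIntegrable_rpow' (r := -(1 / 2)) (a := 0) (b := max Θ 1)
        (by norm_num))
    exact this.mul_const B
  refine Integrable.mono' hI hmeas ?_
  refine (ae_restrict_iff' measurableSet_Ioi).2 (Filter.Eventually.of_forall fun θ hθ => ?_)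
  have hθ' : (0 : ℝ) < θ := hθ
  by_cases h : θ ≤ max Θ 1
  · rw [Set.indicator_of_mem (show θ ∈ Set.Ioc 0 (max Θ 1) from ⟨hθ', h⟩), norm_smul,
      Complex.norm_cpow_eq_rpow_re_of_pos hθ']
    have hre : ((1 / 2 : ℂ) - t * Complex.I - 1).re = -(1 / 2) := by
      simp
      norm_num
    rw [hre]
    exact mul_le_mul_of_nonneg_left (hB θ) (Real.rpow_nonneg hθ'.le _)
  · rw [hs θ (lt_of_le_of_lt (le_max_left _ _) (lt_of_not_ge h)), smul_zero, norm_zero]
    exact Set.indicator_nonneg (fun x hx => mul_nonneg (Real.rpow_nonneg hx.1.le _) hB0) θ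

theorem mel_sum (S : Finset ℕ) (hS : ∀ k ∈ S, 1 ≤ k) (g : ℝ → ℂ) (hg : Measurable g) (B Θ : ℝ)
    (hB : ∀ θ, ‖g θ‖ ≤ B) (hs : ∀ θ, Θ < θ → g θ = 0) (t : ℝ) :
    Mel (fun y => ∑ k ∈ S, g (k * y)) t = ZZ S t * Mel g t := by
  unfold Mel ZZ
  have hconv := mell_conv g hg B Θ hB hs t
  rw [sum_mul]
  have h1 : mellin (fun y => ∑ k ∈ S, g (k * y)) (1 / 2 - t * Complex.I) =
      ∑ k ∈ S, mellin (fun y => g (k * y)) (1 / 2 - t * Complex.I) := by
    unfold mellin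
    simp only [smul_sum]
    refine integral_finsetSum S fun k hk => ?_
    have hk0 : (0 : ℝ) < k := by exact_mod_cast hS k hk
    exact (MellinConvergent.comp_mul_left hk0).2 hconv
  rw [h1]
  refine sum_congr rfl fun k hk => ?_
  have hk0 : (0 : ℝ) < k := by exact_mod_cast hS k hk
  rw [mellin_comp_mul_left g _ hk0, smul_eq_mul]
  congr 1
  push_cast
  congr 1
  ring

theorem int_sum_sq (S : Finset ℕ) (hS : ∀ k ∈ S, 1 ≤ k) (g : ℝ → ℂ) (hg : Measurable g) (B Θ : ℝ)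
    (hB : ∀ θ, ‖g θ‖ ≤ B) (hs : ∀ θ, Θ < θ → g θ = 0) :
    Integrable (fun t => ‖ZZ S t‖ ^ 2 * ‖Mel g t‖ ^ 2) ∧
    ∫ y in Set.Ioi (0 : ℝ), ‖∑ k ∈ S, g (k * y)‖ ^ 2
      = 1 / (2 * Real.pi) * ∫ t, ‖ZZ S t‖ ^ 2 * ‖Mel g t‖ ^ 2 := by
  have hfun : (fun t => ‖ZZ S t‖ ^ 2 * ‖Mel g t‖ ^ 2) =
      fun t => ‖Mel (fun y => ∑ k ∈ S, g (k * y)) t‖ ^ 2 := by
    funext t
    rw [mel_sum S hS g hg B Θ hB hs t, norm_mul, mul_pow]
  have hm : Measurable (fun y : ℝ => ∑ k ∈ S, g (k * y)) :=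
    Finset.measurable_sum S fun k _ => hg.comp (by fun_prop)
  have hb : ∀ y : ℝ, ‖∑ k ∈ S, g (k * y)‖ ≤ S.card * B := by
    intro y
    refine (norm_sum_le _ _).trans ?_
    have h3 : ∑ k ∈ S, ‖g ((k : ℝ) * y)‖ ≤ ∑ _k ∈ S, B := sum_le_sum fun k _ => hB (k * y)
    refine h3.trans ?_
    rw [sum_const, nsmul_eq_mul]
  have hz : ∀ y : ℝ, max Θ 0 < y → ∑ k ∈ S, g (k * y) = 0 := by
    intro y hy
    have hy0 : 0 < y := lt_of_le_of_lt (le_max_right _ _) hy
    have hyT : Θ < y := lt_of_le_of_lt (le_max_left _ _) hy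
    refine sum_eq_zero fun k hk => hs _ ?_
    have hk1 : (1 : ℝ) ≤ k := by exact_mod_cast hS k hk
    nlinarith
  obtain ⟨h1, h2⟩ := mel_planch (fun y => ∑ k ∈ S, g (k * y)) hm (S.card * B) (max Θ 0) hb hz
  rw [hfun]
  refine ⟨h1, ?_⟩
  rw [h2]
  have hpi : (2 * Real.pi) ≠ 0 := by positivity
  field_simp

end Pool.Agent.H76.EHB
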