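import Pool.Agent.H76.EHB.Defs

/-!
# EHB Gs: Gaussian sum over spaced points

For points `α i` (`i ∈ J`) with pairwise distances `≥ δ` and any centre `c`:
`∑_i exp(-π (λ (α i - c))^2) ≤ 2 + 2/(λ δ)`.

Proof.  Split `J` into the points with `α i ≥ c` and the points with `α i < c`.  On the right the map
`i ↦ floor((α i - c)/δ)` is injective, and `∑_j exp(-π (λ δ j)^2) ≤ 1 + ∫_0^∞ exp(-π (λ δ t)^2) dt = 1 + 1/(2 λ δ)`.
-/

set_option autoImplicit false

namespace Pool.Agent.H76.EHB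

open Finset

private lemma gs_sum (a : ℝ) (ha : 0 < a) (M : ℕ) :
    ∑ j ∈ range M, Real.exp (-Real.pi * (a * j) ^ 2) ≤ 1 + 1 / (2 * a) := by
  have h0 : ∀ j : ℕ, 0 ≤ Real.exp (-Real.pi * (a * j) ^ 2) := fun j => (Real.exp_pos _).le
  have h1 : ∑ j ∈ range M, Real.exp (-Real.pi * (a * j) ^ 2)
      ≤ ∑ j ∈ range (M + 1), Real.exp (-Real.pi * (a * j) ^ 2) :=
    Finset.sum_le_sum_of_subset_of_nonneg (Finset.range_mono (Nat.le_succ _)) fun j _ _ => h0 j
  refine h1.trans ?_
  rw [Finset.sum_range_succ']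
  have hanti : AntitoneOn (fun x : ℝ => Real.exp (-Real.pi * (a * x) ^ 2)) (Set.Icc 0 (0 + (M : ℝ))) := by
    intro x hx y hy hxy
    simp only
    apply Real.exp_le_exp.mpr
    have h2 : (a * x) ^ 2 ≤ (a * y) ^ 2 := by
      apply pow_le_pow_left₀
      · exact mul_nonneg ha.le hx.1
      · exact mul_le_mul_of_nonneg_left hxy ha.le
    nlinarith [Real.pi_pos]
  have h3 := hanti.sum_le_integral
  have h4 : ∫ x in (0 : ℝ)..(0 + (M : ℝ)), Real.exp (-Real.pi * (a * x) ^ 2) ≤ 1 / (2 * a) := by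
    have hform : (fun x : ℝ => Real.exp (-Real.pi * (a * x) ^ 2))
        = fun x : ℝ => Real.exp (-(Real.pi * a ^ 2) * x ^ 2) := by
      funext x; congr 1; ring
    have hb : 0 < Real.pi * a ^ 2 := by positivity
    have hint : MeasureTheory.Integrable (fun x : ℝ => Real.exp (-Real.pi * (a * x) ^ 2)) := by
      rw [hform]; exact integrable_exp_neg_mul_sq hb
    have h5 : ∫ x in Set.Ioi (0 : ℝ), Real.exp (-Real.pi * (a * x) ^ 2) = 1 / (2 * a) := by
      rw [hform, integral_gaussian_Ioi]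
      have : Real.pi / (Real.pi * a ^ 2) = (1 / a) ^ 2 := by
        have := Real.pi_pos.ne'
        field_simp
      rw [this, Real.sqrt_sq (by positivity)]
      field_simp
    rw [intervalIntegral.integral_of_le (by positivity), ← h5]
    apply MeasureTheory.setIntegral_mono_set hint.integrableOn
    · exact Filter.Eventually.of_forall fun x => (Real.exp_pos _).le
    · exact (Set.Ioc_subset_Ioi_self).eventuallyLE
  have h5 : ∑ j ∈ range M, Real.exp (-Real.pi * (a * ((j + 1 : ℕ) : ℝ)) ^ 2) ≤ 1 / (2 * a) := by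
    refine le_trans (le_of_eq ?_) (h3.trans h4)
    refine Finset.sum_congr rfl fun j _ => ?_
    rw [zero_add]
  simp only [Nat.cast_zero, mul_zero]
  have h6 : Real.exp (-Real.pi * 0 ^ 2) = 1 := by simp
  rw [h6]
  linarith

private lemma gs_half {ι : Type*} (J : Finset ι) (α : ι → ℝ) (δ lam c : ℝ) (hδ : 0 < δ)
    (hlam : 0 < lam) (hsep : ∀ i ∈ J, ∀ j ∈ J, i ≠ j → δ ≤ |α i - α j|) (hc : ∀ i ∈ J, c ≤ α i) :
    ∑ i ∈ J, Real.exp (-Real.pi * (lam * (α i - c)) ^ 2) ≤ 1 + 1 / (2 * (lam * δ)) := by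
  classical
  set g : ι → ℕ := fun i => ⌊(α i - c) / δ⌋₊ with hg
  have hinj : Set.InjOn g J := by
    intro i hi j hj hij
    by_contra hne
    have h1 := hsep i hi j hj hne
    have hi0 : 0 ≤ (α i - c) / δ := div_nonneg (sub_nonneg.2 (hc i hi)) hδ.le
    have hj0 : 0 ≤ (α j - c) / δ := div_nonneg (sub_nonneg.2 (hc j hj)) hδ.le
    have a1 := Nat.floor_le hi0
    have a2 := Nat.lt_floor_add_one ((α i - c) / δ)
    have b1 := Nat.floor_le hj0
    have b2 := Nat.lt_floor_add_one ((α j - c) / δ)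
    simp only [hg] at hij
    rw [hij] at a1 a2
    have h2 : |(α i - c) / δ - (α j - c) / δ| < 1 := by
      rw [abs_lt]; constructor <;> linarith
    have h3 : (α i - c) / δ - (α j - c) / δ = (α i - α j) / δ := by ring
    rw [h3, abs_div, abs_of_pos hδ, div_lt_one hδ] at h2
    linarith
  have hle : ∀ i ∈ J, Real.exp (-Real.pi * (lam * (α i - c)) ^ 2)
      ≤ Real.exp (-Real.pi * ((lam * δ) * (g i : ℝ)) ^ 2) := by
    intro i hi
    apply Real.exp_le_exp.mpr
    have hi0 : 0 ≤ (α i - c) / δ := div_nonneg (sub_nonneg.2 (hc i hi)) hδ.le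
    have a1 := Nat.floor_le hi0
    have h2 : δ * (g i : ℝ) ≤ α i - c := by
      have := mul_le_mul_of_nonneg_left a1 hδ.le
      rwa [mul_div_cancel₀ _ hδ.ne'] at this
    have h3 : (lam * δ * (g i : ℝ)) ^ 2 ≤ (lam * (α i - c)) ^ 2 := by
      apply pow_le_pow_left₀
      · positivity
      · rw [mul_assoc]; exact mul_le_mul_of_nonneg_left h2 hlam.le
    nlinarith [Real.pi_pos]
  refine (Finset.sum_le_sum hle).trans ?_
  rw [← Finset.sum_image (s := J) (g := g)
    (f := fun j : ℕ => Real.exp (-Real.pi * ((lam * δ) * (j : ℝ)) ^ 2)) hinj]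
  obtain ⟨M, hM⟩ : ∃ M : ℕ, J.image g ⊆ range M := (J.image g).exists_nat_subset_range
  exact (Finset.sum_le_sum_of_subset_of_nonneg hM fun j _ _ => (Real.exp_pos _).le).trans
    (gs_sum (lam * δ) (by positivity) M)

theorem gauss_spaced {ι : Type*} (J : Finset ι) (α : ι → ℝ) (δ lam c : ℝ) (hδ : 0 < δ) (hlam : 0 < lam)
    (hsep : ∀ i ∈ J, ∀ j ∈ J, i ≠ j → δ ≤ |α i - α j|) :
    ∑ i ∈ J, Real.exp (-Real.pi * (lam * (α i - c)) ^ 2) ≤ 2 + 2 / (lam * δ) := by
  classical
  rw [← Finset.sum_filter_add_sum_filter_not J (fun i => c ≤ α i)]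
  have h1 := gs_half (J.filter (fun i => c ≤ α i)) α δ lam c hδ hlam
    (fun i hi j hj hij => hsep i (Finset.mem_filter.1 hi).1 j (Finset.mem_filter.1 hj).1 hij)
    (fun i hi => (Finset.mem_filter.1 hi).2)
  have h2 := gs_half (J.filter (fun i => ¬ c ≤ α i)) (fun i => -α i) δ lam (-c) hδ hlam
    (fun i hi j hj hij => by
      have := hsep i (Finset.mem_filter.1 hi).1 j (Finset.mem_filter.1 hj).1 hij
      rw [show -α i - -α j = -(α i - α j) by ring, abs_neg]
      exact this)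
    (fun i hi => by
      have := (Finset.mem_filter.1 hi).2
      linarith)
  have h3 : ∑ i ∈ J.filter (fun i => ¬ c ≤ α i), Real.exp (-Real.pi * (lam * (-α i - -c)) ^ 2)
      = ∑ i ∈ J.filter (fun i => ¬ c ≤ α i), Real.exp (-Real.pi * (lam * (α i - c)) ^ 2) := by
    refine Finset.sum_congr rfl fun i _ => ?_
    congr 1; ring
  rw [h3] at h2
  have h4 : 1 / (2 * (lam * δ)) + 1 / (2 * (lam * δ)) ≤ 2 / (lam * δ) := by
    have : 0 < lam * δ := by positivity
    rw [← add_div, div_le_div_iff₀ (by positivity) this]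
    nlinarith
  linarith

end Pool.Agent.H76.EHB
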