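import Pool.Agent.H76.EHB.Basic
import Pool.Agent.H76.EHB.Gs

/-!
# EHB Fold: integrals of `W |FF|^2` over the real line

`fold_le`: if `W ≥ 0` is continuous and integrable and `∑_{j ∈ J} W(θ + j) ≤ C` for every real `θ` and every finite
set `J` of integers, then `∫ W |FF|^2 ≤ C * S2`.
Proof.  `∫_{-M}^{M} W |F|^2 = ∑_{j=-M}^{M-1} ∫_0^1 W(θ+j) |F(θ)|^2 dθ ≤ C ∫_0^1 |F|^2 = C S2` (periodicity `FF_add_int`
and `FF_parseval`), and let `M → ∞` (`intervalIntegral_tendsto_integral`, the integrand is integrable because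
`|FF|^2` is bounded and continuous).
`gfold`: `W(θ) = exp(-π (λ (θ - α))^2)`, `C = 4` by `gauss_spaced` with `δ = 1` and `λ ≥ 1`; then translate.
-/

set_option autoImplicit false

namespace Pool.Agent.H76.EHB

open Finset MeasureTheory

theorem fold_integrable (f : ℕ → ℝ) (N : ℕ) (W : ℝ → ℝ) (hWi : Integrable W) :
    Integrable (fun θ => W θ * ‖FF f N θ‖ ^ 2) := by
  apply hWi.mul_bdd (c := (N : ℝ) * S2 f N)
  · exact ((FF_continuous f N).norm.pow 2).aestronglyMeasurable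
  · refine Filter.Eventually.of_forall fun θ => ?_
    rw [Real.norm_eq_abs, abs_of_nonneg (by positivity)]
    exact norm_FF_sq_le f N θ

private theorem fold_fin (f : ℕ → ℝ) (N : ℕ) (W : ℝ → ℝ) (hW : Continuous W)
    (C : ℝ) (hC : ∀ (θ : ℝ) (J : Finset ℤ), ∑ j ∈ J, W (θ + j) ≤ C) (M : ℕ) :
    ∫ θ in (-(M : ℝ))..(M : ℝ), W θ * ‖FF f N θ‖ ^ 2 ≤ C * S2 f N := by
  have hcont : Continuous (fun θ => W θ * ‖FF f N θ‖ ^ 2) :=
    hW.mul ((FF_continuous f N).norm.pow 2)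
  have h1 : ∫ θ in (-(M : ℝ))..(M : ℝ), W θ * ‖FF f N θ‖ ^ 2
      = ∑ k ∈ range (2 * M), ∫ θ in (-(M : ℝ) + (k : ℝ))..(-(M : ℝ) + ((k + 1 : ℕ) : ℝ)),
          W θ * ‖FF f N θ‖ ^ 2 := by
    have h := intervalIntegral.sum_integral_adjacent_intervals (μ := volume)
      (f := fun θ => W θ * ‖FF f N θ‖ ^ 2) (a := fun k : ℕ => -(M : ℝ) + (k : ℝ)) (n := 2 * M)
      (fun k _ => hcont.intervalIntegrable _ _)
    rw [h]
    congr 1
    · simp
    · push_cast
      ring
  have h2 : ∀ k ∈ range (2 * M),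
      ∫ θ in (-(M : ℝ) + (k : ℝ))..(-(M : ℝ) + ((k + 1 : ℕ) : ℝ)), W θ * ‖FF f N θ‖ ^ 2
      = ∫ θ in (0 : ℝ)..1, W (θ + ((-(M : ℤ) + (k : ℤ) : ℤ) : ℝ)) * ‖FF f N θ‖ ^ 2 := by
    intro k _
    have h := intervalIntegral.integral_comp_add_right (a := (0 : ℝ)) (b := 1)
      (fun θ => W θ * ‖FF f N θ‖ ^ 2) ((-(M : ℤ) + (k : ℤ) : ℤ) : ℝ)
    have e1 : (0 : ℝ) + ((-(M : ℤ) + (k : ℤ) : ℤ) : ℝ) = -(M : ℝ) + (k : ℝ) := by
      push_cast
      ring
    have e2 : (1 : ℝ) + ((-(M : ℤ) + (k : ℤ) : ℤ) : ℝ) = -(M : ℝ) + ((k + 1 : ℕ) : ℝ) := by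
      push_cast
      ring
    rw [e1, e2] at h
    rw [← h]
    apply intervalIntegral.integral_congr
    intro θ _
    simp only
    rw [FF_add_int]
  rw [h1, sum_congr rfl h2, ← intervalIntegral.integral_finsetSum]
  · have h3 : ∀ θ : ℝ, ∑ k ∈ range (2 * M),
        W (θ + ((-(M : ℤ) + (k : ℤ) : ℤ) : ℝ)) * ‖FF f N θ‖ ^ 2 ≤ C * ‖FF f N θ‖ ^ 2 := by
      intro θ
      rw [← sum_mul]
      apply mul_le_mul_of_nonneg_right _ (by positivity)
      have h4 := hC θ ((range (2 * M)).image (fun k : ℕ => -(M : ℤ) + (k : ℤ)))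
      rw [sum_image] at h4
      · exact h4
      · intro a _ b _ hab
        simpa using hab
    have h5 : ∫ θ in (0 : ℝ)..1, C * ‖FF f N θ‖ ^ 2 = C * S2 f N := by
      rw [intervalIntegral.integral_const_mul]
      congr 1
      have := FF_parseval f N 0
      rwa [zero_add] at this
    rw [← h5]
    apply intervalIntegral.integral_mono_on (by norm_num)
    · apply Continuous.intervalIntegrable
      apply continuous_finsetSum
      intro k _
      exact (hW.comp (continuous_id.add continuous_const)).mul ((FF_continuous f N).norm.pow 2)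
    · exact (continuous_const.mul ((FF_continuous f N).norm.pow 2)).intervalIntegrable _ _
    · intro θ _
      exact h3 θ
  · intro k _
    apply Continuous.intervalIntegrable
    exact (hW.comp (continuous_id.add continuous_const)).mul ((FF_continuous f N).norm.pow 2)

theorem fold_le (f : ℕ → ℝ) (N : ℕ) (W : ℝ → ℝ) (hW : Continuous W) (hW0 : ∀ θ, 0 ≤ W θ)
    (hWi : Integrable W) (C : ℝ) (hC : ∀ (θ : ℝ) (J : Finset ℤ), ∑ j ∈ J, W (θ + j) ≤ C) :
    ∫ θ, W θ * ‖FF f N θ‖ ^ 2 ≤ C * S2 f N := by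
  have h := intervalIntegral_tendsto_integral (μ := volume) (l := Filter.atTop)
    (a := fun M : ℕ => -(M : ℝ)) (b := fun M : ℕ => (M : ℝ)) (fold_integrable f N W hWi)
    (Filter.tendsto_neg_atTop_atBot.comp tendsto_natCast_atTop_atTop)
    tendsto_natCast_atTop_atTop
  exact le_of_tendsto' h (fun M => fold_fin f N W hW C hC M)

theorem gfold (f : ℕ → ℝ) (N : ℕ) (α lam : ℝ) (hlam : 1 ≤ lam) :
    ∫ θ, Real.exp (-Real.pi * (lam * θ) ^ 2) * ‖FF f N (α + θ)‖ ^ 2 ≤ 4 * S2 f N := by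
  have hlam0 : 0 < lam := by linarith
  have hi : Integrable (fun x : ℝ => Real.exp (-Real.pi * (lam * x) ^ 2)) := by
    have h := integrable_exp_neg_mul_sq (b := Real.pi * lam ^ 2) (by positivity)
    refine h.congr (Filter.Eventually.of_forall fun x => ?_)
    simp only
    congr 1
    ring
  have h1 : ∫ θ, Real.exp (-Real.pi * (lam * θ) ^ 2) * ‖FF f N (α + θ)‖ ^ 2
      = ∫ θ, Real.exp (-Real.pi * (lam * (θ - α)) ^ 2) * ‖FF f N θ‖ ^ 2 := by
    rw [← integral_add_right_eq_self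
      (fun θ => Real.exp (-Real.pi * (lam * (θ - α)) ^ 2) * ‖FF f N θ‖ ^ 2) α]
    congr 1
    funext θ
    rw [add_sub_cancel_right, add_comm α θ]
  rw [h1]
  apply fold_le f N (fun θ => Real.exp (-Real.pi * (lam * (θ - α)) ^ 2))
  · fun_prop
  · intro θ
    exact (Real.exp_pos _).le
  · exact hi.comp_sub_right α
  · intro θ J
    have h := gauss_spaced J (fun j : ℤ => (j : ℝ)) 1 lam (α - θ) (by norm_num) hlam0 (by
      intro i _ j _ hij
      have : (1 : ℤ) ≤ |i - j| := Int.one_le_abs (sub_ne_zero.mpr hij)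
      have h2 : ((1 : ℤ) : ℝ) ≤ ((|i - j| : ℤ) : ℝ) := by exact_mod_cast this
      push_cast at h2
      exact h2)
    have h3 : 2 / (lam * 1) ≤ 2 := by
      rw [div_le_iff₀ (by positivity)]
      linarith
    calc ∑ j ∈ J, Real.exp (-Real.pi * (lam * (θ + j - α)) ^ 2)
        = ∑ j ∈ J, Real.exp (-Real.pi * (lam * ((j : ℝ) - (α - θ))) ^ 2) := by
          apply sum_congr rfl
          intro j _
          congr 3
          ring
      _ ≤ 2 + 2 / (lam * 1) := h
      _ ≤ 4 := by linarith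

end Pool.Agent.H76.EHB
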