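import Pool.Agent.H76.EHB.Gft
import Pool.Agent.H76.EHB.Fold

/-!
# EHB IpB: Cauchy's inequality for the pair integrals

`|FF FF'| ≤ (|FF|^2 + |FF'|^2)/2` and `|ee| = 1`; integrability by `gauss_integrable` and boundedness.
`Wk_scale`: substitution `θ = k y`.  `Wk_le`: `gfold` with `λ = A |r| / |k| ≥ 1` (and `Wk` over `S` is `≤` `Wk` over `univ`).
-/

set_option autoImplicit false

namespace Pool.Agent.H76.EHB

open Finset MeasureTheory

private theorem ipB_continuous (f : ℕ → ℝ) (N : ℕ) (α k : ℝ) :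
    Continuous (fun y : ℝ => ‖FF f N (α + k * y)‖) :=
  ((FF_continuous f N).comp (continuous_const.add (continuous_const.mul continuous_id))).norm

private theorem ipB_exp_continuous (b : ℝ) :
    Continuous (fun y : ℝ => Real.exp (-Real.pi * (b * y) ^ 2)) := by
  fun_prop

private theorem ipB_integrable (f : ℕ → ℝ) (N : ℕ) (A α k r : ℝ) (hA : 0 < A) (hr : r ≠ 0) :
    Integrable (fun y : ℝ => A * Real.exp (-Real.pi * (A * r * y) ^ 2) * ‖FF f N (α + k * y)‖ ^ 2) := by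
  have hb : A * r ≠ 0 := mul_ne_zero hA.ne' hr
  have h1 := (gauss_integrable (A * r) hb).const_mul (A * (∑ n ∈ Icc 1 N, |f n|) ^ 2)
  apply h1.mono'
  · exact ((continuous_const.mul (ipB_exp_continuous (A * r))).mul
      ((ipB_continuous f N α k).pow 2)).aestronglyMeasurable
  · filter_upwards with y
    have e0 : 0 ≤ Real.exp (-Real.pi * (A * r * y) ^ 2) := (Real.exp_pos _).le
    have h2 : ‖FF f N (α + k * y)‖ ^ 2 ≤ (∑ n ∈ Icc 1 N, |f n|) ^ 2 :=
      pow_le_pow_left₀ (norm_nonneg _) (norm_FF_le f N _) 2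
    rw [Real.norm_eq_abs, abs_of_nonneg (by positivity)]
    calc A * Real.exp (-Real.pi * (A * r * y) ^ 2) * ‖FF f N (α + k * y)‖ ^ 2
        ≤ A * Real.exp (-Real.pi * (A * r * y) ^ 2) * (∑ n ∈ Icc 1 N, |f n|) ^ 2 :=
          mul_le_mul_of_nonneg_left h2 (by positivity)
      _ = _ := by ring

theorem Wk_nonneg (f : ℕ → ℝ) (N : ℕ) (A α k r : ℝ) (hA : 0 ≤ A) (S : Set ℝ) :
    0 ≤ Wk f N A α k r S := by
  unfold Wk
  apply integral_nonneg
  intro y
  show 0 ≤ A * Real.exp (-Real.pi * (A * r * y) ^ 2) * ‖FF f N (α + k * y)‖ ^ 2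
  positivity

private theorem ipB_norm_ee (t : ℝ) : ‖Pool.Agent.H91.PK.ee t‖ = 1 := by
  unfold Pool.Agent.H91.PK.ee
  rw [Complex.norm_exp]
  have : (2 * (Real.pi : ℂ) * (t : ℂ) * Complex.I).re = 0 := by
    rw [show (2 * (Real.pi : ℂ) * (t : ℂ) * Complex.I) = ((2 * Real.pi * t : ℝ) : ℂ) * Complex.I by
      push_cast; ring]
    rw [Complex.re_ofReal_mul, Complex.I_re, mul_zero]
  rw [this, Real.exp_zero]

theorem IpS_le (f : ℕ → ℝ) (N : ℕ) (A α : ℝ) (hA : 0 < A) (a0 k1 k2 : ℤ) (hk : k1 ≠ k2) (S : Set ℝ)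
    (hS : MeasurableSet S) :
    ‖IpS f N A a0 α k1 k2 S‖
      ≤ (Wk f N A α k1 ((k2 - k1 : ℤ) : ℝ) S + Wk f N A α k2 ((k2 - k1 : ℤ) : ℝ) S) / 2 := by
  have hr : ((k2 - k1 : ℤ) : ℝ) ≠ 0 := by
    rw [Ne, Int.cast_eq_zero, sub_eq_zero]
    exact fun h => hk h.symm
  have i1 := (ipB_integrable f N A α k1 _ hA hr).integrableOn (s := S)
  have i2 := (ipB_integrable f N A α k2 _ hA hr).integrableOn (s := S)
  unfold IpS Wk
  rw [← integral_add i1 i2, ← integral_div]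
  refine le_trans (norm_integral_le_integral_norm _) ?_
  apply integral_mono_of_nonneg
  · filter_upwards with y
    exact norm_nonneg _
  · exact (i1.add i2).div_const 2
  · filter_upwards with y
    have e0 : 0 ≤ Real.exp (-Real.pi * (A * ((k2 - k1 : ℤ) : ℝ) * y) ^ 2) := (Real.exp_pos _).le
    rw [norm_mul, norm_mul, norm_mul, ipB_norm_ee, Complex.norm_real, Real.norm_eq_abs,
      abs_of_nonneg (by positivity), RCLike.norm_conj, mul_one]
    have h1 := two_mul_le_add_sq ‖FF f N (α + k1 * y)‖ ‖FF f N (α + k2 * y)‖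
    have h2 : ‖FF f N (α + k2 * y)‖ * ‖FF f N (α + k1 * y)‖
        ≤ (‖FF f N (α + k1 * y)‖ ^ 2 + ‖FF f N (α + k2 * y)‖ ^ 2) / 2 := by linarith
    calc A * Real.exp (-Real.pi * (A * ((k2 - k1 : ℤ) : ℝ) * y) ^ 2)
          * (‖FF f N (α + k2 * y)‖ * ‖FF f N (α + k1 * y)‖)
        ≤ A * Real.exp (-Real.pi * (A * ((k2 - k1 : ℤ) : ℝ) * y) ^ 2)
          * ((‖FF f N (α + k1 * y)‖ ^ 2 + ‖FF f N (α + k2 * y)‖ ^ 2) / 2) :=
          mul_le_mul_of_nonneg_left h2 (by positivity)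
      _ = _ := by ring

theorem Wk_mono (f : ℕ → ℝ) (N : ℕ) (A α k r : ℝ) (hA : 0 < A) (hr : r ≠ 0) (S : Set ℝ)
    (hS : MeasurableSet S) : Wk f N A α k r S ≤ Wk f N A α k r Set.univ := by
  unfold Wk
  rw [setIntegral_univ]
  apply setIntegral_le_integral (ipB_integrable f N A α k r hA hr)
  filter_upwards with y
  show 0 ≤ A * Real.exp (-Real.pi * (A * r * y) ^ 2) * ‖FF f N (α + k * y)‖ ^ 2
  positivity

theorem Wk_scale (f : ℕ → ℝ) (N : ℕ) (A α k r : ℝ) (hk : k ≠ 0) :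
    Wk f N A α k r Set.univ
      = A / |k| * ∫ θ, Real.exp (-Real.pi * (A * r / k * θ) ^ 2) * ‖FF f N (α + θ)‖ ^ 2 := by
  unfold Wk
  rw [setIntegral_univ]
  have h1 := Measure.integral_comp_mul_left
    (fun θ : ℝ => A * (Real.exp (-Real.pi * (A * r / k * θ) ^ 2) * ‖FF f N (α + θ)‖ ^ 2)) k
  have h2 : (fun y : ℝ => A * Real.exp (-Real.pi * (A * r * y) ^ 2) * ‖FF f N (α + k * y)‖ ^ 2)
      = fun y : ℝ => A * (Real.exp (-Real.pi * (A * r / k * (k * y)) ^ 2)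
        * ‖FF f N (α + k * y)‖ ^ 2) := by
    funext y
    have : A * r / k * (k * y) = A * r * y := by field_simp
    rw [this]
    ring
  rw [h2, h1, integral_const_mul, abs_inv, smul_eq_mul]
  field_simp

theorem Wk_le (f : ℕ → ℝ) (N : ℕ) (A α k r : ℝ) (hA : 0 < A) (hk : k ≠ 0) (hr : |k| ≤ A * |r|)
    (S : Set ℝ) (hS : MeasurableSet S) : Wk f N A α k r S ≤ 4 * (A / |k|) * S2 f N := by
  have hk0 : 0 < |k| := abs_pos.2 hk
  have hr0 : r ≠ 0 := by
    rintro rfl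
    rw [abs_zero, mul_zero] at hr
    linarith
  refine le_trans (Wk_mono f N A α k r hA hr0 S hS) ?_
  rw [Wk_scale f N A α k r hk]
  have hlam : 1 ≤ A * |r| / |k| := by rw [le_div_iff₀ hk0]; linarith
  have h1 := gfold f N α (A * |r| / |k|) hlam
  have h2 : (fun θ : ℝ => Real.exp (-Real.pi * (A * r / k * θ) ^ 2) * ‖FF f N (α + θ)‖ ^ 2)
      = fun θ : ℝ => Real.exp (-Real.pi * (A * |r| / |k| * θ) ^ 2) * ‖FF f N (α + θ)‖ ^ 2 := by
    funext θ
    have : (A * r / k * θ) ^ 2 = (A * |r| / |k| * θ) ^ 2 := by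
      rw [mul_pow, mul_pow, div_pow, div_pow, mul_pow, mul_pow, sq_abs, sq_abs]
    rw [this]
  rw [h2]
  calc A / |k| * ∫ θ, Real.exp (-Real.pi * (A * |r| / |k| * θ) ^ 2) * ‖FF f N (α + θ)‖ ^ 2
      ≤ A / |k| * (4 * S2 f N) := mul_le_mul_of_nonneg_left h1 (by positivity)
    _ = _ := by ring

end Pool.Agent.H76.EHB
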