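import Pool.Agent.H76.EHB.Gft
import Pool.Agent.H76.EHB.IpB

/-!
# EHB SmallB: completing the square

For all pairs `k1, k2 ∈ ks K` (equal ones included) with `d ∣ k2 - k1` and `y` real, with
`X_k = FF(α + k y) e(-(a0 + A v) k y)`,
`A exp(-π (A (k2-k1) y)^2) e(-a0 (k2-k1) y) FF(α+k2 y) conj FF(α+k1 y) = ∫_v A exp(-π v^2) X_{k2} conj X_{k1} dv`
(`gft2` with `s = A (k2 - k1) y`).  Summing over the pairs with `d ∣ k2 - k1`, i.e. `k1 ≡ k2 ≡ l (mod d)` for exactly one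
`l ∈ range d`, gives `∑_l ∫_v A exp(-π v^2) |∑_{k ≡ l} X_k|^2 dv`; integrate over `|y| ≤ Y` and exchange (everything bounded
times the integrable `exp(-π v^2)`).
-/

set_option autoImplicit false

namespace Pool.Agent.H76.EHB

open Finset MeasureTheory
open Pool.Agent.H91.PK (ee)

/-- the integrand of the pair `k1, k2` -/
private noncomputable def smB_H (f : ℕ → ℝ) (N : ℕ) (A α : ℝ) (a0 k1 k2 : ℤ) (y v : ℝ) : ℂ :=
  (((A * Real.exp (-Real.pi * v ^ 2) : ℝ) : ℂ))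
    * (ee (-((a0 + A * v) * ((k2 - k1 : ℤ) : ℝ) * y))
      * (FF f N (α + k2 * y) * (starRingEnd ℂ) (FF f N (α + k1 * y))))

private theorem smB_norm_ee (t : ℝ) : ‖ee t‖ = 1 := Pool.Agent.H91.PK.LSa_norm_ee t

private theorem smB_gauss_int : Integrable (fun v : ℝ => Real.exp (-Real.pi * v ^ 2)) := by
  have h := gauss_integrable 1 one_ne_zero
  simpa using h

private theorem smB_continuous_H (f : ℕ → ℝ) (N : ℕ) (A α : ℝ) (a0 k1 k2 : ℤ) :
    Continuous (fun p : ℝ × ℝ => ee (-((a0 + A * p.2) * ((k2 - k1 : ℤ) : ℝ) * p.1))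
      * (FF f N (α + k2 * p.1) * (starRingEnd ℂ) (FF f N (α + k1 * p.1)))) := by
  have h1 := continuous_ee
  have h2 := FF_continuous f N
  have h3 : Continuous (fun p : ℝ × ℝ => FF f N (α + k1 * p.1)) := h2.comp (by fun_prop)
  have h4 : Continuous (fun p : ℝ × ℝ => FF f N (α + k2 * p.1)) := h2.comp (by fun_prop)
  have h5 : Continuous (fun p : ℝ × ℝ => ee (-((a0 + A * p.2) * ((k2 - k1 : ℤ) : ℝ) * p.1))) :=
    h1.comp (by fun_prop)
  exact h5.mul (h4.mul (Complex.continuous_conj.comp h3))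

private theorem smB_continuous_y (f : ℕ → ℝ) (N : ℕ) (A α : ℝ) (a0 k1 k2 : ℤ) (v : ℝ) :
    Continuous (fun y : ℝ => smB_H f N A α a0 k1 k2 y v) := by
  have h1 := continuous_ee
  have h2 := FF_continuous f N
  have h3 : Continuous (fun y : ℝ => FF f N (α + k1 * y)) := h2.comp (by fun_prop)
  have h4 : Continuous (fun y : ℝ => FF f N (α + k2 * y)) := h2.comp (by fun_prop)
  have h5 : Continuous (fun y : ℝ => ee (-((a0 + A * v) * ((k2 - k1 : ℤ) : ℝ) * y))) :=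
    h1.comp (by fun_prop)
  unfold smB_H
  exact continuous_const.mul (h5.mul (h4.mul (Complex.continuous_conj.comp h3)))

private theorem smB_bound (f : ℕ → ℝ) (N : ℕ) (A α : ℝ) (a0 k1 k2 : ℤ) (p : ℝ × ℝ) :
    ‖ee (-((a0 + A * p.2) * ((k2 - k1 : ℤ) : ℝ) * p.1))
      * (FF f N (α + k2 * p.1) * (starRingEnd ℂ) (FF f N (α + k1 * p.1)))‖
      ≤ (∑ n ∈ Icc 1 N, |f n|) * (∑ n ∈ Icc 1 N, |f n|) := by
  rw [norm_mul, smB_norm_ee, one_mul, norm_mul, RCLike.norm_conj]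
  exact mul_le_mul (norm_FF_le f N _) (norm_FF_le f N _) (norm_nonneg _)
    (Finset.sum_nonneg fun _ _ => abs_nonneg _)

private theorem smB_integrable (f : ℕ → ℝ) (N : ℕ) (A α Y : ℝ) (a0 k1 k2 : ℤ) :
    Integrable (fun p : ℝ × ℝ => smB_H f N A α a0 k1 k2 p.1 p.2)
      ((volume.restrict (Set.Icc (-Y) Y)).prod volume) := by
  have h1 : Integrable (fun p : ℝ × ℝ => ((A * Real.exp (-Real.pi * p.2 ^ 2) : ℝ) : ℂ))
      ((volume.restrict (Set.Icc (-Y) Y)).prod volume) := by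
    have h := (smB_gauss_int.const_mul A).ofReal (𝕜 := ℂ)
    exact h.comp_snd (volume.restrict (Set.Icc (-Y) Y))
  unfold smB_H
  exact h1.mul_bdd (smB_continuous_H f N A α a0 k1 k2).aestronglyMeasurable
    (Filter.Eventually.of_forall fun p => smB_bound f N A α a0 k1 k2 p)

private theorem smB_pair (f : ℕ → ℝ) (N : ℕ) (A α Y : ℝ) (a0 k1 k2 : ℤ) :
    IpS f N A a0 α k1 k2 (Set.Icc (-Y) Y)
      = ∫ v : ℝ, ∫ y in Set.Icc (-Y) Y, smB_H f N A α a0 k1 k2 y v := by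
  rw [← integral_integral_swap (f := fun y v => smB_H f N A α a0 k1 k2 y v)
    (smB_integrable f N A α Y a0 k1 k2)]
  unfold IpS
  refine integral_congr_ae (Filter.Eventually.of_forall fun y => ?_)
  show _ = ∫ v : ℝ, smB_H f N A α a0 k1 k2 y v
  have hg := gft2 (A * ((k2 - k1 : ℤ) : ℝ) * y)
  have e1 : ∀ v : ℝ, smB_H f N A α a0 k1 k2 y v
      = ((A : ℂ) * ee (-((a0 : ℝ) * ((k2 - k1 : ℤ) : ℝ) * y))
        * (FF f N (α + k2 * y) * (starRingEnd ℂ) (FF f N (α + k1 * y))))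
        * (((Real.exp (-Real.pi * v ^ 2) : ℝ) : ℂ) * ee (-(A * ((k2 - k1 : ℤ) : ℝ) * y * v))) := by
    intro v
    unfold smB_H
    have e2 : -((a0 + A * v) * ((k2 - k1 : ℤ) : ℝ) * y)
        = -((a0 : ℝ) * ((k2 - k1 : ℤ) : ℝ) * y) + -(A * ((k2 - k1 : ℤ) : ℝ) * y * v) := by ring
    rw [e2, Pool.Agent.H91.PK.LSa_ee_add]
    push_cast
    ring
  simp_rw [e1]
  rw [integral_const_mul, ← hg]
  push_cast
  ring

private theorem smB_class (f : ℕ → ℝ) (N K d : ℕ) (A α Y : ℝ) (a0 l : ℤ) :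
    ((∫ v : ℝ, A * Real.exp (-Real.pi * v ^ 2) * JJ f N K d l α (a0 + A * v) Y : ℝ) : ℂ)
      = ∑ k1 ∈ (ks K).filter (fun k => (d : ℤ) ∣ k - l),
          ∑ k2 ∈ (ks K).filter (fun k => (d : ℤ) ∣ k - l),
            ∫ v : ℝ, ∫ y in Set.Icc (-Y) Y, smB_H f N A α a0 k1 k2 y v := by
  set F := (ks K).filter (fun k => (d : ℤ) ∣ k - l) with hF
  have hv : ∀ k1 k2 : ℤ, Integrable (fun v : ℝ => ∫ y in Set.Icc (-Y) Y, smB_H f N A α a0 k1 k2 y v) := by
    intro k1 k2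
    exact (smB_integrable f N A α Y a0 k1 k2).integral_prod_right
  have hy : ∀ (k1 k2 : ℤ) (v : ℝ), Integrable (fun y : ℝ => smB_H f N A α a0 k1 k2 y v)
      (volume.restrict (Set.Icc (-Y) Y)) := by
    intro k1 k2 v
    exact (smB_continuous_y f N A α a0 k1 k2 v).continuousOn.integrableOn_compact isCompact_Icc
  rw [← integral_complex_ofReal]
  have h1 : ∀ k1 ∈ F, ∑ k2 ∈ F, ∫ v : ℝ, ∫ y in Set.Icc (-Y) Y, smB_H f N A α a0 k1 k2 y v
      = ∫ v : ℝ, ∑ k2 ∈ F, ∫ y in Set.Icc (-Y) Y, smB_H f N A α a0 k1 k2 y v := by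
    intro k1 _
    rw [integral_finsetSum _ (fun k2 _ => hv k1 k2)]
  rw [Finset.sum_congr rfl h1]
  rw [← integral_finsetSum _ (fun k1 _ => integrable_finsetSum _ (fun k2 _ => hv k1 k2))]
  refine integral_congr_ae (Filter.Eventually.of_forall fun v => ?_)
  have h2 : ∀ k1 ∈ F, ∑ k2 ∈ F, ∫ y in Set.Icc (-Y) Y, smB_H f N A α a0 k1 k2 y v
      = ∫ y in Set.Icc (-Y) Y, ∑ k2 ∈ F, smB_H f N A α a0 k1 k2 y v := by
    intro k1 _
    rw [integral_finsetSum _ (fun k2 _ => hy k1 k2 v)]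
  show ((A * Real.exp (-Real.pi * v ^ 2) * JJ f N K d l α (a0 + A * v) Y : ℝ) : ℂ)
    = ∑ k1 ∈ F, ∑ k2 ∈ F, ∫ y in Set.Icc (-Y) Y, smB_H f N A α a0 k1 k2 y v
  rw [Finset.sum_congr rfl h2,
    ← integral_finsetSum _ (fun k1 _ => integrable_finsetSum _ (fun k2 _ => hy k1 k2 v))]
  unfold JJ
  rw [← integral_const_mul, ← integral_complex_ofReal]
  refine integral_congr_ae (Filter.Eventually.of_forall fun y => ?_)
  show ((A * Real.exp (-Real.pi * v ^ 2)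
    * ‖∑ k ∈ F, FF f N (α + k * y) * ee (-((a0 + A * v) * k * y))‖ ^ 2 : ℝ) : ℂ)
    = ∑ k1 ∈ F, ∑ k2 ∈ F, smB_H f N A α a0 k1 k2 y v
  have h3 : ((‖∑ k ∈ F, FF f N (α + k * y) * ee (-((a0 + A * v) * k * y))‖ ^ 2 : ℝ) : ℂ)
      = ∑ k1 ∈ F, ∑ k2 ∈ F, (FF f N (α + k2 * y) * ee (-((a0 + A * v) * k2 * y)))
        * (starRingEnd ℂ) (FF f N (α + k1 * y) * ee (-((a0 + A * v) * k1 * y))) := by
    push_cast
    rw [← Complex.mul_conj', map_sum, Finset.sum_mul_sum, Finset.sum_comm]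
  rw [Complex.ofReal_mul, h3, Finset.mul_sum]
  refine Finset.sum_congr rfl fun k1 _ => ?_
  rw [Finset.mul_sum]
  refine Finset.sum_congr rfl fun k2 _ => ?_
  unfold smB_H
  have e3 : (-((a0 + A * v) * ((k2 - k1 : ℤ) : ℝ) * y))
      = -((a0 + A * v) * k2 * y) + -(-((a0 + A * v) * k1 * y)) := by
    push_cast; ring
  rw [e3, Pool.Agent.H91.PK.LSa_ee_add, map_mul, Pool.Agent.H91.PK.LSa_conj_ee]
  ring

theorem square_identity (f : ℕ → ℝ) (N K d : ℕ) (A α Y : ℝ) (a0 : ℤ) (hd : 1 ≤ d) (hA : 0 < A) (hY : 0 ≤ Y) :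
    ∑ k1 ∈ ks K, ∑ k2 ∈ (ks K).filter (fun k2 => (d : ℤ) ∣ k2 - k1),
      IpS f N A a0 α k1 k2 (Set.Icc (-Y) Y)
      = ((∑ l ∈ range d, ∫ v : ℝ, A * Real.exp (-Real.pi * v ^ 2) * JJ f N K d l α (a0 + A * v) Y : ℝ) : ℂ) := by
  have hd0 : (0 : ℤ) < d := by exact_mod_cast hd
  rw [Complex.ofReal_sum]
  have h1 : ∀ l ∈ range d,
      ((∫ v : ℝ, A * Real.exp (-Real.pi * v ^ 2) * JJ f N K d l α (a0 + A * v) Y : ℝ) : ℂ)
      = ∑ k1 ∈ ks K, if (d : ℤ) ∣ k1 - (l : ℤ) then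
          ∑ k2 ∈ (ks K).filter (fun k => (d : ℤ) ∣ k - k1),
            IpS f N A a0 α k1 k2 (Set.Icc (-Y) Y) else 0 := by
    intro l _
    rw [smB_class f N K d A α Y a0 l, ← Finset.sum_filter]
    refine Finset.sum_congr rfl fun k1 hk1 => ?_
    have hk : (d : ℤ) ∣ k1 - l := (Finset.mem_filter.mp hk1).2
    have hfe : (ks K).filter (fun k => (d : ℤ) ∣ k - l) = (ks K).filter (fun k => (d : ℤ) ∣ k - k1) := by
      refine Finset.filter_congr fun k _ => ?_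
      constructor
      · intro h
        have := dvd_sub h hk
        have e : k - (l : ℤ) - (k1 - l) = k - k1 := by ring
        rwa [e] at this
      · intro h
        have := dvd_add h hk
        have e : k - k1 + (k1 - (l : ℤ)) = k - l := by ring
        rwa [e] at this
    rw [hfe]
    exact Finset.sum_congr rfl fun k2 _ => (smB_pair f N A α Y a0 k1 k2).symm
  rw [Finset.sum_congr rfl h1, Finset.sum_comm]
  refine Finset.sum_congr rfl fun k1 _ => ?_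
  have hmem : (k1 % (d : ℤ)).toNat ∈ range d := by
    rw [Finset.mem_range]
    have h2 := Int.emod_lt_of_pos k1 hd0
    have h3 := Int.emod_nonneg k1 hd0.ne'
    omega
  rw [Finset.sum_eq_single_of_mem _ hmem]
  · rw [if_pos]
    have h3 := Int.emod_nonneg k1 hd0.ne'
    rw [Int.toNat_of_nonneg h3]
    exact Int.dvd_self_sub_emod
  · intro l hl hne
    rw [if_neg]
    intro hdv
    apply hne
    have hl' : (l : ℤ) < d := by exact_mod_cast Finset.mem_range.mp hl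
    have h4 : k1 % (d : ℤ) = (l : ℤ) := by
      have h6 : k1 % (d : ℤ) = (l : ℤ) % d := Int.ModEq.symm ((Int.modEq_iff_dvd).mpr hdv)
      rw [h6, Int.emod_eq_of_lt (by positivity) hl']
    rw [h4]
    simp

end Pool.Agent.H76.EHB
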