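import Pool.Agent.H76.EHB.IpB

/-!
# EHB SmallD: tails

`far_pairs`: `r = k2 - k1`, `|r| ≥ r0`, `Y = L/(A r0)`: the difference of the integrals is the integral over `|y| > Y`; there `(A r y)^2 ≥ L^2` and
 `exp(-π (A r y)^2) ≤ exp(-(π/2) L^2) exp(-(π/2) (A r y)^2)`, `‖FF FF'‖ ≤ N S2` (`norm_FF_sq_le`), and
 `∫ A exp(-(π/2) (A r y)^2) dy = √2/|r| ≤ √2`; number of pairs `≤ (2K)^2`; and `exp(-(π/2) L^2) ≤ exp(-L^2)`; `4 √2 ≤ 8`.
-/

set_option autoImplicit false

namespace Pool.Agent.H76.EHB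

open Finset MeasureTheory
open Pool.Agent.H91.PK (ee)

private theorem smallD_norm_prod (f : ℕ → ℝ) (N : ℕ) (s t : ℝ) :
    ‖FF f N s * (starRingEnd ℂ) (FF f N t)‖ ≤ N * S2 f N := by
  rw [norm_mul, RCLike.norm_conj]
  have h1 := norm_FF_sq_le f N s
  have h2 := norm_FF_sq_le f N t
  nlinarith [sq_nonneg (‖FF f N s‖ - ‖FF f N t‖)]

/-- the integrand of `IpS` -/
private noncomputable def smallDg (f : ℕ → ℝ) (N : ℕ) (A : ℝ) (a0 : ℤ) (α : ℝ) (k1 k2 : ℤ) (y : ℝ) :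
    ℂ :=
  ((A * Real.exp (-Real.pi * (A * ((k2 - k1 : ℤ) : ℝ) * y) ^ 2) : ℝ) : ℂ)
    * ee (-((a0 : ℝ) * ((k2 - k1 : ℤ) : ℝ) * y))
    * (FF f N (α + k2 * y) * (starRingEnd ℂ) (FF f N (α + k1 * y)))

private theorem smallDg_norm (f : ℕ → ℝ) (N : ℕ) (A : ℝ) (hA : 0 < A) (a0 : ℤ) (α : ℝ)
    (k1 k2 : ℤ) (y : ℝ) :
    ‖smallDg f N A a0 α k1 k2 y‖ ≤
      (A * Real.exp (-Real.pi * (A * ((k2 - k1 : ℤ) : ℝ) * y) ^ 2)) * (N * S2 f N) := by
  unfold smallDg
  rw [norm_mul, norm_mul, Complex.norm_real, Real.norm_eq_abs,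
    abs_of_pos (mul_pos hA (Real.exp_pos _)), Pool.Agent.H91.PK.LSa_norm_ee, mul_one]
  exact mul_le_mul_of_nonneg_left (smallD_norm_prod f N _ _) (mul_pos hA (Real.exp_pos _)).le

private theorem smallDg_continuous (f : ℕ → ℝ) (N : ℕ) (A : ℝ) (a0 : ℤ) (α : ℝ)
    (k1 k2 : ℤ) : Continuous (smallDg f N A a0 α k1 k2) := by
  unfold smallDg
  have h1 := continuous_ee
  have h2 := FF_continuous f N
  refine Continuous.mul (Continuous.mul ?_ ?_) (Continuous.mul ?_ ?_)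
  · exact Complex.continuous_ofReal.comp (by fun_prop)
  · exact h1.comp (by fun_prop)
  · exact h2.comp (by fun_prop)
  · exact Complex.continuous_conj.comp (h2.comp (by fun_prop))

private theorem smallDg_integrable (f : ℕ → ℝ) (N : ℕ) (A : ℝ) (hA : 0 < A) (a0 : ℤ) (α : ℝ)
    (k1 k2 : ℤ) (hk : k2 - k1 ≠ 0) : Integrable (smallDg f N A a0 α k1 k2) := by
  have hb : A * ((k2 - k1 : ℤ) : ℝ) ≠ 0 := mul_ne_zero hA.ne' (Int.cast_ne_zero.2 hk)
  refine Integrable.mono' (((gauss_integrable _ hb).const_mul A).mul_const (N * S2 f N))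
    (smallDg_continuous f N A a0 α k1 k2).aestronglyMeasurable ?_
  exact Filter.Eventually.of_forall fun y => smallDg_norm f N A hA a0 α k1 k2 y

private theorem smallD_pair (f : ℕ → ℝ) (N r0 : ℕ) (A α L : ℝ) (a0 : ℤ) (hA : 1 ≤ A)
    (hr0 : 1 ≤ r0) (hL : 1 ≤ L) (k1 k2 : ℤ) (hk : (r0 : ℤ) ≤ |k2 - k1|) :
    ‖IpS f N A a0 α k1 k2 Set.univ -
      IpS f N A a0 α k1 k2 (Set.Icc (-(L / (A * r0))) (L / (A * r0)))‖
      ≤ 2 * (N * S2 f N) * Real.exp (-L ^ 2) := by
  have hA0 : 0 < A := by linarith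
  have hr0' : (1 : ℝ) ≤ r0 := by exact_mod_cast hr0
  have hr : (r0 : ℝ) ≤ |((k2 - k1 : ℤ) : ℝ)| := by
    rw [← Int.cast_abs]
    exact_mod_cast hk
  set r : ℝ := ((k2 - k1 : ℤ) : ℝ) with hrdef
  have hr1 : 1 ≤ |r| := hr0'.trans hr
  have hk0 : k2 - k1 ≠ 0 := by
    intro h
    rw [h, abs_zero] at hk
    omega
  have hrne : r ≠ 0 := by
    intro h
    rw [h, abs_zero] at hr1
    linarith
  set Y : ℝ := L / (A * r0) with hY
  have hYpos : 0 < A * r0 := by positivity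
  have hint := smallDg_integrable f N A hA0 a0 α k1 k2 hk0
  have hsplit : IpS f N A a0 α k1 k2 Set.univ - IpS f N A a0 α k1 k2 (Set.Icc (-Y) Y) =
      ∫ y in (Set.Icc (-Y) Y)ᶜ, smallDg f N A a0 α k1 k2 y := by
    have h1 : IpS f N A a0 α k1 k2 Set.univ = ∫ y, smallDg f N A a0 α k1 k2 y := by
      rw [← setIntegral_univ]
      rfl
    have h2 : IpS f N A a0 α k1 k2 (Set.Icc (-Y) Y) =
        ∫ y in Set.Icc (-Y) Y, smallDg f N A a0 α k1 k2 y := rfl
    rw [h1, h2, ← integral_add_compl (measurableSet_Icc (a := -Y) (b := Y)) hint]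
    ring
  have hb : A * r / 2 ≠ 0 := div_ne_zero (mul_ne_zero hA0.ne' hrne) two_ne_zero
  have hN0 : 0 ≤ (N : ℝ) * S2 f N := mul_nonneg (Nat.cast_nonneg _) (S2_nonneg f N)
  have hgi : Integrable (fun y : ℝ => Real.exp (-L ^ 2) * (N * S2 f N) * A *
      Real.exp (-Real.pi * (A * r / 2 * y) ^ 2)) := (gauss_integrable _ hb).const_mul _
  rw [hsplit]
  calc ‖∫ y in (Set.Icc (-Y) Y)ᶜ, smallDg f N A a0 α k1 k2 y‖
      ≤ ∫ y in (Set.Icc (-Y) Y)ᶜ, Real.exp (-L ^ 2) * (N * S2 f N) * A *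
          Real.exp (-Real.pi * (A * r / 2 * y) ^ 2) := by
        refine norm_integral_le_of_norm_le hgi.integrableOn ?_
        rw [ae_restrict_iff' (measurableSet_Icc.compl)]
        refine Filter.Eventually.of_forall fun y hy => ?_
        refine (smallDg_norm f N A hA0 a0 α k1 k2 y).trans ?_
        have hy1 : Y ≤ |y| := by
          by_contra hlt
          push Not at hlt
          exact hy ⟨(abs_lt.1 hlt).1.le, (abs_lt.1 hlt).2.le⟩
        have hy2 : L ≤ |A * r * y| := by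
          rw [abs_mul, abs_mul, abs_of_pos hA0]
          have h3 : L = A * r0 * Y := by
            rw [hY]; field_simp
          rw [h3]
          have hY0 : 0 ≤ Y := by rw [hY]; positivity
          gcongr
        have hy3 : L ^ 2 ≤ (A * r * y) ^ 2 := by
          rw [← sq_abs (A * r * y)]
          exact pow_le_pow_left₀ (by linarith) hy2 2
        have hexp : Real.exp (-Real.pi * (A * r * y) ^ 2) ≤
            Real.exp (-L ^ 2) * Real.exp (-Real.pi * (A * r / 2 * y) ^ 2) := by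
          rw [← Real.exp_add]
          refine Real.exp_le_exp.2 ?_
          have hpi := Real.pi_gt_three
          have e1 : (A * r / 2 * y) ^ 2 = (A * r * y) ^ 2 / 4 := by ring
          rw [e1]
          nlinarith [sq_nonneg (A * r * y)]
        calc (A * Real.exp (-Real.pi * (A * ((k2 - k1 : ℤ) : ℝ) * y) ^ 2)) * (N * S2 f N)
            ≤ (A * (Real.exp (-L ^ 2) * Real.exp (-Real.pi * (A * r / 2 * y) ^ 2))) *
              (N * S2 f N) := by
              refine mul_le_mul_of_nonneg_right ?_ hN0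
              exact mul_le_mul_of_nonneg_left hexp hA0.le
          _ = _ := by ring
    _ ≤ ∫ y, Real.exp (-L ^ 2) * (N * S2 f N) * A *
          Real.exp (-Real.pi * (A * r / 2 * y) ^ 2) := by
        refine setIntegral_le_integral hgi (Filter.Eventually.of_forall fun y => ?_)
        have := Real.exp_pos (-L ^ 2)
        have := Real.exp_pos (-Real.pi * (A * r / 2 * y) ^ 2)
        simp only [Pi.zero_apply]
        positivity
    _ = Real.exp (-L ^ 2) * (N * S2 f N) * A * (1 / |A * r / 2|) := by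
        rw [integral_const_mul, gauss_integral _ hb]
    _ ≤ 2 * (N * S2 f N) * Real.exp (-L ^ 2) := by
        have e1 : A * (1 / |A * r / 2|) = 2 / |r| := by
          rw [abs_div, abs_mul, abs_of_pos hA0, abs_two]
          have : |r| ≠ 0 := by positivity
          field_simp
        have e2 : (2 : ℝ) / |r| ≤ 2 := by
          rw [div_le_iff₀ (by linarith)]
          linarith
        calc Real.exp (-L ^ 2) * (N * S2 f N) * A * (1 / |A * r / 2|)
            = Real.exp (-L ^ 2) * (N * S2 f N) * (A * (1 / |A * r / 2|)) := by ring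
          _ ≤ Real.exp (-L ^ 2) * (N * S2 f N) * 2 := by
              rw [e1]
              exact mul_le_mul_of_nonneg_left e2 (mul_nonneg (Real.exp_pos _).le hN0)
          _ = _ := by ring

theorem far_pairs (f : ℕ → ℝ) (N K d r0 : ℕ) (A α L : ℝ) (a0 : ℤ) (hA : 1 ≤ A) (hr0 : 1 ≤ r0)
    (hL : 1 ≤ L) :
    ∑ k1 ∈ ks K, ∑ k2 ∈ (ks K).filter (fun k2 => (d : ℤ) ∣ k2 - k1 ∧ (r0 : ℤ) ≤ |k2 - k1|),
      ‖IpS f N A a0 α k1 k2 Set.univ - IpS f N A a0 α k1 k2 (Set.Icc (-(L / (A * r0))) (L / (A * r0)))‖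
      ≤ 8 * K ^ 2 * N * S2 f N * Real.exp (-L ^ 2) := by
  set B : ℝ := 2 * (N * S2 f N) * Real.exp (-L ^ 2) with hB
  have hB0 : 0 ≤ B :=
    mul_nonneg (mul_nonneg zero_le_two (mul_nonneg (Nat.cast_nonneg _) (S2_nonneg f N)))
      (Real.exp_pos _).le
  have h1 : ∀ k1 ∈ ks K,
      ∑ k2 ∈ (ks K).filter (fun k2 => (d : ℤ) ∣ k2 - k1 ∧ (r0 : ℤ) ≤ |k2 - k1|),
      ‖IpS f N A a0 α k1 k2 Set.univ -
        IpS f N A a0 α k1 k2 (Set.Icc (-(L / (A * r0))) (L / (A * r0)))‖ ≤ (2 * K : ℕ) * B := by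
    intro k1 _
    refine (Finset.sum_le_card_nsmul _ _ B fun k2 h2 => ?_).trans ?_
    · exact smallD_pair f N r0 A α L a0 hA hr0 hL k1 k2 (Finset.mem_filter.1 h2).2.2
    · rw [nsmul_eq_mul]
      refine mul_le_mul_of_nonneg_right ?_ hB0
      rw [← card_ks K]
      exact_mod_cast Finset.card_le_card (Finset.filter_subset _ _)
  refine (Finset.sum_le_card_nsmul _ _ _ h1).trans ?_
  rw [nsmul_eq_mul, card_ks, hB]
  push_cast
  apply le_of_eq
  ring

end Pool.Agent.H76.EHB
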