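import Pool.Agent.H76.EHB.SmallA
import Pool.Agent.H76.EHB.SmallD
import Pool.Agent.H76.EHB.SmallB

/-!
# EHB SmallC: one small denominator

`Dal = ∑_{k1 ≠ k2, d ∣ k2 - k1} IpS univ`.  Split by `|k2 - k1| < r0` and `≥ r0`:
`Dal = ∑_{near} IpS univ + ∑_{far} (IpS univ - IpS [-Y,Y]) + ∑_{all, d ∣ k2-k1} IpS [-Y,Y] - ∑_{near} IpS [-Y,Y] - ∑_{equal} IpS [-Y,Y]`
with `Y = L/(A r0)` (near: `0 < |k2-k1| < r0`; far: `|k2-k1| ≥ r0`; all includes equal).  Bounds: `near_pairs` twice, `far_pairs`, `equal_pairs`,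
and `square_identity` for the sum over all (the hypothesis `hJ` bounds its terms; `r0 ≥ 1`).
The hypothesis `hJ` is stated so that no measurability in `v` is needed (use `integral_mono_of_nonneg`):
`∫ exp(-π v^2) (1 + |v|)^2 dv ≤ 4`.
-/

set_option autoImplicit false

namespace Pool.Agent.H76.EHB

open Finset MeasureTheory

private theorem smallC_gauss_pt (v : ℝ) :
    Real.exp (-Real.pi * v ^ 2) * (1 + |v|) ^ 2 ≤
      2 * Real.exp (-Real.pi * v ^ 2) + 4 / Real.pi * Real.exp (-(Real.pi / 2) * v ^ 2) := by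
  have hπ : 0 < Real.pi := Real.pi_pos
  have h1 : (1 + |v|) ^ 2 ≤ 2 + 2 * v ^ 2 := by
    have h2 : |v| ^ 2 = v ^ 2 := sq_abs v
    nlinarith [sq_nonneg (1 - |v|)]
  have h3 : Real.exp (-Real.pi * v ^ 2) =
      Real.exp (-(Real.pi / 2) * v ^ 2) * Real.exp (-(Real.pi / 2) * v ^ 2) := by
    rw [← Real.exp_add]; congr 1; ring
  have h4 : v ^ 2 * Real.exp (-(Real.pi / 2) * v ^ 2) ≤ 2 / Real.pi := by
    have h5 : Real.pi / 2 * v ^ 2 ≤ Real.exp (Real.pi / 2 * v ^ 2) := by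
      have := Real.add_one_le_exp (Real.pi / 2 * v ^ 2)
      linarith
    have h6 : Real.exp (Real.pi / 2 * v ^ 2) * Real.exp (-(Real.pi / 2) * v ^ 2) = 1 := by
      rw [← Real.exp_add, show Real.pi / 2 * v ^ 2 + -(Real.pi / 2) * v ^ 2 = 0 by ring,
        Real.exp_zero]
    have h7 : Real.pi / 2 * v ^ 2 * Real.exp (-(Real.pi / 2) * v ^ 2) ≤ 1 := by
      calc Real.pi / 2 * v ^ 2 * Real.exp (-(Real.pi / 2) * v ^ 2) ≤
            Real.exp (Real.pi / 2 * v ^ 2) * Real.exp (-(Real.pi / 2) * v ^ 2) :=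
            mul_le_mul_of_nonneg_right h5 (Real.exp_pos _).le
        _ = 1 := h6
    rw [le_div_iff₀ hπ]
    nlinarith
  have h8 : Real.exp (-Real.pi * v ^ 2) * (2 * v ^ 2) ≤
      4 / Real.pi * Real.exp (-(Real.pi / 2) * v ^ 2) := by
    calc Real.exp (-Real.pi * v ^ 2) * (2 * v ^ 2) =
          2 * (v ^ 2 * Real.exp (-(Real.pi / 2) * v ^ 2)) *
            Real.exp (-(Real.pi / 2) * v ^ 2) := by rw [h3]; ring
      _ ≤ 2 * (2 / Real.pi) * Real.exp (-(Real.pi / 2) * v ^ 2) :=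
          mul_le_mul_of_nonneg_right (by linarith) (Real.exp_pos _).le
      _ = _ := by ring
  calc Real.exp (-Real.pi * v ^ 2) * (1 + |v|) ^ 2 ≤
        Real.exp (-Real.pi * v ^ 2) * (2 + 2 * v ^ 2) :=
        mul_le_mul_of_nonneg_left h1 (Real.exp_pos _).le
    _ = 2 * Real.exp (-Real.pi * v ^ 2) + Real.exp (-Real.pi * v ^ 2) * (2 * v ^ 2) := by ring
    _ ≤ _ := by linarith

private theorem smallC_integral (A U : ℝ) (hA : 0 ≤ A) (hU : 0 ≤ U) (G : ℝ → ℝ)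
    (hG0 : ∀ v, 0 ≤ G v) (hG : ∀ v, G v ≤ U * (1 + |v|) ^ 2) :
    0 ≤ ∫ v : ℝ, A * Real.exp (-Real.pi * v ^ 2) * G v ∧
      ∫ v : ℝ, A * Real.exp (-Real.pi * v ^ 2) * G v ≤ 4 * A * U := by
  have hπ : 0 < Real.pi := Real.pi_pos
  refine ⟨integral_nonneg fun v => mul_nonneg (mul_nonneg hA (Real.exp_pos _).le) (hG0 v), ?_⟩
  have hi1 : Integrable (fun v : ℝ => Real.exp (-Real.pi * v ^ 2)) :=
    integrable_exp_neg_mul_sq hπ
  have hi2 : Integrable (fun v : ℝ => Real.exp (-(Real.pi / 2) * v ^ 2)) :=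
    integrable_exp_neg_mul_sq (by positivity)
  have hi : Integrable (fun v : ℝ => A * U * (2 * Real.exp (-Real.pi * v ^ 2) +
      4 / Real.pi * Real.exp (-(Real.pi / 2) * v ^ 2))) :=
    ((hi1.const_mul 2).add (hi2.const_mul (4 / Real.pi))).const_mul (A * U)
  have h1 : ∫ v : ℝ, A * Real.exp (-Real.pi * v ^ 2) * G v ≤
      ∫ v : ℝ, A * U * (2 * Real.exp (-Real.pi * v ^ 2) +
        4 / Real.pi * Real.exp (-(Real.pi / 2) * v ^ 2)) := by
    refine integral_mono_of_nonneg (Filter.Eventually.of_forall fun v =>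
      mul_nonneg (mul_nonneg hA (Real.exp_pos _).le) (hG0 v)) hi
      (Filter.Eventually.of_forall fun v => ?_)
    show A * Real.exp (-Real.pi * v ^ 2) * G v ≤ A * U * (2 * Real.exp (-Real.pi * v ^ 2) +
        4 / Real.pi * Real.exp (-(Real.pi / 2) * v ^ 2))
    calc A * Real.exp (-Real.pi * v ^ 2) * G v ≤
          A * Real.exp (-Real.pi * v ^ 2) * (U * (1 + |v|) ^ 2) :=
          mul_le_mul_of_nonneg_left (hG v) (mul_nonneg hA (Real.exp_pos _).le)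
      _ = A * U * (Real.exp (-Real.pi * v ^ 2) * (1 + |v|) ^ 2) := by ring
      _ ≤ _ := mul_le_mul_of_nonneg_left (smallC_gauss_pt v) (mul_nonneg hA hU)
  have h2 : ∫ v : ℝ, A * U * (2 * Real.exp (-Real.pi * v ^ 2) +
        4 / Real.pi * Real.exp (-(Real.pi / 2) * v ^ 2)) =
      A * U * (2 * 1 + 4 / Real.pi * Real.sqrt 2) := by
    rw [integral_const_mul, integral_add (hi1.const_mul 2) (hi2.const_mul (4 / Real.pi)),
      integral_const_mul, integral_const_mul, integral_gaussian, integral_gaussian,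
      div_self hπ.ne', Real.sqrt_one, show Real.pi / (Real.pi / 2) = 2 by field_simp]
  have h3 : 4 / Real.pi * Real.sqrt 2 ≤ 2 := by
    rw [div_mul_eq_mul_div, div_le_iff₀ hπ]
    have h4 : Real.sqrt 2 ≤ 1.5 := by
      rw [Real.sqrt_le_left (by norm_num)]
      norm_num
    have h5 := Real.pi_gt_three
    linarith
  rw [h2] at h1
  refine h1.trans ?_
  have h6 : 0 ≤ A * U := mul_nonneg hA hU
  nlinarith

private theorem smallC_JJ_nonneg (f : ℕ → ℝ) (N K d : ℕ) (l : ℤ) (α a Y : ℝ) :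
    0 ≤ JJ f N K d l α a Y := by
  unfold JJ
  exact integral_nonneg fun y => sq_nonneg _

/-- Splitting a sum over pairs. -/
private theorem smallC_split (K d r0 : ℕ) (hr0 : 1 ≤ r0) (k1 : ℤ) (g : ℤ → ℂ) :
    ∑ k2 ∈ (ks K).filter (fun k2 => k2 ≠ k1 ∧ (d : ℤ) ∣ k2 - k1), g k2 =
      ∑ k2 ∈ (ks K).filter (fun k2 => k2 ≠ k1 ∧ (d : ℤ) ∣ k2 - k1 ∧ |k2 - k1| < r0), g k2 +
      ∑ k2 ∈ (ks K).filter (fun k2 => (d : ℤ) ∣ k2 - k1 ∧ (r0 : ℤ) ≤ |k2 - k1|), g k2 := by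
  rw [← Finset.sum_filter_add_sum_filter_not
    ((ks K).filter (fun k2 => k2 ≠ k1 ∧ (d : ℤ) ∣ k2 - k1)) (fun k2 => |k2 - k1| < r0),
    Finset.filter_filter, Finset.filter_filter]
  congr 1
  · apply Finset.sum_congr _ fun _ _ => rfl
    apply Finset.filter_congr
    intro k2 _
    tauto
  · apply Finset.sum_congr _ fun _ _ => rfl
    apply Finset.filter_congr
    intro k2 _
    constructor
    · rintro ⟨⟨_, h2⟩, h3⟩
      exact ⟨h2, not_lt.1 h3⟩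
    · rintro ⟨h2, h3⟩
      refine ⟨⟨?_, h2⟩, not_lt.2 h3⟩
      rintro rfl
      rw [sub_self, abs_zero] at h3
      have : (1 : ℤ) ≤ r0 := by exact_mod_cast hr0
      omega

private theorem smallC_split_all (K d : ℕ) (k1 : ℤ) (hk1 : k1 ∈ ks K) (g : ℤ → ℂ) :
    ∑ k2 ∈ (ks K).filter (fun k2 => (d : ℤ) ∣ k2 - k1), g k2 =
      ∑ k2 ∈ (ks K).filter (fun k2 => k2 ≠ k1 ∧ (d : ℤ) ∣ k2 - k1), g k2 + g k1 := by
  have h1 : (ks K).filter (fun k2 => (d : ℤ) ∣ k2 - k1) =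
      insert k1 ((ks K).filter (fun k2 => k2 ≠ k1 ∧ (d : ℤ) ∣ k2 - k1)) := by
    ext k2
    rw [Finset.mem_insert, Finset.mem_filter, Finset.mem_filter]
    constructor
    · rintro ⟨h2, h3⟩
      by_cases h4 : k2 = k1
      · exact Or.inl h4
      · exact Or.inr ⟨h2, h4, h3⟩
    · rintro (rfl | ⟨h2, _, h3⟩)
      · exact ⟨hk1, by rw [sub_self]; exact dvd_zero _⟩
      · exact ⟨h2, h3⟩
  rw [h1, Finset.sum_insert (by simp), add_comm]

theorem small_den (f : ℕ → ℝ) (N K d r0 : ℕ) (A α L : ℝ) (a0 : ℤ) (hK : 1 ≤ K) (hKA : (K : ℝ) ≤ A)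
    (hd : 1 ≤ d) (hr0 : 1 ≤ r0) (hL : 1 ≤ L) (hKY : K * (L / (A * r0)) ≤ 1 / 2) (U : ℝ) (hU : 0 ≤ U)
    (hJ : ∀ l ∈ range d, ∀ v : ℝ, JJ f N K d l α (a0 + A * v) (L / (A * r0)) ≤ U * (1 + |v|) ^ 2) :
    ‖∑ k1 ∈ ks K, ∑ k2 ∈ (ks K).filter (fun k2 => k2 ≠ k1 ∧ (d : ℤ) ∣ k2 - k1), IpS f N A a0 α k1 k2 Set.univ‖
      ≤ 34 * A * (1 + Real.log K) * r0 * S2 f N + 8 * K ^ 2 * N * S2 f N * Real.exp (-L ^ 2)
        + 4 * A * d * U := by
  obtain ⟨Y, hY⟩ : ∃ Y : ℝ, Y = L / (A * r0) := ⟨_, rfl⟩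
  have hK1 : (1 : ℝ) ≤ K := by exact_mod_cast hK
  have hA1 : 1 ≤ A := hK1.trans hKA
  have hA0 : 0 < A := by linarith
  have hr0' : (1 : ℝ) ≤ r0 := by exact_mod_cast hr0
  have hd' : (1 : ℝ) ≤ d := by exact_mod_cast hd
  have hY0 : 0 ≤ Y := by rw [hY]; positivity
  have hS2 := S2_nonneg f N
  have hlogK : 0 ≤ Real.log K := Real.log_nonneg hK1
  have hnear1 := near_pairs f N K d r0 A α a0 hK hKA hd Set.univ MeasurableSet.univ
  have hnear2 := near_pairs f N K d r0 A α a0 hK hKA hd (Set.Icc (-Y) Y) measurableSet_Icc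
  have hfar := far_pairs f N K d r0 A α L a0 hA1 hr0 hL
  have hequal := equal_pairs f N K A α Y a0 hK hA0 hY0 (by rw [hY]; exact hKY)
  have hsq := square_identity f N K d A α Y a0 hd hA0 hY0
  rw [← hY] at hfar
  have hall : ‖∑ k1 ∈ ks K, ∑ k2 ∈ (ks K).filter (fun k2 => (d : ℤ) ∣ k2 - k1),
      IpS f N A a0 α k1 k2 (Set.Icc (-Y) Y)‖ ≤ 4 * A * d * U := by
    rw [hsq, Complex.norm_real, Real.norm_eq_abs]
    have h1 : ∀ l ∈ range d,
        |∫ v : ℝ, A * Real.exp (-Real.pi * v ^ 2) * JJ f N K d l α (a0 + A * v) Y| ≤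
          4 * A * U := by
      intro l hl
      obtain ⟨h2, h3⟩ := smallC_integral A U hA0.le hU
        (fun v => JJ f N K d l α (a0 + A * v) Y) (fun v => smallC_JJ_nonneg _ _ _ _ _ _ _ _)
        (fun v => by rw [hY]; exact hJ l hl v)
      rw [abs_of_nonneg h2]
      exact h3
    refine (Finset.abs_sum_le_sum_abs _ _).trans ((Finset.sum_le_sum h1).trans ?_)
    rw [Finset.sum_const, Finset.card_range, nsmul_eq_mul]
    linarith [show (d : ℝ) * (4 * A * U) = 4 * A * d * U by ring]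
  -- the decomposition
  have hdec : ∑ k1 ∈ ks K, ∑ k2 ∈ (ks K).filter (fun k2 => k2 ≠ k1 ∧ (d : ℤ) ∣ k2 - k1),
      IpS f N A a0 α k1 k2 Set.univ =
      ∑ k1 ∈ ks K, ∑ k2 ∈ (ks K).filter
          (fun k2 => k2 ≠ k1 ∧ (d : ℤ) ∣ k2 - k1 ∧ |k2 - k1| < r0),
        IpS f N A a0 α k1 k2 Set.univ +
      ∑ k1 ∈ ks K, ∑ k2 ∈ (ks K).filter
          (fun k2 => (d : ℤ) ∣ k2 - k1 ∧ (r0 : ℤ) ≤ |k2 - k1|),
        (IpS f N A a0 α k1 k2 Set.univ - IpS f N A a0 α k1 k2 (Set.Icc (-Y) Y)) +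
      ∑ k1 ∈ ks K, ∑ k2 ∈ (ks K).filter (fun k2 => (d : ℤ) ∣ k2 - k1),
        IpS f N A a0 α k1 k2 (Set.Icc (-Y) Y) -
      ∑ k1 ∈ ks K, ∑ k2 ∈ (ks K).filter
          (fun k2 => k2 ≠ k1 ∧ (d : ℤ) ∣ k2 - k1 ∧ |k2 - k1| < r0),
        IpS f N A a0 α k1 k2 (Set.Icc (-Y) Y) -
      ∑ k1 ∈ ks K, IpS f N A a0 α k1 k1 (Set.Icc (-Y) Y) := by
    rw [← Finset.sum_add_distrib, ← Finset.sum_add_distrib, ← Finset.sum_sub_distrib,
      ← Finset.sum_sub_distrib]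
    refine Finset.sum_congr rfl fun k1 hk1 => ?_
    rw [smallC_split K d r0 hr0 k1 (fun k2 => IpS f N A a0 α k1 k2 Set.univ),
      smallC_split_all K d k1 hk1 (fun k2 => IpS f N A a0 α k1 k2 (Set.Icc (-Y) Y)),
      smallC_split K d r0 hr0 k1 (fun k2 => IpS f N A a0 α k1 k2 (Set.Icc (-Y) Y)),
      Finset.sum_sub_distrib]
    ring
  have hn : ∀ (g : ℤ → ℤ → ℂ) (P : ℤ → Finset ℤ) (b : ℝ),
      ∑ k1 ∈ ks K, ∑ k2 ∈ P k1, ‖g k1 k2‖ ≤ b → ‖∑ k1 ∈ ks K, ∑ k2 ∈ P k1, g k1 k2‖ ≤ b := by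
    intro g P b h
    refine ((norm_sum_le _ _).trans (Finset.sum_le_sum fun k1 _ => norm_sum_le _ _)).trans h
  have hrd : 16 * A * (1 + Real.log K) * ((r0 : ℝ) / d) * S2 f N ≤
      16 * A * (1 + Real.log K) * r0 * S2 f N := by
    have h1 : (r0 : ℝ) / d ≤ r0 := div_le_self (by linarith) hd'
    have h2 : 0 ≤ 16 * A * (1 + Real.log K) := by positivity
    exact mul_le_mul_of_nonneg_right (mul_le_mul_of_nonneg_left h1 h2) hS2
  have hr1 : 2 * A * (1 + Real.log K) * S2 f N ≤ 2 * A * (1 + Real.log K) * r0 * S2 f N := by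
    have h2 : 0 ≤ 2 * A * (1 + Real.log K) := by positivity
    have h3 : 2 * A * (1 + Real.log K) ≤ 2 * A * (1 + Real.log K) * r0 :=
      le_mul_of_one_le_right h2 hr0'
    exact mul_le_mul_of_nonneg_right h3 hS2
  have hb1 := hn (fun k1 k2 => IpS f N A a0 α k1 k2 Set.univ) _ _ (hnear1.trans hrd)
  have hb2 := hn (fun k1 k2 => IpS f N A a0 α k1 k2 Set.univ -
    IpS f N A a0 α k1 k2 (Set.Icc (-Y) Y)) _ _ hfar
  have hb4 := hn (fun k1 k2 => IpS f N A a0 α k1 k2 (Set.Icc (-Y) Y)) _ _ (hnear2.trans hrd)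
  have hb5 : ‖∑ k1 ∈ ks K, IpS f N A a0 α k1 k1 (Set.Icc (-Y) Y)‖ ≤
      2 * A * (1 + Real.log K) * r0 * S2 f N :=
    ((norm_sum_le _ _).trans hequal).trans hr1
  rw [hdec]
  refine (norm_sub_le _ _).trans ?_
  refine (add_le_add ((norm_sub_le _ _).trans (add_le_add ((norm_add_le _ _).trans
    (add_le_add ((norm_add_le _ _).trans (add_le_add hb1 hb2)) hall)) hb4)) hb5).trans
    (le_of_eq ?_)
  ring

end Pool.Agent.H76.EHB
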