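import Pool.Agent.H76.EHB.SoffInt

/-!
# EHB Den: ordering by denominators

`sum_den`: every `c < n` has `c/n = c'/d` in lowest terms, `d ∣ n`, `c' ∈ red d`; a bijection
(see the proof of `sum_ram_divisors` in `Pool/Agent/H92/EH/Ramanujan.lean`).
-/

set_option autoImplicit false

namespace Pool.Agent.H76.EHB

open Finset MeasureTheory
open Pool.Agent.H92.EH (red)

theorem sum_den {M : Type*} [AddCommMonoid M] (n : ℕ) (hn : 0 < n) (Φ : ℝ → M) :
    ∑ c ∈ range n, Φ ((c : ℝ) / n) = ∑ d ∈ n.divisors, ∑ c ∈ red d, Φ ((c : ℝ) / d) := by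
  have h1 : ∑ b ∈ range n, Φ ((b : ℝ) / n)
      = ∑ d ∈ n.divisors, ∑ b ∈ (range n).filter (fun b => n / Nat.gcd b n = d),
          Φ ((b : ℝ) / n) := by
    rw [sum_fiberwise_of_maps_to]
    intro b _
    rw [Nat.mem_divisors]
    exact ⟨Nat.div_dvd_of_dvd (Nat.gcd_dvd_right b n), hn.ne'⟩
  rw [h1]
  refine sum_congr rfl fun d hd => ?_
  rw [Nat.mem_divisors] at hd
  obtain ⟨k, hk⟩ := hd.1
  have hdpos : 0 < d := Nat.pos_of_ne_zero (by rintro rfl; omega)
  have hkpos : 0 < k := Nat.pos_of_ne_zero (by rintro rfl; omega)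
  symm
  refine sum_bij (fun b _ => b * k) ?_ ?_ ?_ ?_
  · intro b hb
    rw [Pool.Agent.H92.EH.mem_red] at hb
    rw [mem_filter, mem_range]
    have hg : Nat.gcd (b * k) n = k := by
      rw [hk, Nat.gcd_mul_right]
      have : Nat.gcd b d = 1 := hb.2
      rw [this, one_mul]
    refine ⟨?_, ?_⟩
    · rw [hk]
      exact Nat.mul_lt_mul_of_pos_right hb.1 hkpos
    · rw [hg, hk]
      exact Nat.mul_div_cancel _ hkpos
  · intro b _ b' _ h
    exact Nat.eq_of_mul_eq_mul_right hkpos h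
  · intro c hc
    rw [mem_filter, mem_range] at hc
    obtain ⟨hc1, hc2⟩ := hc
    have hgpos : 0 < Nat.gcd c n := Nat.gcd_pos_of_pos_right _ hn
    have hgk : Nat.gcd c n = k := by
      have h2 : Nat.gcd c n ∣ n := Nat.gcd_dvd_right c n
      have h3 : n / Nat.gcd c n * Nat.gcd c n = n := Nat.div_mul_cancel h2
      rw [hc2] at h3
      exact Nat.eq_of_mul_eq_mul_left hdpos (h3.trans hk)
    have hkc : k ∣ c := by rw [← hgk]; exact Nat.gcd_dvd_left c n
    obtain ⟨b, hb⟩ := hkc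
    refine ⟨b, ?_, by rw [hb]; ring⟩
    rw [Pool.Agent.H92.EH.mem_red]
    constructor
    · have : k * b < k * d := by rw [← hb, mul_comm k d, ← hk]; exact hc1
      exact lt_of_mul_lt_mul_left this (Nat.zero_le _)
    · have h2 : Nat.gcd (k * b) (k * d) = k := by
        rw [← hb, mul_comm k d, ← hk]
        exact hgk
      rw [Nat.gcd_mul_left] at h2
      have h3 : k * Nat.gcd b d = k * 1 := by rw [h2, mul_one]
      exact Nat.eq_of_mul_eq_mul_left hkpos h3
  · intro b _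
    congr 1
    have hd0 : (d : ℝ) ≠ 0 := by exact_mod_cast hdpos.ne'
    have hk0 : (k : ℝ) ≠ 0 := by exact_mod_cast hkpos.ne'
    rw [hk]
    push_cast
    field_simp

theorem Soff_den (f : ℕ → ℝ) (N : ℕ) (A : ℝ) (hA : 0 < A) (a0 k1 k2 : ℤ) (hk : k1 ≠ k2) :
    ((Soff f N A a0 k1 k2 : ℝ) : ℂ)
      = ∑ d ∈ (k2 - k1).natAbs.divisors, ∑ c ∈ red d, IpS f N A a0 ((c : ℝ) / d) k1 k2 Set.univ := by
  rw [Soff_eq f N A hA a0 k1 k2 hk]
  refine sum_den (k2 - k1).natAbs ?_ (fun α => IpS f N A a0 α k1 k2 Set.univ)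
  rw [Int.natAbs_pos]
  exact sub_ne_zero.mpr (Ne.symm hk)

end Pool.Agent.H76.EHB
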