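import Pool.Agent.H76.EHB.IpB

/-!
# EHB Large1: reduction for large denominators

By `IpS_le` (S = univ) each `‖IpS‖` is at most half the sum of `Wk f N A (c/d) k1 r` and `Wk f N A (c/d) k2 r`, `r = k2 - k1`; `Wk` depends only on `|r|`
(the square).  By symmetry (swap `k1, k2`) the left side is at most `∑_{k ∈ ks K} ∑_{k' ∈ ks K, k' ≠ k} ∑_{d ∣ k'-k, d > R} ∑_c Wk(c/d, k, |k'-k|)`, and for
given `k` and `m ≥ 1` there are at most two `k'` with `|k' - k| = m`, `m ≤ 2K`.  (`Wk_nonneg`.)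
-/

set_option autoImplicit false

namespace Pool.Agent.H76.EHB

open Finset MeasureTheory
open Pool.Agent.H92.EH (red)

private theorem large1_Wk_congr (f : ℕ → ℝ) (N : ℕ) (A α k : ℝ) (r : ℤ) (S : Set ℝ) :
    Wk f N A α k (r : ℝ) S = Wk f N A α k ((r.natAbs : ℕ) : ℝ) S := by
  unfold Wk
  have h : ((r.natAbs : ℕ) : ℝ) ^ 2 = (r : ℝ) ^ 2 := by
    have : ((r.natAbs : ℕ) : ℝ) = |(r : ℝ)| := by
      rw [← Int.cast_abs, Int.abs_eq_natAbs]; simp
    rw [this, sq_abs]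
  congr 1
  funext y
  have h2 : (A * ((r.natAbs : ℕ) : ℝ) * y) ^ 2 = (A * (r : ℝ) * y) ^ 2 := by
    rw [mul_pow, mul_pow, mul_pow, mul_pow, h]
  rw [h2]

/-- the inner double sum -/
private noncomputable def large1G (f : ℕ → ℝ) (N R : ℕ) (A : ℝ) (k : ℤ) (m : ℕ) : ℝ :=
  ∑ d ∈ m.divisors.filter (fun d => R < d), ∑ c ∈ red d, Wk f N A ((c : ℝ) / d) k m Set.univ

private theorem large1G_nonneg (f : ℕ → ℝ) (N R : ℕ) (A : ℝ) (hA : 0 < A) (k : ℤ) (m : ℕ) :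
    0 ≤ large1G f N R A k m :=
  Finset.sum_nonneg fun _ _ => Finset.sum_nonneg fun _ _ => Wk_nonneg f N A _ _ _ hA.le _

private theorem large1_pair (f : ℕ → ℝ) (N R : ℕ) (A : ℝ) (a0 : ℤ) (hA : 0 < A) (k1 k2 : ℤ)
    (hk : k1 ≠ k2) :
    ∑ d ∈ (k2 - k1).natAbs.divisors.filter (fun d => R < d),
      ∑ c ∈ red d, ‖IpS f N A a0 ((c : ℝ) / d) k1 k2 Set.univ‖
      ≤ (large1G f N R A k1 (k2 - k1).natAbs + large1G f N R A k2 (k2 - k1).natAbs) / 2 := by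
  have h1 : ∀ d ∈ (k2 - k1).natAbs.divisors.filter (fun d => R < d),
      ∑ c ∈ red d, ‖IpS f N A a0 ((c : ℝ) / d) k1 k2 Set.univ‖ ≤
      (∑ c ∈ red d, Wk f N A ((c : ℝ) / d) k1 ((k2 - k1).natAbs : ℕ) Set.univ +
        ∑ c ∈ red d, Wk f N A ((c : ℝ) / d) k2 ((k2 - k1).natAbs : ℕ) Set.univ) / 2 := by
    intro d _
    rw [← Finset.sum_add_distrib, Finset.sum_div]
    refine Finset.sum_le_sum fun c _ => ?_
    rw [← large1_Wk_congr, ← large1_Wk_congr]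
    exact IpS_le f N A _ hA a0 k1 k2 hk Set.univ MeasurableSet.univ
  refine (Finset.sum_le_sum h1).trans ?_
  rw [← Finset.sum_div, Finset.sum_add_distrib]
  exact le_rfl

private theorem large1_fiber (G : ℕ → ℝ) (hG : ∀ m, 0 ≤ G m) (K : ℕ) (k : ℤ) (hk : k ∈ ks K) :
    ∑ k2 ∈ (ks K).erase k, G (k2 - k).natAbs ≤ 2 * ∑ m ∈ Icc 1 (2 * K), G m := by
  have hmaps : ∀ k2 ∈ (ks K).erase k, (k2 - k).natAbs ∈ Icc 1 (2 * K) := by
    intro k2 h2
    rw [Finset.mem_erase, mem_ks] at h2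
    rw [mem_ks] at hk
    rw [Finset.mem_Icc]
    have h3 := abs_le.1 h2.2.2
    have h4 := abs_le.1 hk.2
    have h5 := h2.1
    omega
  rw [← Finset.sum_fiberwise_of_maps_to hmaps, Finset.mul_sum]
  refine Finset.sum_le_sum fun m _ => ?_
  have h1 : ∑ k2 ∈ ((ks K).erase k).filter (fun k2 => (k2 - k).natAbs = m), G (k2 - k).natAbs =
      (((ks K).erase k).filter (fun k2 => (k2 - k).natAbs = m)).card * G m := by
    rw [Finset.sum_congr rfl (g := fun _ => G m)]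
    · rw [Finset.sum_const, nsmul_eq_mul]
    · intro k2 h2
      rw [(Finset.mem_filter.1 h2).2]
  rw [h1]
  refine mul_le_mul_of_nonneg_right ?_ (hG m)
  have h2 : ((ks K).erase k).filter (fun k2 => (k2 - k).natAbs = m) ⊆ {k + m, k - m} := by
    intro k2 h2
    have h3 := (Finset.mem_filter.1 h2).2
    rw [Finset.mem_insert, Finset.mem_singleton]
    omega
  have h3 := (Finset.card_le_card h2).trans Finset.card_le_two
  exact_mod_cast h3

theorem large1 (f : ℕ → ℝ) (N K R : ℕ) (A : ℝ) (a0 : ℤ) (hA : 0 < A) :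
    ∑ k1 ∈ ks K, ∑ k2 ∈ (ks K).erase k1, ∑ d ∈ (k2 - k1).natAbs.divisors.filter (fun d => R < d),
      ∑ c ∈ red d, ‖IpS f N A a0 ((c : ℝ) / d) k1 k2 Set.univ‖
      ≤ 2 * ∑ k ∈ ks K, ∑ m ∈ Icc 1 (2 * K), ∑ d ∈ m.divisors.filter (fun d => R < d),
          ∑ c ∈ red d, Wk f N A ((c : ℝ) / d) k m Set.univ := by
  have hs : ∑ k1 ∈ ks K, ∑ k2 ∈ (ks K).erase k1, large1G f N R A k2 (k2 - k1).natAbs =
      ∑ k1 ∈ ks K, ∑ k2 ∈ (ks K).erase k1, large1G f N R A k1 (k2 - k1).natAbs := by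
    rw [Finset.sum_comm' (t' := ks K) (s' := fun y => (ks K).erase y)]
    · refine Finset.sum_congr rfl fun k1 _ => Finset.sum_congr rfl fun k2 _ => ?_
      rw [show (k1 - k2).natAbs = (k2 - k1).natAbs by omega]
    · intro x y
      simp only [Finset.mem_erase]
      tauto
  calc ∑ k1 ∈ ks K, ∑ k2 ∈ (ks K).erase k1, ∑ d ∈ (k2 - k1).natAbs.divisors.filter (fun d => R < d),
      ∑ c ∈ red d, ‖IpS f N A a0 ((c : ℝ) / d) k1 k2 Set.univ‖
      ≤ ∑ k1 ∈ ks K, ∑ k2 ∈ (ks K).erase k1,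
        (large1G f N R A k1 (k2 - k1).natAbs + large1G f N R A k2 (k2 - k1).natAbs) / 2 := by
        refine Finset.sum_le_sum fun k1 _ => Finset.sum_le_sum fun k2 h2 => ?_
        exact large1_pair f N R A a0 hA k1 k2 (Finset.ne_of_mem_erase h2).symm
    _ = ∑ k1 ∈ ks K, ∑ k2 ∈ (ks K).erase k1, large1G f N R A k1 (k2 - k1).natAbs := by
        simp only [← Finset.sum_div, Finset.sum_add_distrib]
        rw [hs]
        ring
    _ ≤ ∑ k ∈ ks K, 2 * ∑ m ∈ Icc 1 (2 * K), large1G f N R A k m :=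
        Finset.sum_le_sum fun k hk => large1_fiber _ (large1G_nonneg f N R A hA k) K k hk
    _ = 2 * ∑ k ∈ ks K, ∑ m ∈ Icc 1 (2 * K), ∑ d ∈ m.divisors.filter (fun d => R < d),
          ∑ c ∈ red d, Wk f N A ((c : ℝ) / d) k m Set.univ := by
        rw [Finset.mul_sum]
        rfl

end Pool.Agent.H76.EHB
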