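import Pool.Agent.H76.EHB.Fold

/-!
# EHB FareyG: Gaussian large sieve for the fractions with denominators in `(R, 2R]`

With `λ = A g R / k`: for `r ∈ (R, 2R]` we have `(A g r / k)^2 ≥ λ^2`, so after the translation `θ → θ - c/r` the
left side is at most `∫ W |FF|^2` with `W(θ) = ∑_{r ∈ (R,2R]} ∑_{c ∈ red r} exp(-π (λ (θ - c/r))^2)`.
For a finite set `J` of integers `∑_{j ∈ J} W(θ + j)` is a sum of `exp(-π (λ (c/r - j - θ))^2)` over the points
`c/r - j`; two different ones (for different triples `(r, c, j)`) have distance `≥ 1/(4R^2)`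
(`farey_spacing` for `(r,c) ≠ (r',c')`: `≥ 1/(r r')`; equal `(r,c)`: `≥ 1`).  By `gauss_spaced` the sum is
`≤ 2 + 2 * 4 R^2/λ = 2 + 8 R k/(A g)`.  Apply `fold_le`.
-/

set_option autoImplicit false

namespace Pool.Agent.H76.EHB

open Finset MeasureTheory
open Pool.Agent.H92.EH (red)

theorem fg_gauss_int (lam c : ℝ) (hlam : 0 < lam) :
    Integrable (fun θ : ℝ => Real.exp (-Real.pi * (lam * (θ - c)) ^ 2)) := by
  have h1 : Integrable (fun θ : ℝ => Real.exp (-(Real.pi * lam ^ 2) * θ ^ 2)) :=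
    integrable_exp_neg_mul_sq (by positivity)
  have h2 := h1.comp_sub_right c
  refine h2.congr (Filter.Eventually.of_forall fun θ => ?_)
  simp only
  congr 1
  ring

theorem fg_one (f : ℕ → ℝ) (N : ℕ) (lam mu c : ℝ) (hlam : 0 < lam) (hmu : lam ≤ mu) :
    ∫ θ, Real.exp (-Real.pi * (mu * θ) ^ 2) * ‖FF f N (c + θ)‖ ^ 2 ≤
      ∫ θ, Real.exp (-Real.pi * (lam * (θ - c)) ^ 2) * ‖FF f N θ‖ ^ 2 := by
  have key : ∀ l : ℝ, ∫ θ, Real.exp (-Real.pi * (l * (θ - c)) ^ 2) * ‖FF f N θ‖ ^ 2 =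
      ∫ θ, Real.exp (-Real.pi * (l * θ) ^ 2) * ‖FF f N (c + θ)‖ ^ 2 := by
    intro l
    rw [← integral_sub_right_eq_self
      (fun θ => Real.exp (-Real.pi * (l * θ) ^ 2) * ‖FF f N (c + θ)‖ ^ 2) c]
    congr 1
    ext θ
    rw [show c + (θ - c) = θ by ring]
  have hmu0 : 0 < mu := lt_of_lt_of_le hlam hmu
  rw [← key mu]
  apply integral_mono
  · exact fold_integrable f N _ (fg_gauss_int mu c hmu0)
  · exact fold_integrable f N _ (fg_gauss_int lam c hlam)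
  · intro θ
    simp only
    apply mul_le_mul_of_nonneg_right _ (by positivity)
    apply Real.exp_le_exp.mpr
    have h1 : (lam * (θ - c)) ^ 2 ≤ (mu * (θ - c)) ^ 2 := by
      rw [mul_pow, mul_pow]
      apply mul_le_mul_of_nonneg_right _ (by positivity)
      exact pow_le_pow_left₀ hlam.le hmu 2
    nlinarith [Real.pi_pos]

theorem fg_sep (R : ℕ) (hR : 1 ≤ R) (a b : Σ _ : ℕ, Σ _ : ℕ, ℤ)
    (ha1 : a.1 ∈ Ioc R (2 * R)) (ha2 : a.2.1 ∈ red a.1)
    (hb1 : b.1 ∈ Ioc R (2 * R)) (hb2 : b.2.1 ∈ red b.1) (hab : a ≠ b) :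
    1 / (4 * (R : ℝ) ^ 2) ≤
      |((a.2.1 : ℝ) / a.1 - a.2.2) - ((b.2.1 : ℝ) / b.1 - b.2.2)| := by
  obtain ⟨r, c, j⟩ := a
  obtain ⟨r', c', j'⟩ := b
  simp only at ha1 ha2 hb1 hb2 ⊢
  rw [mem_Ioc] at ha1 hb1
  have hR0 : (1 : ℝ) ≤ R := by exact_mod_cast hR
  have hr2 : (r : ℝ) ≤ 2 * R := by exact_mod_cast ha1.2
  have hr2' : (r' : ℝ) ≤ 2 * R := by exact_mod_cast hb1.2
  have hr0 : (0 : ℝ) < r := by
    have : 0 < r := by omega
    exact_mod_cast this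
  have hr0' : (0 : ℝ) < r' := by
    have : 0 < r' := by omega
    exact_mod_cast this
  by_cases h : r = r' ∧ c = c'
  · obtain ⟨h1, h2⟩ := h
    subst h1 h2
    have hj : j ≠ j' := by
      intro h
      apply hab
      rw [h]
    have h3 : (1 : ℝ) ≤ |(j' : ℝ) - j| := by
      have : (1 : ℤ) ≤ |j' - j| := Int.one_le_abs (sub_ne_zero.mpr (Ne.symm hj))
      exact_mod_cast this
    have h4 : ((c : ℝ) / r - j) - ((c : ℝ) / r - j') = j' - j := by ring
    rw [h4]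
    refine le_trans ?_ h3
    rw [div_le_one (by positivity)]
    nlinarith
  · have h1 := Pool.Agent.H92.EH.farey_spacing (r := r) (r' := r') (b := c) (b' := c')
      (by omega) (by omega) ha2 hb2 h (j - j')
    have h2 : (c : ℝ) / r - (c' : ℝ) / r' - ((j - j' : ℤ) : ℝ) =
        ((c : ℝ) / r - j) - ((c' : ℝ) / r' - j') := by
      push_cast
      ring
    rw [h2] at h1
    refine le_trans ?_ h1
    apply one_div_le_one_div_of_le (by positivity)
    nlinarith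

theorem fg_bound (R : ℕ) (hR : 1 ≤ R) (lam : ℝ) (hlam : 0 < lam) (θ : ℝ) (J : Finset ℤ) :
    ∑ j ∈ J, ∑ r ∈ Ioc R (2 * R), ∑ c ∈ red r,
      Real.exp (-Real.pi * (lam * ((θ + j) - (c : ℝ) / r)) ^ 2) ≤
      2 + 2 / (lam * (1 / (4 * (R : ℝ) ^ 2))) := by
  have hR0 : (1 : ℝ) ≤ R := by exact_mod_cast hR
  set T : Finset (Σ _ : ℕ, Σ _ : ℕ, ℤ) :=
    (Ioc R (2 * R)).sigma fun r => (red r).sigma fun _ => J with hT
  have h1 := gauss_spaced T (fun a => (a.2.1 : ℝ) / a.1 - a.2.2) (1 / (4 * (R : ℝ) ^ 2)) lam θ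
    (by positivity) hlam (by
      intro a ha b hb hab
      rw [hT, mem_sigma, mem_sigma] at ha hb
      exact fg_sep R hR a b ha.1 ha.2.1 hb.1 hb.2.1 hab)
  refine le_trans (le_of_eq ?_) h1
  rw [hT, Finset.sum_sigma, Finset.sum_comm]
  apply Finset.sum_congr rfl
  intro r _
  rw [Finset.sum_sigma, Finset.sum_comm]
  apply Finset.sum_congr rfl
  intro c _
  apply Finset.sum_congr rfl
  intro j _
  simp only
  congr 1
  ring

theorem farey_gauss (f : ℕ → ℝ) (N : ℕ) (A k : ℝ) (g R : ℕ) (hA : 0 < A) (hk : 0 < k) (hg : 1 ≤ g)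
    (hR : 1 ≤ R) :
    ∑ r ∈ Ioc R (2 * R), ∑ c ∈ red r,
      ∫ θ, Real.exp (-Real.pi * (A * g * r / k * θ) ^ 2) * ‖FF f N ((c : ℝ) / r + θ)‖ ^ 2
      ≤ (2 + 8 * R * k / (A * g)) * S2 f N := by
  have hR0 : (1 : ℝ) ≤ R := by exact_mod_cast hR
  have hg0 : (1 : ℝ) ≤ g := by exact_mod_cast hg
  set lam : ℝ := A * g * R / k with hlam
  have hlam0 : 0 < lam := by positivity
  have hC : 2 + 8 * R * k / (A * g) = 2 + 2 / (lam * (1 / (4 * (R : ℝ) ^ 2))) := by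
    rw [hlam]
    field_simp
    ring
  have hint : ∀ (c r : ℕ), Integrable (fun θ : ℝ =>
      Real.exp (-Real.pi * (lam * (θ - (c : ℝ) / r)) ^ 2)) := fun c r => fg_gauss_int _ _ hlam0
  have step1 : ∑ r ∈ Ioc R (2 * R), ∑ c ∈ red r,
      ∫ θ, Real.exp (-Real.pi * (A * g * r / k * θ) ^ 2) * ‖FF f N ((c : ℝ) / r + θ)‖ ^ 2 ≤
      ∑ r ∈ Ioc R (2 * R), ∑ c ∈ red r,
      ∫ θ, Real.exp (-Real.pi * (lam * (θ - (c : ℝ) / r)) ^ 2) * ‖FF f N θ‖ ^ 2 := by
    apply Finset.sum_le_sum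
    intro r hr
    rw [mem_Ioc] at hr
    apply Finset.sum_le_sum
    intro c _
    apply fg_one f N lam _ _ hlam0
    have : (R : ℝ) ≤ r := by exact_mod_cast hr.1.le
    rw [hlam]
    gcongr
  refine le_trans step1 ?_
  have step2 : ∑ r ∈ Ioc R (2 * R), ∑ c ∈ red r,
      ∫ θ, Real.exp (-Real.pi * (lam * (θ - (c : ℝ) / r)) ^ 2) * ‖FF f N θ‖ ^ 2 =
      ∫ θ, (∑ r ∈ Ioc R (2 * R), ∑ c ∈ red r,
        Real.exp (-Real.pi * (lam * (θ - (c : ℝ) / r)) ^ 2)) * ‖FF f N θ‖ ^ 2 := by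
    have e1 : (fun θ : ℝ => (∑ r ∈ Ioc R (2 * R), ∑ c ∈ red r,
        Real.exp (-Real.pi * (lam * (θ - (c : ℝ) / r)) ^ 2)) * ‖FF f N θ‖ ^ 2) =
        fun θ : ℝ => ∑ r ∈ Ioc R (2 * R), ∑ c ∈ red r,
          (Real.exp (-Real.pi * (lam * (θ - (c : ℝ) / r)) ^ 2) * ‖FF f N θ‖ ^ 2) := by
      ext θ
      rw [Finset.sum_mul]
      apply Finset.sum_congr rfl
      intro r _
      rw [Finset.sum_mul]
    rw [e1, integral_finsetSum]
    · apply Finset.sum_congr rfl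
      intro r _
      rw [integral_finsetSum]
      intro c _
      exact fold_integrable f N _ (hint c r)
    · intro r _
      apply integrable_finsetSum
      intro c _
      exact fold_integrable f N _ (hint c r)
  rw [step2, hC]
  apply fold_le f N
  · fun_prop
  · intro θ
    exact Finset.sum_nonneg fun r _ => Finset.sum_nonneg fun c _ => (Real.exp_pos _).le
  · exact integrable_finsetSum _ fun r _ => integrable_finsetSum _ fun c _ => hint c r
  · intro θ J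
    exact fg_bound R hR lam hlam0 θ J

end Pool.Agent.H76.EHB
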