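import Pool.Agent.H76.EHB.IpB
import Pool.Agent.H76.EHB.FareyG

/-!
# EHB Large2: the bound for large denominators

Write `m = g d`, `1 ≤ g ≤ 2K/d`, and put `d > R` into the dyadic block `(R 2^j, R 2^{j+1}]`, `j ≥ 0`, `R 2^j < 2K`, so `g ≤ 2K/(R 2^j)`.  `Wk_scale` and `farey_gauss`
(with `|k|`, `R 2^j` in place of `k`, `R`; `(A m/k)^2 = (A g d/|k|)^2`): for fixed `k, j, g` the sum over `d` in the block and `c ∈ red d` is at most
`(A/|k|) (2 + 8 R 2^j |k|/(A g)) S2`.  Sums: `2 A ∑_k 1/|k| ∑_j ∑_g 1 ≤ 2 A * 2(1+log K) * 4K/R` (`∑_{j ≥ 0} 2K/(R 2^j) ≤ 4K/R`, `sum_inv_ks`) and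
`8 ∑_k ∑_j R 2^j ∑_g 1/g ≤ 8 * 2K * 4K * (1 + log(2K))`  (`∑_{j: R 2^j < 2K} R 2^j ≤ 4K`).
Total `≤ S2 (16 A K (1+log K)/R + 64 K^2 (1+log 2K))`.
-/

set_option autoImplicit false

namespace Pool.Agent.H76.EHB

open Finset MeasureTheory
open Pool.Agent.H92.EH (red)

/-- swap of the divisor sum -/
private theorem l2_divsum (M R : ℕ) (F : ℕ → ℕ → ℝ) :
    ∑ m ∈ Icc 1 M, ∑ d ∈ m.divisors.filter (fun d => R < d), F m d
      = ∑ d ∈ Ioc R M, ∑ g ∈ Icc 1 (M / d), F (g * d) d := by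
  have h1 : ∀ m ∈ Icc 1 M, ∑ d ∈ m.divisors.filter (fun d => R < d), F m d
      = ∑ d ∈ Ioc R M, if d ∣ m then F m d else 0 := by
    intro m hm
    rw [mem_Icc] at hm
    rw [← Finset.sum_filter]
    apply Finset.sum_congr _ (fun _ _ => rfl)
    ext d
    simp only [mem_filter, Nat.mem_divisors, mem_Ioc]
    constructor
    · rintro ⟨⟨h, h0⟩, h2⟩
      exact ⟨⟨h2, (Nat.le_of_dvd (by omega) h).trans hm.2⟩, h⟩
    · rintro ⟨⟨h2, h3⟩, h⟩
      exact ⟨⟨h, by omega⟩, h2⟩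
  rw [Finset.sum_congr rfl h1, Finset.sum_comm]
  apply Finset.sum_congr rfl
  intro d hd
  rw [mem_Ioc] at hd
  have hd0 : 0 < d := by omega
  rw [← Finset.sum_filter]
  symm
  apply Finset.sum_bij (fun g _ => g * d)
  · intro g hg
    rw [mem_Icc] at hg
    rw [mem_filter, mem_Icc]
    refine ⟨⟨Nat.mul_pos (by omega) hd0, ?_⟩, Dvd.intro_left g rfl⟩
    exact (Nat.le_div_iff_mul_le hd0).1 hg.2
  · intro a _ b _ h
    exact Nat.eq_of_mul_eq_mul_right hd0 h
  · intro m hm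
    rw [mem_filter, mem_Icc] at hm
    obtain ⟨⟨h1, h2⟩, h3⟩ := hm
    obtain ⟨g, rfl⟩ := h3
    refine ⟨g, ?_, by ring⟩
    rw [mem_Icc]
    constructor
    · rcases Nat.eq_zero_or_pos g with h | h
      · subst h; simp at h1
      · exact h
    · rw [Nat.le_div_iff_mul_le hd0]; rwa [mul_comm]
  · intro g _
    rfl

/-- decomposition into dyadic blocks -/
private theorem l2_blocks (R J : ℕ) (h : ℕ → ℝ) :
    ∑ d ∈ Ioc R (R * 2 ^ J), h d
      = ∑ j ∈ range J, ∑ d ∈ Ioc (R * 2 ^ j) (2 * (R * 2 ^ j)), h d := by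
  induction J with
  | zero => simp
  | succ J ih =>
    rw [Finset.sum_range_succ, ← ih]
    have e : 2 * (R * 2 ^ J) = R * 2 ^ (J + 1) := by rw [pow_succ]; ring
    rw [e]
    symm
    apply Finset.sum_Ioc_consecutive
    · exact Nat.le_mul_of_pos_right R (by positivity)
    · exact Nat.mul_le_mul_left R (Nat.pow_le_pow_right (by norm_num) (by omega))

private theorem l2_geo (M R J : ℕ) (hR : 1 ≤ R) :
    ∑ j ∈ range J, ((M / (R * 2 ^ j) : ℕ) : ℝ) ≤ 2 * M / R := by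
  have hR' : (0 : ℝ) < R := by exact_mod_cast hR
  have h1 : ∀ j ∈ range J, ((M / (R * 2 ^ j) : ℕ) : ℝ) ≤ (M / R : ℝ) * (1 / 2) ^ j := by
    intro j _
    have := @Nat.cast_div_le ℝ _ _ _ M (R * 2 ^ j)
    refine this.trans (le_of_eq ?_)
    push_cast
    rw [div_pow, one_pow]
    field_simp
  refine (Finset.sum_le_sum h1).trans ?_
  rw [← Finset.mul_sum]
  have h2 : ∑ j ∈ range J, ((1 : ℝ) / 2) ^ j ≤ 2 := by
    have h3 : ∑ j ∈ range J, ((1 : ℝ) / 2) ^ j = 2 - 2 * (1 / 2) ^ J := by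
      induction J with
      | zero => simp
      | succ J ih =>
        rw [Finset.sum_range_succ, ih (fun j hj => h1 j (mem_range.2 (lt_trans (mem_range.1 hj) (Nat.lt_succ_self J))))]
        rw [pow_succ]; ring
    rw [h3]
    have : (0 : ℝ) ≤ (1 / 2) ^ J := by positivity
    linarith
  calc (M / R : ℝ) * ∑ j ∈ range J, ((1 : ℝ) / 2) ^ j ≤ (M / R : ℝ) * 2 := by
        apply mul_le_mul_of_nonneg_left h2; positivity
    _ = 2 * M / R := by ring

private theorem l2_geo2 (M R J : ℕ) :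
    (∑ j ∈ range J, (if R * 2 ^ j ≤ M then (R * 2 ^ j) else 0) ≤ 2 * M) ∧
      (∑ j ∈ range J, (if R * 2 ^ j ≤ M then (R * 2 ^ j) else 0) ≤ R * 2 ^ J) := by
  induction J with
  | zero => simp
  | succ J ih =>
    rw [Finset.sum_range_succ]
    have e : R * 2 ^ (J + 1) = 2 * (R * 2 ^ J) := by rw [pow_succ]; ring
    rw [e]
    split_ifs with h
    · constructor <;> omega
    · constructor <;> omega

private theorem l2_harm (M n : ℕ) (hn : n ≤ M) :
    ∑ g ∈ Icc 1 n, (1 : ℝ) / g ≤ 1 + Real.log M := by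
  have h0 : 0 ≤ Real.log M := Real.log_natCast_nonneg M
  rcases Nat.eq_zero_or_pos n with h | h
  · subst h; simp; linarith
  · have h1 : ∑ g ∈ Icc 1 n, (1 : ℝ) / g = ((harmonic n : ℚ) : ℝ) := by
      rw [harmonic_eq_sum_Icc]
      push_cast
      apply Finset.sum_congr rfl
      intro i _
      rw [one_div]
    rw [h1]
    refine (harmonic_le_one_add_log n).trans ?_
    have : Real.log n ≤ Real.log M := by
      apply Real.log_le_log
      · exact_mod_cast h
      · exact_mod_cast hn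
    linarith

theorem large2 (f : ℕ → ℝ) (N K R : ℕ) (A : ℝ) (hA : 0 < A) (hK : 1 ≤ K) (hR : 1 ≤ R) :
    ∑ k ∈ ks K, ∑ m ∈ Icc 1 (2 * K), ∑ d ∈ m.divisors.filter (fun d => R < d),
          ∑ c ∈ red d, Wk f N A ((c : ℝ) / d) k m Set.univ
      ≤ 64 * S2 f N * (1 + Real.log (2 * K)) * (A * K / R + K ^ 2) := by
  have hS := S2_nonneg f N
  have hR' : (0 : ℝ) < R := by exact_mod_cast hR
  have hK' : (1 : ℝ) ≤ K := by exact_mod_cast hK
  set M : ℕ := 2 * K with hMdef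
  have hM1 : 1 ≤ M := by omega
  have hMr : (M : ℝ) = 2 * K := by rw [hMdef]; push_cast; ring
  have hlogM : 0 ≤ Real.log M := Real.log_natCast_nonneg M
  -- the inner sums
  have hk : ∀ k ∈ ks K, ∑ m ∈ Icc 1 M, ∑ d ∈ m.divisors.filter (fun d => R < d),
          ∑ c ∈ red d, Wk f N A ((c : ℝ) / d) k m Set.univ
      ≤ (4 * A * M / R * S2 f N) * (1 / |(k : ℝ)|) + 16 * M * (1 + Real.log M) * S2 f N := by
    intro k hk
    rw [mem_ks] at hk
    have hk0 : (k : ℝ) ≠ 0 := by exact_mod_cast hk.1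
    have hka : 0 < |(k : ℝ)| := abs_pos.2 hk0
    set E : ℕ → ℕ → ℝ := fun g d => ∑ c ∈ red d,
      ∫ θ, Real.exp (-Real.pi * (A * g * d / |(k : ℝ)| * θ) ^ 2) * ‖FF f N ((c : ℝ) / d + θ)‖ ^ 2
      with hE
    have hEnn : ∀ g d, 0 ≤ E g d := by
      intro g d
      apply Finset.sum_nonneg
      intro c _
      apply integral_nonneg
      intro θ
      positivity
    have hscale : ∀ g d : ℕ, ∑ c ∈ red d, Wk f N A ((c : ℝ) / d) k ((g * d : ℕ) : ℝ) Set.univ
        = A / |(k : ℝ)| * E g d := by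
      intro g d
      rw [hE]
      simp only
      rw [Finset.mul_sum]
      apply Finset.sum_congr rfl
      intro c _
      rw [Wk_scale f N A _ _ _ hk0]
      congr 1
      apply integral_congr_ae
      filter_upwards with θ
      have : (A * ((g * d : ℕ) : ℝ) / (k : ℝ) * θ) ^ 2 = (A * g * d / |(k : ℝ)| * θ) ^ 2 := by
        rw [mul_pow, mul_pow, div_pow, div_pow, sq_abs]
        push_cast
        ring
      rw [this]
    rw [l2_divsum M R (fun m d => ∑ c ∈ red d, Wk f N A ((c : ℝ) / d) k m Set.univ)]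
    simp only [hscale]
    -- pull out the constant
    have hpull : ∑ d ∈ Ioc R M, ∑ g ∈ Icc 1 (M / d), A / |(k : ℝ)| * E g d
        = A / |(k : ℝ)| * ∑ d ∈ Ioc R M, ∑ g ∈ Icc 1 (M / d), E g d := by
      rw [Finset.mul_sum]
      apply Finset.sum_congr rfl
      intro d _
      rw [Finset.mul_sum]
    rw [hpull]
    -- blocks
    have hb1 : ∑ d ∈ Ioc R M, ∑ g ∈ Icc 1 (M / d), E g d
        ≤ ∑ d ∈ Ioc R (R * 2 ^ M), ∑ g ∈ Icc 1 (M / d), E g d := by
      apply Finset.sum_le_sum_of_subset_of_nonneg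
      · apply Finset.Ioc_subset_Ioc_right
        have h1 : M < 2 ^ M := Nat.lt_two_pow_self
        calc M ≤ 1 * 2 ^ M := by omega
          _ ≤ R * 2 ^ M := Nat.mul_le_mul_right _ hR
      · intro d _ _
        apply Finset.sum_nonneg
        intro g _
        exact hEnn g d
    rw [l2_blocks] at hb1
    have hb2 : ∑ j ∈ range M, ∑ d ∈ Ioc (R * 2 ^ j) (2 * (R * 2 ^ j)), ∑ g ∈ Icc 1 (M / d), E g d
        ≤ ∑ j ∈ range M, ∑ g ∈ Icc 1 (M / (R * 2 ^ j)), (2 + 8 * ((R * 2 ^ j : ℕ) : ℝ) * |(k : ℝ)| / (A * g)) * S2 f N := by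
      apply Finset.sum_le_sum
      intro j _
      have h1 : ∑ d ∈ Ioc (R * 2 ^ j) (2 * (R * 2 ^ j)), ∑ g ∈ Icc 1 (M / d), E g d
          ≤ ∑ d ∈ Ioc (R * 2 ^ j) (2 * (R * 2 ^ j)), ∑ g ∈ Icc 1 (M / (R * 2 ^ j)), E g d := by
        apply Finset.sum_le_sum
        intro d hd
        rw [mem_Ioc] at hd
        apply Finset.sum_le_sum_of_subset_of_nonneg
        · apply Finset.Icc_subset_Icc_right
          apply Nat.div_le_div_left (by omega)
          positivity
        · intro g _ _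
          exact hEnn g d
      refine h1.trans ?_
      rw [Finset.sum_comm]
      apply Finset.sum_le_sum
      intro g hg
      rw [mem_Icc] at hg
      exact farey_gauss f N A |(k : ℝ)| g (R * 2 ^ j) hA hka hg.1 (Nat.mul_pos hR (by positivity))
    have hb3 : ∑ j ∈ range M, ∑ g ∈ Icc 1 (M / (R * 2 ^ j)), (2 + 8 * ((R * 2 ^ j : ℕ) : ℝ) * |(k : ℝ)| / (A * g)) * S2 f N
        ≤ (2 * (2 * M / R) + 8 * |(k : ℝ)| / A * ((2 * M) * (1 + Real.log M))) * S2 f N := by
      have h1 : ∀ j ∈ range M, ∑ g ∈ Icc 1 (M / (R * 2 ^ j)), (2 + 8 * ((R * 2 ^ j : ℕ) : ℝ) * |(k : ℝ)| / (A * g)) * S2 f N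
          ≤ (2 * ((M / (R * 2 ^ j) : ℕ) : ℝ) + 8 * |(k : ℝ)| / A * (((if R * 2 ^ j ≤ M then R * 2 ^ j else 0 : ℕ) : ℝ) * (1 + Real.log M))) * S2 f N := by
        intro j _
        rw [← Finset.sum_mul]
        apply mul_le_mul_of_nonneg_right _ hS
        rw [Finset.sum_add_distrib]
        have e1 : ∑ g ∈ Icc 1 (M / (R * 2 ^ j)), (2 : ℝ) = 2 * ((M / (R * 2 ^ j) : ℕ) : ℝ) := by
          rw [Finset.sum_const, Nat.card_Icc]
          simp
          ring
        rw [e1]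
        have e2 : ∑ g ∈ Icc 1 (M / (R * 2 ^ j)), 8 * ((R * 2 ^ j : ℕ) : ℝ) * |(k : ℝ)| / (A * g)
            = 8 * |(k : ℝ)| / A * (((R * 2 ^ j : ℕ) : ℝ) * ∑ g ∈ Icc 1 (M / (R * 2 ^ j)), (1 : ℝ) / g) := by
          rw [Finset.mul_sum, Finset.mul_sum]
          apply Finset.sum_congr rfl
          intro g hg
          rw [mem_Icc] at hg
          have : (0 : ℝ) < g := by exact_mod_cast hg.1
          field_simp
        rw [e2]
        gcongr ?_ + 8 * |(k : ℝ)| / A * ?_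
        · exact le_refl _
        · split_ifs with h
          · apply mul_le_mul_of_nonneg_left _ (Nat.cast_nonneg _)
            exact l2_harm M _ (Nat.div_le_self _ _)
          · rw [Nat.div_eq_of_lt (by omega)]
            simp
      refine (Finset.sum_le_sum h1).trans ?_
      rw [← Finset.sum_mul]
      apply mul_le_mul_of_nonneg_right _ hS
      rw [Finset.sum_add_distrib, ← Finset.mul_sum, ← Finset.mul_sum, ← Finset.sum_mul]
      have g1 := l2_geo M R M hR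
      have g2 := (l2_geo2 M R M).1
      have g3 : ∑ j ∈ range M, ((if R * 2 ^ j ≤ M then R * 2 ^ j else 0 : ℕ) : ℝ) ≤ 2 * M := by
        exact_mod_cast g2
      gcongr
    calc A / |(k : ℝ)| * ∑ d ∈ Ioc R M, ∑ g ∈ Icc 1 (M / d), E g d
        ≤ A / |(k : ℝ)| * ((2 * (2 * M / R) + 8 * |(k : ℝ)| / A * ((2 * M) * (1 + Real.log M))) * S2 f N) := by
          apply mul_le_mul_of_nonneg_left _ (by positivity)
          exact hb1.trans (hb2.trans hb3)
      _ = (4 * A * M / R * S2 f N) * (1 / |(k : ℝ)|) + 16 * M * (1 + Real.log M) * S2 f N := by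
          field_simp
          ring
  refine (Finset.sum_le_sum hk).trans ?_
  rw [Finset.sum_add_distrib, ← Finset.mul_sum, Finset.sum_const, card_ks, nsmul_eq_mul]
  have hs := sum_inv_ks K hK
  have hlogK : Real.log K ≤ Real.log (2 * K) := by
    apply Real.log_le_log <;> linarith
  have h1 : (4 * A * M / R * S2 f N) * ∑ k ∈ ks K, 1 / |(k : ℝ)|
      ≤ (4 * A * M / R * S2 f N) * (2 * (1 + Real.log (2 * K))) := by
    apply mul_le_mul_of_nonneg_left _ (by positivity)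
    linarith
  have hL : 0 ≤ 1 + Real.log (2 * K) := by
    have : 0 ≤ Real.log (2 * (K : ℝ)) := Real.log_nonneg (by linarith)
    linarith
  rw [hMr] at h1 ⊢
  have e1 : 4 * A * (2 * (K : ℝ)) / R * S2 f N * (2 * (1 + Real.log (2 * K)))
      = 16 * S2 f N * (1 + Real.log (2 * K)) * (A * K / R) := by
    field_simp
    ring
  rw [e1] at h1
  have e2 : 0 ≤ S2 f N * (1 + Real.log (2 * K)) * (A * K / R) := by positivity
  nlinarith [h1, e2]

end Pool.Agent.H76.EHB
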