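import Pool.Agent.H76.EHB.DiagB
import Pool.Agent.H76.EHB.Den
import Pool.Agent.H76.EHB.Large1
import Pool.Agent.H76.EHB.Large2
import Pool.Agent.H76.EHB.SmallC

/-!
# EHB Second: the second moment (abstract form)

`expand`, `diag_bound`; the off-diagonal sum is by `Soff_den` the sum over `k1 ≠ k2`, `d ∣ k2 - k1`, `c ∈ red d` of `IpS univ`.
Part `d > R`: `large1`, `large2`.  Part `d ≤ R`: exchange sums (`d ∈ Icc 1 R`, `c ∈ red d`, then the pairs `k1 ≠ k2` with `d ∣ k2 - k1`) and use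
`small_den` (number of `(d, c)`: `≤ R^2`, `d ≤ R`).
-/

set_option autoImplicit false

namespace Pool.Agent.H76.EHB

open Finset MeasureTheory
open Pool.Agent.H92.EH (red)

/-- the small denominators: exchange of the sums -/
theorem Second_swap (K R : ℕ) (Φ : ℤ → ℤ → ℝ → ℂ) :
    ∑ k1 ∈ ks K, ∑ k2 ∈ (ks K).erase k1, ∑ d ∈ (k2 - k1).natAbs.divisors.filter (fun d => ¬ R < d),
      ∑ c ∈ red d, Φ k1 k2 ((c : ℝ) / d)
      = ∑ d ∈ Icc 1 R, ∑ c ∈ red d, ∑ k1 ∈ ks K,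
          ∑ k2 ∈ (ks K).filter (fun k2 => k2 ≠ k1 ∧ (d : ℤ) ∣ k2 - k1), Φ k1 k2 ((c : ℝ) / d) := by
  have h1 : ∀ k1 ∈ ks K, ∀ k2 ∈ (ks K).erase k1,
      ∑ d ∈ (k2 - k1).natAbs.divisors.filter (fun d => ¬ R < d), ∑ c ∈ red d, Φ k1 k2 ((c : ℝ) / d)
      = ∑ d ∈ Icc 1 R, if (d : ℤ) ∣ k2 - k1 then ∑ c ∈ red d, Φ k1 k2 ((c : ℝ) / d) else 0 := by
    intro k1 _ k2 hk2
    rw [← sum_filter]
    refine sum_congr ?_ fun _ _ => rfl
    ext d
    rw [mem_filter, mem_filter, Nat.mem_divisors, mem_Icc, Int.natCast_dvd]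
    have hne : (k2 - k1).natAbs ≠ 0 := by
      rw [mem_erase] at hk2
      rw [Int.natAbs_ne_zero]
      exact sub_ne_zero.mpr hk2.1
    constructor
    · rintro ⟨⟨h2, -⟩, h3⟩
      exact ⟨⟨Nat.pos_of_ne_zero (fun h => hne (by rw [h, zero_dvd_iff] at h2; exact h2)),
        not_lt.mp h3⟩, h2⟩
    · rintro ⟨⟨h2, h3⟩, h4⟩
      exact ⟨⟨h4, hne⟩, not_lt.mpr h3⟩
  calc _ = ∑ k1 ∈ ks K, ∑ k2 ∈ (ks K).erase k1, ∑ d ∈ Icc 1 R,
        if (d : ℤ) ∣ k2 - k1 then ∑ c ∈ red d, Φ k1 k2 ((c : ℝ) / d) else 0 :=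
        sum_congr rfl fun k1 hk1 => sum_congr rfl fun k2 hk2 => h1 k1 hk1 k2 hk2
    _ = ∑ k1 ∈ ks K, ∑ d ∈ Icc 1 R, ∑ k2 ∈ (ks K).erase k1,
        if (d : ℤ) ∣ k2 - k1 then ∑ c ∈ red d, Φ k1 k2 ((c : ℝ) / d) else 0 :=
        sum_congr rfl fun k1 _ => sum_comm
    _ = ∑ d ∈ Icc 1 R, ∑ k1 ∈ ks K, ∑ k2 ∈ (ks K).erase k1,
        if (d : ℤ) ∣ k2 - k1 then ∑ c ∈ red d, Φ k1 k2 ((c : ℝ) / d) else 0 := sum_comm
    _ = _ := by
        refine sum_congr rfl fun d _ => ?_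
        have h2 : ∀ k1 ∈ ks K, ∑ k2 ∈ (ks K).erase k1,
            (if (d : ℤ) ∣ k2 - k1 then ∑ c ∈ red d, Φ k1 k2 ((c : ℝ) / d) else 0)
            = ∑ c ∈ red d, ∑ k2 ∈ (ks K).filter (fun k2 => k2 ≠ k1 ∧ (d : ℤ) ∣ k2 - k1),
              Φ k1 k2 ((c : ℝ) / d) := by
          intro k1 _
          rw [← sum_filter, sum_comm]
          refine sum_congr rfl fun c _ => sum_congr ?_ fun _ _ => rfl
          ext k2
          rw [mem_filter, mem_erase, mem_filter]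
          tauto
        rw [sum_congr rfl h2, sum_comm]

theorem second_moment (f : ℕ → ℝ) (N K A Q R r0 : ℕ) (L : ℝ) (a0 : ℤ) (hK : 1 ≤ K) (hKA : K ≤ A)
    (hR : 1 ≤ R) (hr0 : 1 ≤ r0) (hL : 1 ≤ L) (hKY : K * (L / (A * r0)) ≤ 1 / 2) (U : ℝ) (hU : 0 ≤ U)
    (hJ : ∀ d ∈ Icc 1 R, ∀ c ∈ red d, ∀ l ∈ range d, ∀ v : ℝ,
      JJ f N K d l ((c : ℝ) / d) (a0 + A * v) (L / (A * r0)) ≤ U * (1 + |v|) ^ 2) :
    ∑ q ∈ Ioc Q (2 * Q), ∑ a ∈ Ioc a0 (a0 + A), (∑ k ∈ ks K, ft f N (a + k * q)) ^ 2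
      ≤ Real.exp Real.pi * (4 * S2 f N * (K + A * (1 + Real.log K))
          + 128 * S2 f N * (1 + Real.log (2 * K)) * (A * K / R + K ^ 2)
          + R ^ 2 * (34 * A * (1 + Real.log K) * r0 * S2 f N + 8 * K ^ 2 * N * S2 f N * Real.exp (-L ^ 2)
            + 4 * A * R * U)) := by
  have hA : 1 ≤ A := hK.trans hKA
  have hA0 : (0 : ℝ) < A := by exact_mod_cast hA
  have hS := S2_nonneg f N
  have hlogK : 0 ≤ Real.log K := Real.log_natCast_nonneg K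
  obtain ⟨Z, hZ⟩ := expand f N K A Q a0 hA
  refine hZ.trans (mul_le_mul_of_nonneg_left ?_ (Real.exp_pos _).le)
  have hdiag := diag_bound f N K A Z a0 hA hK
  -- the off-diagonal sum
  have hoff : ((∑ k1 ∈ ks K, ∑ k2 ∈ (ks K).erase k1, Soff f N A a0 k1 k2 : ℝ) : ℂ)
      = ∑ k1 ∈ ks K, ∑ k2 ∈ (ks K).erase k1, ∑ d ∈ (k2 - k1).natAbs.divisors.filter (fun d => R < d),
          ∑ c ∈ red d, IpS f N A a0 ((c : ℝ) / d) k1 k2 Set.univ
        + ∑ k1 ∈ ks K, ∑ k2 ∈ (ks K).erase k1,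
          ∑ d ∈ (k2 - k1).natAbs.divisors.filter (fun d => ¬ R < d),
          ∑ c ∈ red d, IpS f N A a0 ((c : ℝ) / d) k1 k2 Set.univ := by
    rw [← sum_add_distrib, Complex.ofReal_sum]
    refine sum_congr rfl fun k1 _ => ?_
    rw [← sum_add_distrib, Complex.ofReal_sum]
    refine sum_congr rfl fun k2 hk2 => ?_
    rw [mem_erase] at hk2
    rw [Soff_den f N A hA0 a0 k1 k2 (Ne.symm hk2.1), sum_filter_add_sum_filter_not]
  have hlarge : ‖∑ k1 ∈ ks K, ∑ k2 ∈ (ks K).erase k1,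
      ∑ d ∈ (k2 - k1).natAbs.divisors.filter (fun d => R < d),
        ∑ c ∈ red d, IpS f N A a0 ((c : ℝ) / d) k1 k2 Set.univ‖
      ≤ 128 * S2 f N * (1 + Real.log (2 * K)) * (A * K / R + K ^ 2) := by
    refine le_trans ?_ ((large1 f N K R A a0 hA0).trans ((mul_le_mul_of_nonneg_left
      (large2 f N K R A hA0 hK hR) (by norm_num)).trans (le_of_eq (by ring))))
    refine (norm_sum_le _ _).trans (sum_le_sum fun k1 _ => ?_)
    refine (norm_sum_le _ _).trans (sum_le_sum fun k2 _ => ?_)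
    refine (norm_sum_le _ _).trans (sum_le_sum fun d _ => ?_)
    exact norm_sum_le _ _
  set B : ℝ := 34 * A * (1 + Real.log K) * r0 * S2 f N
    + 8 * K ^ 2 * N * S2 f N * Real.exp (-L ^ 2) + 4 * A * R * U with hB
  have hB0 : 0 ≤ B := by
    rw [hB]
    have e1 : 0 ≤ 34 * (A : ℝ) * (1 + Real.log K) * r0 * S2 f N := by
      have : 0 ≤ 1 + Real.log K := by linarith
      positivity
    have e2 : 0 ≤ 8 * (K : ℝ) ^ 2 * N * S2 f N * Real.exp (-L ^ 2) := by positivity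
    have e3 : 0 ≤ 4 * (A : ℝ) * R * U := by positivity
    linarith
  have hsmall : ‖∑ k1 ∈ ks K, ∑ k2 ∈ (ks K).erase k1,
      ∑ d ∈ (k2 - k1).natAbs.divisors.filter (fun d => ¬ R < d),
        ∑ c ∈ red d, IpS f N A a0 ((c : ℝ) / d) k1 k2 Set.univ‖ ≤ R ^ 2 * B := by
    rw [Second_swap K R (fun k1 k2 α => IpS f N A a0 α k1 k2 Set.univ)]
    refine (norm_sum_le _ _).trans ?_
    have h1 : ∀ d ∈ Icc 1 R, ‖∑ c ∈ red d, ∑ k1 ∈ ks K,
        ∑ k2 ∈ (ks K).filter (fun k2 => k2 ≠ k1 ∧ (d : ℤ) ∣ k2 - k1),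
          IpS f N A a0 ((c : ℝ) / d) k1 k2 Set.univ‖ ≤ R * B := by
      intro d hd
      have hd' := mem_Icc.mp hd
      refine (norm_sum_le _ _).trans ?_
      have h2 : ∀ c ∈ red d, ‖∑ k1 ∈ ks K,
          ∑ k2 ∈ (ks K).filter (fun k2 => k2 ≠ k1 ∧ (d : ℤ) ∣ k2 - k1),
          IpS f N A a0 ((c : ℝ) / d) k1 k2 Set.univ‖ ≤ B := by
        intro c hc
        refine (small_den f N K d r0 A ((c : ℝ) / d) L a0 hK (by exact_mod_cast hKA) hd'.1 hr0 hL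
          hKY U hU (fun l hl v => hJ d hd c hc l hl v)).trans ?_
        rw [hB]
        have e3 : 4 * (A : ℝ) * d * U ≤ 4 * A * R * U := by
          have hdR : (d : ℝ) ≤ R := by exact_mod_cast hd'.2
          gcongr
        linarith
      refine (sum_le_sum h2).trans ?_
      rw [sum_const, Pool.Agent.H92.EH.card_red, nsmul_eq_mul]
      refine mul_le_mul_of_nonneg_right ?_ hB0
      exact_mod_cast (Nat.totient_le d).trans hd'.2
    refine (sum_le_sum h1).trans (le_of_eq ?_)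
    rw [sum_const, Nat.card_Icc, nsmul_eq_mul, Nat.add_sub_cancel]
    ring
  have hfin : ∑ k1 ∈ ks K, ∑ k2 ∈ (ks K).erase k1, Soff f N A a0 k1 k2
      ≤ 128 * S2 f N * (1 + Real.log (2 * K)) * (A * K / R + K ^ 2) + R ^ 2 * B := by
    refine (le_abs_self _).trans ?_
    rw [← Real.norm_eq_abs, ← Complex.norm_real, hoff]
    exact (norm_add_le _ _).trans (add_le_add hlarge hsmall)
  linarith

end Pool.Agent.H76.EHB
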