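import Pool.Agent.H91.PK.LSa
import Pool.Agent.H92.EH.Farey

/-!
# PROJECT EHB (MP_a78e8f_nt): common definitions

The exponential sum `FF f N θ = ∑_{n ≤ N} f(n) e(n θ)`, `S2 f N = ∑_{n ≤ N} f(n)^2`, the set `ks K` of the
integers `k ≠ 0` with `|k| ≤ K`, the Gaussian weight `wt A u = exp(-π (u/A)^2)`.
-/

set_option autoImplicit false

namespace Pool.Agent.H76.EHB

open Finset MeasureTheory
open Pool.Agent.H91.PK (ee)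
open Pool.Agent.H92.EH (red)

/-- `∑_{n ≤ N} f(n) e(n θ)` -/
noncomputable def FF (f : ℕ → ℝ) (N : ℕ) (θ : ℝ) : ℂ := ∑ n ∈ Icc 1 N, (f n : ℂ) * ee (n * θ)

/-- `∑_{n ≤ N} f(n)^2` -/
noncomputable def S2 (f : ℕ → ℝ) (N : ℕ) : ℝ := ∑ n ∈ Icc 1 N, f n ^ 2

/-- extension of `f` by zero to all integers -/
noncomputable def ft (f : ℕ → ℝ) (N : ℕ) (m : ℤ) : ℝ := if 1 ≤ m ∧ m ≤ N then f m.toNat else 0

/-- Gaussian weight -/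
noncomputable def wt (A u : ℝ) : ℝ := Real.exp (-Real.pi * (u / A) ^ 2)

/-- the integers `k ≠ 0`, `|k| ≤ K` -/
noncomputable def ks (K : ℕ) : Finset ℤ := (Icc (-(K : ℤ)) K).erase 0

/-- the off-diagonal sum of the pair `k1 ≠ k2` (physical side) -/
noncomputable def Soff (f : ℕ → ℝ) (N : ℕ) (A : ℝ) (a0 : ℤ) (k1 k2 : ℤ) : ℝ :=
  ∑ n1 ∈ Icc 1 N, ∑ n2 ∈ Icc 1 N,
    if (k2 - k1) ∣ ((n1 : ℤ) - n2) then
      f n1 * f n2 * wt A (((k2 * n1 - k1 * n2 : ℤ) : ℝ) / ((k2 - k1 : ℤ) : ℝ) - a0) else 0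

/-- the integral of the pair `k1, k2` at the fraction `α`, `y ∈ S` -/
noncomputable def IpS (f : ℕ → ℝ) (N : ℕ) (A : ℝ) (a0 : ℤ) (α : ℝ) (k1 k2 : ℤ) (S : Set ℝ) : ℂ :=
  ∫ y in S, ((A * Real.exp (-Real.pi * (A * ((k2 - k1 : ℤ) : ℝ) * y) ^ 2) : ℝ) : ℂ)
    * ee (-((a0 : ℝ) * ((k2 - k1 : ℤ) : ℝ) * y))
    * (FF f N (α + k2 * y) * (starRingEnd ℂ) (FF f N (α + k1 * y)))

/-- the majorant `∫ A exp(-π (A r y)^2) |F(α + k y)|^2 dy` -/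
noncomputable def Wk (f : ℕ → ℝ) (N : ℕ) (A : ℝ) (α k r : ℝ) (S : Set ℝ) : ℝ :=
  ∫ y in S, A * Real.exp (-Real.pi * (A * r * y) ^ 2) * ‖FF f N (α + k * y)‖ ^ 2

/-- the small denominator integral: `l` a class modulo `d`, `a` a real shift -/
noncomputable def JJ (f : ℕ → ℝ) (N K d : ℕ) (l : ℤ) (α a Y : ℝ) : ℝ :=
  ∫ y in Set.Icc (-Y) Y,
    ‖∑ k ∈ (ks K).filter (fun k => (d : ℤ) ∣ k - l), FF f N (α + k * y) * ee (-(a * k * y))‖ ^ 2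

end Pool.Agent.H76.EHB
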