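import Pool.Agent.H76.EHB.Expand
import Pool.Agent.H76.EHB.Gs

/-!
# EHB DiagB: the diagonal

For fixed `n` and `k ≠ 0` the `a` with `k ∣ n - a` are spaced by `|k| ≥ 1`, so `gauss_spaced` (`λ = 1/A`, `δ = |k|`) gives
`∑_a wt A (a - a0) ≤ 2 + 2A/|k|`.  Sum over `n` and over `k ∈ ks K` (`card_ks`, `sum_inv_ks`).
-/

set_option autoImplicit false

namespace Pool.Agent.H76.EHB

open Finset MeasureTheory

theorem diag_bound (f : ℕ → ℝ) (N K A Z : ℕ) (a0 : ℤ) (hA : 1 ≤ A) (hK : 1 ≤ K) :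
    ∑ k ∈ ks K, DD f N A a0 Z k ≤ 4 * S2 f N * (K + A * (1 + Real.log K)) := by
  have hAr : (0 : ℝ) < (A : ℝ) := by exact_mod_cast hA
  have hS := S2_nonneg f N
  have key : ∀ k ∈ ks K, DD f N A a0 Z k ≤ S2 f N * 2 + S2 f N * (2 * A) * (1 / |(k : ℝ)|) := by
    intro k hk
    have hk0 : k ≠ 0 := (mem_ks.mp hk).1
    have hkr : (0 : ℝ) < |(k : ℝ)| := abs_pos.mpr (by exact_mod_cast hk0)
    have inner : ∀ n : ℕ, ∑ a ∈ (Icc (-(Z : ℤ)) Z).filter (fun a => k ∣ (n : ℤ) - a),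
        wt A ((a : ℝ) - a0) ≤ 2 + 2 * A * (1 / |(k : ℝ)|) := by
      intro n
      have h := gauss_spaced ((Icc (-(Z : ℤ)) Z).filter (fun a => k ∣ (n : ℤ) - a))
        (fun a : ℤ => (a : ℝ)) |(k : ℝ)| (1 / (A : ℝ)) (a0 : ℝ) hkr (by positivity) (by
          intro i hi j hj hij
          have hi' := (Finset.mem_filter.mp hi).2
          have hj' := (Finset.mem_filter.mp hj).2
          have hd : k ∣ i - j := by
            have h3 := dvd_sub hj' hi'
            have e : (n : ℤ) - j - (n - i) = i - j := by ring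
            rwa [e] at h3
          have hne : i - j ≠ 0 := sub_ne_zero.mpr hij
          have h4 : |k| ≤ |i - j| := Int.le_of_dvd (abs_pos.mpr hne) ((abs_dvd_abs k (i - j)).mpr hd)
          have h5 : ((|k| : ℤ) : ℝ) ≤ ((|i - j| : ℤ) : ℝ) := by exact_mod_cast h4
          push_cast at h5
          exact h5)
      have e1 : ∑ a ∈ (Icc (-(Z : ℤ)) Z).filter (fun a => k ∣ (n : ℤ) - a), wt A ((a : ℝ) - a0)
          = ∑ i ∈ (Icc (-(Z : ℤ)) Z).filter (fun a => k ∣ (n : ℤ) - a),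
            Real.exp (-Real.pi * (1 / (A : ℝ) * ((i : ℝ) - a0)) ^ 2) := by
        refine Finset.sum_congr rfl fun a _ => ?_
        unfold wt
        congr 3
        ring
      rw [e1]
      refine h.trans (le_of_eq ?_)
      field_simp
    calc DD f N A a0 Z k ≤ ∑ n ∈ Icc 1 N, f n ^ 2 * (2 + 2 * A * (1 / |(k : ℝ)|)) := by
          unfold DD
          exact Finset.sum_le_sum fun n _ => mul_le_mul_of_nonneg_left (inner n) (sq_nonneg _)
      _ = S2 f N * 2 + S2 f N * (2 * A) * (1 / |(k : ℝ)|) := by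
          rw [← Finset.sum_mul]
          unfold S2
          ring
  calc ∑ k ∈ ks K, DD f N A a0 Z k
      ≤ ∑ k ∈ ks K, (S2 f N * 2 + S2 f N * (2 * A) * (1 / |(k : ℝ)|)) := Finset.sum_le_sum key
    _ = (2 * K) * (S2 f N * 2) + S2 f N * (2 * A) * ∑ k ∈ ks K, 1 / |(k : ℝ)| := by
        rw [Finset.sum_add_distrib, Finset.sum_const, card_ks, ← Finset.mul_sum, nsmul_eq_mul]
        push_cast
        ring
    _ ≤ (2 * K) * (S2 f N * 2) + S2 f N * (2 * A) * (2 * (1 + Real.log K)) := by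
        gcongr
        exact sum_inv_ks K hK
    _ = 4 * S2 f N * (K + A * (1 + Real.log K)) := by ring

end Pool.Agent.H76.EHB
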