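import Pool.Agent.H76.EHB.Basic

/-!
# EHB Gft: Gaussian Fourier identities

Both are `fourier_gaussian_pi` / `fourierIntegral_gaussian` of Mathlib
(`∫ exp(-π b x^2) e(-x t) dx = b^{-1/2} exp(-π t^2/b)`), `ee(s) = exp(2 π i s)`:
`gft1`: `exp(-π (u/A)^2) = ∫ A |r| exp(-π (A r y)^2) e(u r y) dy` (A > 0, r ≠ 0), substitute `z = A r y`.
`gft2`: `exp(-π s^2) = ∫ exp(-π v^2) e(-s v) dv`.
-/

set_option autoImplicit false

namespace Pool.Agent.H76.EHB

open Finset MeasureTheory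
open Pool.Agent.H91.PK (ee)

theorem gauss_integrable (b : ℝ) (hb : b ≠ 0) :
    Integrable (fun y : ℝ => Real.exp (-Real.pi * (b * y) ^ 2)) := by
  have h : 0 < Real.pi * b ^ 2 := by positivity
  have := integrable_exp_neg_mul_sq h
  refine this.congr (Filter.Eventually.of_forall fun y => ?_)
  show Real.exp (-(Real.pi * b ^ 2) * y ^ 2) = Real.exp (-Real.pi * (b * y) ^ 2)
  congr 1
  ring

theorem gauss_integral (b : ℝ) (hb : b ≠ 0) :
    ∫ y : ℝ, Real.exp (-Real.pi * (b * y) ^ 2) = 1 / |b| := by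
  have h1 : (fun y : ℝ => Real.exp (-Real.pi * (b * y) ^ 2)) =
      fun y : ℝ => Real.exp (-(Real.pi * b ^ 2) * y ^ 2) := by
    funext y
    congr 1
    ring
  rw [h1, integral_gaussian]
  have h2 : Real.pi / (Real.pi * b ^ 2) = (1 / |b|) ^ 2 := by
    rw [div_pow, sq_abs, one_pow]
    field_simp
  rw [h2, Real.sqrt_sq (by positivity)]

theorem gft2 (s : ℝ) :
    ((Real.exp (-Real.pi * s ^ 2) : ℝ) : ℂ)
      = ∫ v : ℝ, ((Real.exp (-Real.pi * v ^ 2) : ℝ) : ℂ) * ee (-(s * v)) := by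
  have hpi : (Real.pi : ℂ) ≠ 0 := by exact_mod_cast Real.pi_ne_zero
  have h := fourierIntegral_gaussian (b := (Real.pi : ℂ)) (by
    rw [Complex.ofReal_re]; exact Real.pi_pos) (-(2 * Real.pi * s))
  have h1 : (fun v : ℝ => ((Real.exp (-Real.pi * v ^ 2) : ℝ) : ℂ) * ee (-(s * v))) =
      fun x : ℝ => Complex.exp (Complex.I * (-(2 * Real.pi * s)) * x) *
        Complex.exp (-(Real.pi : ℂ) * x ^ 2) := by
    funext v
    rw [mul_comm]
    unfold ee
    congr 1
    · congr 1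
      push_cast
      ring
    · push_cast
      rfl
  rw [h1, h, div_self hpi, Complex.one_cpow, one_mul, Complex.ofReal_exp]
  congr 1
  push_cast
  field_simp
  ring

theorem gft1 (A r u : ℝ) (hA : 0 < A) (hr : r ≠ 0) :
    ((wt A u : ℝ) : ℂ)
      = ∫ y : ℝ, ((A * |r| * Real.exp (-Real.pi * (A * r * y) ^ 2) : ℝ) : ℂ) * ee (u * r * y) := by
  have hAr : A * r ≠ 0 := mul_ne_zero hA.ne' hr
  have h := Measure.integral_comp_mul_left
    (fun v : ℝ => ((Real.exp (-Real.pi * v ^ 2) : ℝ) : ℂ) * ee (-(-(u / A) * v))) (A * r)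
  rw [← gft2 (-(u / A))] at h
  have h1 : (fun y : ℝ => ((A * |r| * Real.exp (-Real.pi * (A * r * y) ^ 2) : ℝ) : ℂ) *
      ee (u * r * y)) = fun y : ℝ => ((A * |r| : ℝ) : ℂ) *
      (((Real.exp (-Real.pi * (A * r * y) ^ 2) : ℝ) : ℂ) * ee (-(-(u / A) * (A * r * y)))) := by
    funext y
    have e1 : u * r * y = -(-(u / A) * (A * r * y)) := by
      field_simp
    rw [← e1]
    push_cast
    ring
  rw [h1, integral_const_mul, h, Complex.real_smul, ← mul_assoc, ← Complex.ofReal_mul]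
  have h2 : A * |r| * |(A * r)⁻¹| = 1 := by
    rw [abs_inv, abs_mul, abs_of_pos hA]
    have : |r| ≠ 0 := abs_ne_zero.mpr hr
    field_simp
  rw [h2, Complex.ofReal_one, one_mul]
  unfold wt
  congr 2
  ring

end Pool.Agent.H76.EHB
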