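import Pool.Agent.H76.EHB.Gft
import Pool.Agent.H92.EH.Ramanujan

/-!
# EHB SoffInt: the off-diagonal sum as an integral

Let `r = k2 - k1 ≠ 0`, `m = |r|`.  By `gft1` (with `u = (k2 n1 - k1 n2)/r - a0`, so `u r y = (k2 n1 - k1 n2) y - a0 r y`)
`Soff = ∫ A |r| exp(-π (A r y)^2) e(-a0 r y) ∑_{n1,n2: r ∣ n1 - n2} f f e((k2 n1 - k1 n2) y) dy`, and
`|r| 1_{r ∣ n1 - n2} = ∑_{c < m} e(c (n1 - n2)/m)` (`Pool.Agent.H92.EH.sum_complete`, for the other exponential `e` with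
the same values: `EH.e t = ee t`), so that `|r| ∑_{r ∣ n1 - n2} f f e(..) = ∑_{c<m} FF(c/m + k2 y) * conj FF(c/m + k1 y)`
[`FF(c/m + k2 y)` has `n1`: `e(n1 (c/m + k2 y))`, and `conj FF(c/m + k1 y) = ∑_{n2} f(n2) e(-n2 (c/m + k1 y))`].
Exchange of the finite sums and the integral (integrable by `gauss_integrable` and boundedness).
-/

set_option autoImplicit false

namespace Pool.Agent.H76.EHB

open Finset MeasureTheory
open Pool.Agent.H91.PK (ee)

private theorem soffint_e (t : ℝ) : Pool.Agent.H92.EH.e t = ee t := by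
  unfold Pool.Agent.H92.EH.e ee
  congr 1
  push_cast
  ring

private theorem soffint_norm (t : ℝ) : ‖ee t‖ = 1 := by
  unfold ee
  rw [show (2 * Real.pi * t * Complex.I : ℂ) = ((2 * Real.pi * t : ℝ) : ℂ) * Complex.I by
    push_cast; ring, Complex.norm_exp_ofReal_mul_I]

private theorem soffint_add (s t : ℝ) : ee (s + t) = ee s * ee t := by
  unfold ee
  rw [← Complex.exp_add]
  congr 1
  push_cast
  ring

private theorem soffint_conj (t : ℝ) : (starRingEnd ℂ) (ee t) = ee (-t) := by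
  unfold ee
  rw [← Complex.exp_conj]
  congr 1
  simp only [map_mul, Complex.conj_ofReal, Complex.conj_I, map_ofNat]
  push_cast
  ring

private theorem soffint_integrable (A b w : ℝ) (hb : b ≠ 0) :
    Integrable (fun y : ℝ => ((A * Real.exp (-Real.pi * (b * y) ^ 2) : ℝ) : ℂ) * ee (w * y)) := by
  have h1 : Integrable (fun y : ℝ => |A| * Real.exp (-Real.pi * (b * y) ^ 2)) :=
    (gauss_integrable b hb).const_mul _
  refine h1.mono' ?_ ?_
  · refine Continuous.aestronglyMeasurable ?_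
    have := continuous_ee
    fun_prop
  · refine Filter.Eventually.of_forall fun y => ?_
    rw [norm_mul, soffint_norm, mul_one, Complex.norm_real, Real.norm_eq_abs, abs_mul, Real.abs_exp]

private theorem soffint_one (A r u : ℝ) (hA : 0 < A) (hr : r ≠ 0) :
    ∫ y : ℝ, ((A * Real.exp (-Real.pi * (A * r * y) ^ 2) : ℝ) : ℂ) * ee (u * r * y) =
      ((wt A u / |r| : ℝ) : ℂ) := by
  have h := gft1 A r u hA hr
  have hr' : ((|r| : ℝ) : ℂ) ≠ 0 := by
    exact_mod_cast (abs_pos.2 hr).ne'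
  have h2 : ∀ y : ℝ, ((A * |r| * Real.exp (-Real.pi * (A * r * y) ^ 2) : ℝ) : ℂ) * ee (u * r * y) =
      ((|r| : ℝ) : ℂ) * (((A * Real.exp (-Real.pi * (A * r * y) ^ 2) : ℝ) : ℂ) *
        ee (u * r * y)) := by
    intro y
    push_cast
    ring
  simp_rw [h2] at h
  rw [integral_const_mul] at h
  rw [Complex.ofReal_div, h, mul_div_cancel_left₀ _ hr']

theorem Soff_eq (f : ℕ → ℝ) (N : ℕ) (A : ℝ) (hA : 0 < A) (a0 k1 k2 : ℤ) (hk : k1 ≠ k2) :
    ((Soff f N A a0 k1 k2 : ℝ) : ℂ)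
      = ∑ c ∈ range (k2 - k1).natAbs, IpS f N A a0 ((c : ℝ) / (k2 - k1).natAbs) k1 k2 Set.univ := by
  have hr0 : k2 - k1 ≠ 0 := sub_ne_zero.2 (Ne.symm hk)
  set r : ℤ := k2 - k1 with hr
  set m : ℕ := r.natAbs with hm
  have hm0 : 0 < m := Int.natAbs_pos.2 hr0
  have hrR : (r : ℝ) ≠ 0 := by exact_mod_cast hr0
  have hmr : |(r : ℝ)| = (m : ℝ) := by
    rw [hm, Nat.cast_natAbs, Int.cast_abs]
  have hmR : (m : ℝ) ≠ 0 := by exact_mod_cast hm0.ne'
  have hbR : A * (r : ℝ) ≠ 0 := mul_ne_zero hA.ne' hrR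
  have key : ∀ c : ℕ, IpS f N A a0 ((c : ℝ) / m) k1 k2 Set.univ =
      ∑ n1 ∈ Icc 1 N, ∑ n2 ∈ Icc 1 N, ((f n1 : ℂ) * f n2) *
        (ee (((n1 : ℤ) - n2 : ℤ) * ((c : ℝ) / m)) *
          ((wt A (((k2 * n1 - k1 * n2 : ℤ) : ℝ) / (r : ℝ) - a0) / |(r : ℝ)| : ℝ) : ℂ)) := by
    intro c
    unfold IpS
    rw [Measure.restrict_univ]
    have h1 : ∀ y : ℝ, ((A * Real.exp (-Real.pi * (A * ((k2 - k1 : ℤ) : ℝ) * y) ^ 2) : ℝ) : ℂ)
        * ee (-((a0 : ℝ) * ((k2 - k1 : ℤ) : ℝ) * y))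
        * (FF f N ((c : ℝ) / m + k2 * y) * (starRingEnd ℂ) (FF f N ((c : ℝ) / m + k1 * y))) =
        ∑ n1 ∈ Icc 1 N, ∑ n2 ∈ Icc 1 N, ((f n1 : ℂ) * f n2) *
          (ee (((n1 : ℤ) - n2 : ℤ) * ((c : ℝ) / m)) *
          (((A * Real.exp (-Real.pi * (A * (r : ℝ) * y) ^ 2) : ℝ) : ℂ) *
            ee ((((k2 * n1 - k1 * n2 : ℤ) : ℝ) / (r : ℝ) - a0) * (r : ℝ) * y))) := by
      intro y
      unfold FF
      rw [map_sum, Finset.sum_mul_sum, Finset.mul_sum]
      refine Finset.sum_congr rfl fun n1 _ => ?_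
      rw [Finset.mul_sum]
      refine Finset.sum_congr rfl fun n2 _ => ?_
      rw [map_mul, Complex.conj_ofReal, soffint_conj]
      have h2 : ee (-((a0 : ℝ) * ((k2 - k1 : ℤ) : ℝ) * y)) * (ee (n1 * ((c : ℝ) / m + k2 * y)) *
          ee (-(n2 * ((c : ℝ) / m + k1 * y)))) = ee (((n1 : ℤ) - n2 : ℤ) * ((c : ℝ) / m)) *
            ee ((((k2 * n1 - k1 * n2 : ℤ) : ℝ) / (r : ℝ) - a0) * (r : ℝ) * y) := by
        rw [← soffint_add, ← soffint_add, ← soffint_add]
        congr 1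
        rw [sub_mul (((k2 * n1 - k1 * n2 : ℤ) : ℝ) / (r : ℝ)), div_mul_cancel₀ _ hrR, hr]
        push_cast
        ring
      have h3 : ∀ g x1 x2 x3 a b s t : ℂ, x1 * (x2 * x3) = s * t →
          g * x1 * (a * x2 * (b * x3)) = a * b * (s * (g * t)) := by
        intro g x1 x2 x3 a b s t h
        calc g * x1 * (a * x2 * (b * x3)) = g * a * b * (x1 * (x2 * x3)) := by ring
          _ = a * b * (s * (g * t)) := by rw [h]; ring
      exact h3 _ _ _ _ _ _ _ _ h2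
    simp_rw [h1]
    rw [integral_finsetSum]
    · refine Finset.sum_congr rfl fun n1 _ => ?_
      rw [integral_finsetSum]
      · refine Finset.sum_congr rfl fun n2 _ => ?_
        rw [integral_const_mul, integral_const_mul, soffint_one A r _ hA hrR]
      · intro n2 _
        exact ((soffint_integrable A (A * r) _ hbR).const_mul _).const_mul _
    · intro n1 _
      refine integrable_finsetSum _ fun n2 _ => ?_
      exact ((soffint_integrable A (A * r) _ hbR).const_mul _).const_mul _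
  simp_rw [key]
  rw [Finset.sum_comm]
  unfold Soff
  rw [Complex.ofReal_sum]
  refine Finset.sum_congr rfl fun n1 _ => ?_
  rw [Finset.sum_comm, Complex.ofReal_sum]
  refine Finset.sum_congr rfl fun n2 _ => ?_
  rw [← Finset.mul_sum, ← Finset.sum_mul]
  have hsc := Pool.Agent.H92.EH.sum_complete m hm0 ((n1 : ℤ) - n2)
  simp_rw [soffint_e] at hsc
  rw [hsc]
  have hdvd : (m : ℤ) ∣ ((n1 : ℤ) - n2) ↔ r ∣ ((n1 : ℤ) - n2) := by
    rw [hm, Int.natAbs_dvd]
  have hmC : (m : ℂ) ≠ 0 := by exact_mod_cast hm0.ne'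
  by_cases h : r ∣ ((n1 : ℤ) - n2)
  · rw [if_pos (hdvd.2 h), if_pos h, hmr, Complex.ofReal_mul, Complex.ofReal_mul,
      Complex.ofReal_div, Complex.ofReal_natCast, mul_div_cancel₀ _ hmC]
  · rw [if_neg (fun h' => h (hdvd.1 h')), if_neg h, Complex.ofReal_zero, zero_mul, mul_zero]

end Pool.Agent.H76.EHB
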